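import Mathlib

open Finset

namespace Pool.Agent.Helper459_costas

variable {p : ℕ} [Fact p.Prime]

/-- The nonzero elements of the prime field. -/
def nz (p : ℕ) [Fact p.Prime] : Finset (ZMod p) := univ.filter fun x => x ≠ 0

@[simp] theorem mem_nz {x : ZMod p} : x ∈ nz p ↔ x ≠ 0 := by simp [nz]

theorem card_nz : (nz p).card = p - 1 := by
  have : nz p = univ.erase (0 : ZMod p) := by
    ext x; simp [nz]
  rw [this, card_erase_of_mem (mem_univ _), card_univ, ZMod.card]

/-- Solutions `x ≠ 0, 1` of `A φ(x) + B ψ(1 - x) = 1`. -/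
def sols (φ ψ : ZMod p →*₀ ZMod p) (A B : ZMod p) : Finset (ZMod p) :=
  univ.filter fun x => x ≠ 0 ∧ x ≠ 1 ∧ A * φ x + B * ψ (1 - x) = 1

theorem mem_sols {φ ψ : ZMod p →*₀ ZMod p} {A B x : ZMod p} :
    x ∈ sols φ ψ A B ↔ x ≠ 0 ∧ x ≠ 1 ∧ A * φ x + B * ψ (1 - x) = 1 := by
  simp [sols]

/-- The homogeneous form of the relation. -/
def Ed (φ : ZMod p →*₀ ZMod p) (A B u v : ZMod p) : Prop :=
  u + v ≠ 0 ∧ A * φ u + B * φ v = φ (u + v)

instance (φ : ZMod p →*₀ ZMod p) (A B u v : ZMod p) : Decidable (Ed φ A B u v) := by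
  unfold Ed; infer_instance

theorem Ed_comm {φ : ZMod p →*₀ ZMod p} {A B u v : ZMod p} :
    Ed φ A B u v ↔ Ed φ B A v u := by
  unfold Ed
  rw [add_comm v u, add_comm (B * φ v)]

theorem map_ne {φ : ZMod p →*₀ ZMod p} {x : ZMod p} (hx : x ≠ 0) : φ x ≠ 0 :=
  (map_ne_zero φ).2 hx

theorem card_edges_left (φ : ZMod p →*₀ ZMod p) (A B : ZMod p) {u : ZMod p} (hu : u ∈ nz p) :
    ((nz p).filter fun v => Ed φ A B u v).card = (sols φ φ A B).card := by
  rw [mem_nz] at hu
  refine card_bij' (fun v _ => u / (u + v)) (fun x _ => u * (1 - x) / x) ?_ ?_ ?_ ?_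
  · intro v hv
    rw [mem_filter, mem_nz] at hv
    obtain ⟨hv0, hne, h⟩ := hv
    rw [mem_sols]
    have h1 : 1 - u / (u + v) = v / (u + v) := by field_simp; ring
    refine ⟨div_ne_zero hu hne, ?_, ?_⟩
    · intro h2
      rw [div_eq_one_iff_eq hne] at h2
      apply hv0
      linear_combination -h2
    · rw [h1, map_div₀, map_div₀]
      have := map_ne (φ := φ) hne
      field_simp
      exact h
  · intro x hx
    rw [mem_sols] at hx
    obtain ⟨hx0, hx1, h⟩ := hx
    have h1x : (1 - x) ≠ 0 := sub_ne_zero.2 (Ne.symm hx1)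
    rw [mem_filter, mem_nz]
    have h2 : u + u * (1 - x) / x = u / x := by field_simp; ring
    refine ⟨div_ne_zero (mul_ne_zero hu h1x) hx0, ?_, ?_⟩
    · rw [h2]; exact div_ne_zero hu hx0
    · rw [h2, map_div₀, map_div₀, map_mul]
      have := map_ne (φ := φ) hx0
      field_simp
      linear_combination (φ u) * h
  · intro v hv
    rw [mem_filter, mem_nz] at hv
    obtain ⟨hv0, hne, h⟩ := hv
    field_simp
    ring
  · intro x hx
    rw [mem_sols] at hx
    obtain ⟨hx0, hx1, h⟩ := hx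
    have h2 : u + u * (1 - x) / x = u / x := by field_simp; ring
    rw [h2]
    field_simp

theorem card_sols_swap (φ ψ : ZMod p →*₀ ZMod p) (A B : ZMod p) :
    (sols φ ψ A B).card = (sols ψ φ B A).card := by
  refine card_bij' (fun x _ => 1 - x) (fun x _ => 1 - x) ?_ ?_ ?_ ?_
  · intro x hx
    rw [mem_sols] at hx ⊢
    obtain ⟨h0, h1, h⟩ := hx
    refine ⟨sub_ne_zero.2 (Ne.symm h1), fun h2 => h0 (by linear_combination -h2), ?_⟩
    rw [sub_sub_cancel]
    linear_combination h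
  · intro x hx
    rw [mem_sols] at hx ⊢
    obtain ⟨h0, h1, h⟩ := hx
    refine ⟨sub_ne_zero.2 (Ne.symm h1), fun h2 => h0 (by linear_combination -h2), ?_⟩
    rw [sub_sub_cancel]
    linear_combination h
  · intro x _; ring
  · intro x _; ring

theorem card_edges_right (φ : ZMod p →*₀ ZMod p) (A B : ZMod p) {v : ZMod p} (hv : v ∈ nz p) :
    ((nz p).filter fun u => Ed φ A B u v).card = (sols φ φ A B).card := by
  have : ((nz p).filter fun u => Ed φ A B u v) = (nz p).filter fun u => Ed φ B A v u := by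
    apply filter_congr
    intro u _
    exact Ed_comm
  rw [this, card_edges_left φ B A hv, card_sols_swap]

/-- The point of `F × F` attached to an element. -/
def tw (φ : ZMod p →*₀ ZMod p) (x : ZMod p) : ZMod p × ZMod p := (x, φ x)

theorem tw_inj (φ : ZMod p →*₀ ZMod p) : Function.Injective (tw φ) := by
  intro x y h
  exact (Prod.ext_iff.1 h).1

theorem tw_mul (φ : ZMod p →*₀ ZMod p) (x y : ZMod p) : tw φ (x * y) = tw φ x * tw φ y := by
  simp [tw]

/-- multiplication of a set by a ring element -/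
def dil (c : ZMod p × ZMod p) (X : Finset (ZMod p × ZMod p)) : Finset (ZMod p × ZMod p) :=
  X.image fun x => c * x

theorem mem_dil {c : ZMod p × ZMod p} {X : Finset (ZMod p × ZMod p)} {z : ZMod p × ZMod p} :
    z ∈ dil c X ↔ ∃ x ∈ X, c * x = z := by simp [dil]

theorem mul_inj_of {c : ZMod p × ZMod p} (h1 : c.1 ≠ 0) (h2 : c.2 ≠ 0) :
    Function.Injective fun x : ZMod p × ZMod p => c * x := by
  intro x y h
  have := Prod.ext_iff.1 h
  simp only [Prod.fst_mul, Prod.snd_mul] at this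
  exact Prod.ext (mul_left_cancel₀ h1 this.1) (mul_left_cancel₀ h2 this.2)

theorem card_dil {c : ZMod p × ZMod p} (h1 : c.1 ≠ 0) (h2 : c.2 ≠ 0)
    (X : Finset (ZMod p × ZMod p)) : (dil c X).card = X.card :=
  card_image_of_injective _ (mul_inj_of h1 h2)

open Pointwise in
theorem dil_add (c : ZMod p × ZMod p) (X Y : Finset (ZMod p × ZMod p)) :
    dil c (X + Y) = dil c X + dil c Y := by
  ext z
  simp only [mem_dil, mem_add]
  constructor
  · rintro ⟨x, ⟨a, ha, b, hb, rfl⟩, rfl⟩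
    exact ⟨c * a, ⟨a, ha, rfl⟩, c * b, ⟨b, hb, rfl⟩, by ring⟩
  · rintro ⟨_, ⟨a, ha, rfl⟩, _, ⟨b, hb, rfl⟩, rfl⟩
    exact ⟨a + b, ⟨a, ha, b, hb, rfl⟩, by ring⟩

end Pool.Agent.Helper459_costas
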