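import Mathlib

open Finset

namespace Pool.Agent.Helper459_costas

/-- A regular bipartite graph contains two large vertex sets all of whose pairs are joined by many
paths of length three. -/
theorem graph_lemma {α β : Type*} [DecidableEq α] [DecidableEq β]
    (VA : Finset α) (VB : Finset β) (E : α → β → Prop) [∀ a b, Decidable (E a b)]
    (n N : ℕ) (hn : 0 < n) (hN : 0 < N)
    (hA : VA.card = n) (hB : VB.card = n)
    (hdegA : ∀ u ∈ VA, (VB.filter fun v => E u v).card = N)
    (hdegB : ∀ v ∈ VB, (VA.filter fun u => E u v).card = N) :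
    ∃ A' ⊆ VA, ∃ B' ⊆ VB, N ≤ 2 * A'.card ∧ N ≤ 2 * B'.card ∧
      ∀ u ∈ A', ∀ v ∈ B',
        N ^ 5 ≤ 32 * n ^ 3 *
          ((VA ×ˢ VB).filter fun q => E u q.2 ∧ E q.1 q.2 ∧ E q.1 v).card := by
  classical
  set cod : α → α → ℕ := fun u u' => (VB.filter fun v => E u v ∧ E u' v).card with hcod
  set bad : α → α → Prop := fun u u' => 8 * n ^ 2 * cod u u' < N ^ 3 with hbad
  -- number of bad pairs in a neighbourhood
  set b : β → ℕ := fun v => ((VA ×ˢ VA).filter fun q => E q.1 v ∧ E q.2 v ∧ bad q.1 q.2).card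
    with hb
  have h1 : ∑ v ∈ VB, b v = ∑ q ∈ (VA ×ˢ VA).filter (fun q => bad q.1 q.2), cod q.1 q.2 := by
    simp only [hb, hcod, card_filter]
    rw [sum_comm, sum_filter]
    refine sum_congr rfl fun q _ => ?_
    by_cases hq : bad q.1 q.2
    · simp [hq]
    · simp [hq]
  have h2 : 8 * ∑ v ∈ VB, b v ≤ N ^ 3 := by
    have h3 : 8 * n ^ 2 * ∑ v ∈ VB, b v ≤ n ^ 2 * N ^ 3 := by
      rw [h1, mul_sum]
      calc ∑ q ∈ (VA ×ˢ VA).filter (fun q => bad q.1 q.2), 8 * n ^ 2 * cod q.1 q.2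
          ≤ ∑ q ∈ (VA ×ˢ VA).filter (fun q => bad q.1 q.2), N ^ 3 :=
            sum_le_sum fun q hq => le_of_lt (mem_filter.1 hq).2
        _ ≤ ∑ q ∈ (VA ×ˢ VA), N ^ 3 :=
            sum_le_sum_of_subset (filter_subset _ _)
        _ = n ^ 2 * N ^ 3 := by
            rw [sum_const, card_product, hA, smul_eq_mul]; ring
    have h4 : 0 < n ^ 2 := by positivity
    have h5 : n ^ 2 * (8 * ∑ v ∈ VB, b v) ≤ n ^ 2 * N ^ 3 := by
      calc n ^ 2 * (8 * ∑ v ∈ VB, b v) = 8 * n ^ 2 * ∑ v ∈ VB, b v := by ring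
        _ ≤ _ := h3
    exact Nat.le_of_mul_le_mul_left h5 h4
  have hBne : VB.Nonempty := by
    rw [← card_pos, hB]; exact hn
  obtain ⟨v0, hv0, hbv0⟩ : ∃ v ∈ VB, 8 * n * b v ≤ N ^ 3 := by
    apply exists_le_of_sum_le hBne
    rw [← mul_sum, sum_const, hB, smul_eq_mul]
    calc 8 * n * ∑ v ∈ VB, b v = n * (8 * ∑ v ∈ VB, b v) := by ring
      _ ≤ n * N ^ 3 := Nat.mul_le_mul_left _ h2
  set U1 := VA.filter fun u => E u v0 with hU1
  have hU1c : U1.card = N := hdegB v0 hv0
  set c : α → ℕ := fun u => (U1.filter fun u' => bad u u').card with hc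
  have hcsum : ∑ u ∈ U1, c u = b v0 := by
    simp only [hc, hb, hU1, card_filter, sum_filter]
    rw [sum_product]
    refine sum_congr rfl fun u _ => ?_
    by_cases hu : E u v0
    · simp only [hu, if_true, true_and]
      refine sum_congr rfl fun u' _ => ?_
      by_cases hu' : E u' v0 <;> simp [hu']
    · simp [hu]
  set A' := U1.filter fun u => 4 * n * c u ≤ N ^ 2 with hA'
  set d : β → ℕ := fun v => (U1.filter fun u => E u v).card with hd
  set B' := VB.filter fun v => N ^ 2 ≤ 2 * n * d v with hB'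
  refine ⟨A', (filter_subset _ _).trans (filter_subset _ _), B', filter_subset _ _, ?_, ?_, ?_⟩
  · -- size of A'
    set C := U1.filter fun u => ¬ 4 * n * c u ≤ N ^ 2 with hC
    have h3 : A'.card + C.card = N := by
      rw [hA', hC, card_filter_add_card_filter_not, hU1c]
    have h4 : 2 * (N ^ 2 * C.card) ≤ N ^ 3 := by
      have : N ^ 2 * C.card ≤ 4 * n * b v0 := by
        calc N ^ 2 * C.card = ∑ u ∈ C, N ^ 2 := by rw [sum_const, smul_eq_mul, mul_comm]
          _ ≤ ∑ u ∈ C, 4 * n * c u := sum_le_sum fun u hu =>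
              le_of_lt (not_le.1 (mem_filter.1 hu).2)
          _ ≤ ∑ u ∈ U1, 4 * n * c u := sum_le_sum_of_subset (filter_subset _ _)
          _ = 4 * n * b v0 := by rw [← mul_sum, hcsum]
      calc 2 * (N ^ 2 * C.card) ≤ 2 * (4 * n * b v0) := by omega
        _ = 8 * n * b v0 := by ring
        _ ≤ N ^ 3 := hbv0
    have h5 : 2 * C.card ≤ N := by
      have h6 : N ^ 2 * (2 * C.card) ≤ N ^ 2 * N := by
        calc N ^ 2 * (2 * C.card) = 2 * (N ^ 2 * C.card) := by ring
          _ ≤ N ^ 3 := h4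
          _ = N ^ 2 * N := by ring
      exact Nat.le_of_mul_le_mul_left h6 (by positivity)
    omega
  · -- size of B'
    have hdsum : ∑ v ∈ VB, d v = N * N := by
      simp only [hd, card_filter]
      rw [sum_comm]
      have : ∀ u ∈ U1, ∑ v ∈ VB, (if E u v then 1 else 0) = N := by
        intro u hu
        rw [← card_filter]
        exact hdegA u (mem_filter.1 hu).1
      rw [sum_congr rfl this, sum_const, hU1c, smul_eq_mul]
    have hdle : ∀ v ∈ VB, d v ≤ N := by
      intro v hv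
      rw [← hdegB v hv]
      apply card_le_card
      intro u hu
      rw [mem_filter] at hu ⊢
      exact ⟨(mem_filter.1 hu.1).1, hu.2⟩
    set C := VB.filter fun v => ¬ N ^ 2 ≤ 2 * n * d v with hC
    have hsplit : ∑ v ∈ B', d v + ∑ v ∈ C, d v = N * N := by
      rw [hB', hC, sum_filter_add_sum_filter_not, hdsum]
    have h3 : 2 * ∑ v ∈ C, d v ≤ N ^ 2 := by
      have h4 : n * (2 * ∑ v ∈ C, d v) ≤ n * N ^ 2 := by
        calc n * (2 * ∑ v ∈ C, d v) = ∑ v ∈ C, 2 * n * d v := by rw [← mul_sum]; ring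
          _ ≤ ∑ v ∈ C, N ^ 2 := sum_le_sum fun v hv => le_of_lt (not_le.1 (mem_filter.1 hv).2)
          _ ≤ ∑ v ∈ VB, N ^ 2 := sum_le_sum_of_subset (filter_subset _ _)
          _ = n * N ^ 2 := by rw [sum_const, hB, smul_eq_mul]
      exact Nat.le_of_mul_le_mul_left h4 hn
    have h5 : ∑ v ∈ B', d v ≤ B'.card * N := by
      rw [← smul_eq_mul]
      exact sum_le_card_nsmul _ _ _ fun v hv => hdle v (mem_filter.1 hv).1
    have h6 : N * N ≤ N * (2 * B'.card) := by nlinarith
    exact Nat.le_of_mul_le_mul_left h6 hN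
  · intro u hu v hv
    have hu1 : u ∈ U1 := (mem_filter.1 hu).1
    have huA : u ∈ VA := (mem_filter.1 hu1).1
    have huc : 4 * n * c u ≤ N ^ 2 := (mem_filter.1 hu).2
    have hvd : N ^ 2 ≤ 2 * n * d v := (mem_filter.1 hv).2
    set M := U1.filter fun u1 => E u1 v ∧ ¬ bad u u1 with hM
    have hMc : d v ≤ M.card + c u := by
      have : (U1.filter fun u1 => E u1 v) ⊆ M ∪ (U1.filter fun u' => bad u u') := by
        intro w hw
        rw [mem_filter] at hw
        by_cases hbw : bad u w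
        · exact mem_union_right _ (mem_filter.2 ⟨hw.1, hbw⟩)
        · exact mem_union_left _ (mem_filter.2 ⟨hw.1, hw.2, hbw⟩)
      calc d v ≤ (M ∪ (U1.filter fun u' => bad u u')).card := card_le_card this
        _ ≤ _ := card_union_le _ _
    have hMn : N ^ 2 ≤ 4 * n * M.card := by
      have : 4 * n * d v ≤ 4 * n * (M.card + c u) := Nat.mul_le_mul_left _ hMc
      nlinarith
    set P := ((VA ×ˢ VB).filter fun q => E u q.2 ∧ E q.1 q.2 ∧ E q.1 v).card with hP
    have hPge : ∑ u1 ∈ M, cod u u1 ≤ P := by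
      rw [hP, card_filter, sum_product]
      calc ∑ u1 ∈ M, cod u u1
          ≤ ∑ u1 ∈ M, ∑ v1 ∈ VB, (if E u v1 ∧ E u1 v1 ∧ E u1 v then 1 else 0) := by
            refine sum_le_sum fun u1 hu1' => ?_
            have : E u1 v := (mem_filter.1 hu1').2.1
            simp only [hcod, card_filter, this, and_true]
            exact le_refl _
        _ ≤ _ := by
            apply sum_le_sum_of_subset
            exact (filter_subset _ _).trans (filter_subset _ _)
    have h3 : M.card * N ^ 3 ≤ 8 * n ^ 2 * P := by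
      calc M.card * N ^ 3 = ∑ u1 ∈ M, N ^ 3 := by rw [sum_const, smul_eq_mul]
        _ ≤ ∑ u1 ∈ M, 8 * n ^ 2 * cod u u1 := sum_le_sum fun u1 hu1' =>
            not_lt.1 (mem_filter.1 hu1').2.2
        _ = 8 * n ^ 2 * ∑ u1 ∈ M, cod u u1 := by rw [← mul_sum]
        _ ≤ _ := Nat.mul_le_mul_left _ hPge
    calc N ^ 5 = N ^ 2 * N ^ 3 := by ring
      _ ≤ (4 * n * M.card) * N ^ 3 := Nat.mul_le_mul_right _ hMn
      _ = 4 * n * (M.card * N ^ 3) := by ring
      _ ≤ 4 * n * (8 * n ^ 2 * P) := Nat.mul_le_mul_left _ h3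
      _ = 32 * n ^ 3 * P := by ring

end Pool.Agent.Helper459_costas
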