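import Mathlib
import Pool.Agent.Helper459_costas.Basic
import Pool.Agent.Helper459_costas.Graph

open Finset Pointwise

namespace Pool.Agent.Helper459_costas

variable {p : ℕ} [Fact p.Prime]

theorem two_le_p : 2 ≤ p := (Fact.out : p.Prime).two_le

theorem sumset_lemma (φ : ZMod p →*₀ ZMod p) (A B : ZMod p)
    (hN : 0 < (sols φ φ A B).card) :
    ∃ A' ⊆ nz p, ∃ B' ⊆ nz p, (sols φ φ A B).card ≤ 2 * A'.card ∧
      (sols φ φ A B).card ≤ 2 * B'.card ∧
      ((A'.image fun u => (u, A * φ u)) + (B'.image fun v => (v, B * φ v))).card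
        * (sols φ φ A B).card ^ 5 ≤ 32 * (p - 1) ^ 6 := by
  classical
  set N := (sols φ φ A B).card with hNdef
  have hp := two_le_p (p := p)
  obtain ⟨A', hA', B', hB', h1, h2, h3⟩ := graph_lemma (nz p) (nz p) (fun u v => Ed φ A B u v)
    (p - 1) N (by omega) hN card_nz card_nz (fun u hu => card_edges_left φ A B hu)
    (fun v hv => card_edges_right φ A B hv)
  refine ⟨A', hA', B', hB', h1, h2, ?_⟩
  set S := ((A'.image fun u => (u, A * φ u)) + (B'.image fun v => (v, B * φ v))) with hS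
  set W := (nz p) ×ˢ ((nz p) ×ˢ (nz p)) with hW
  set f : ZMod p × ZMod p × ZMod p → ZMod p × ZMod p :=
    fun g => tw φ g.1 - tw φ g.2.1 + tw φ g.2.2 with hf
  have hWc : W.card = (p - 1) ^ 3 := by
    rw [hW, card_product, card_product, card_nz]; ring
  have key : ∀ z ∈ S, N ^ 5 ≤ 32 * (p - 1) ^ 3 * (W.filter fun g => f g = z).card := by
    intro z hz
    rw [hS, mem_add] at hz
    obtain ⟨x, hx, y, hy, rfl⟩ := hz
    rw [mem_image] at hx hy
    obtain ⟨u, hu, rfl⟩ := hx
    obtain ⟨v, hv, rfl⟩ := hy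
    refine (h3 u hu v hv).trans (Nat.mul_le_mul_left _ ?_)
    refine card_le_card_of_injOn (fun q => (u + q.2, q.1 + q.2, q.1 + v)) ?_ ?_
    · intro q hq
      rw [mem_coe, mem_filter, mem_product] at hq
      obtain ⟨⟨hq1, hq2⟩, ⟨e1, e1'⟩, ⟨e2, e2'⟩, ⟨e3, e3'⟩⟩ := hq
      rw [mem_coe, mem_filter, hW, mem_product, mem_product, mem_nz, mem_nz, mem_nz]
      refine ⟨⟨e1, e2, e3⟩, ?_⟩
      simp only [hf, tw]
      ext
      · simp; ring
      · simp only [Prod.snd_add, Prod.snd_sub]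
        rw [← e1', ← e2', ← e3']; ring
    · rintro ⟨a, b⟩ _ ⟨a', b'⟩ _ h
      simp only [Prod.mk.injEq] at h
      obtain ⟨ha, _, hc⟩ := h
      ext
      · exact add_right_cancel hc
      · exact add_left_cancel ha
  calc S.card * N ^ 5 = ∑ z ∈ S, N ^ 5 := by rw [sum_const, smul_eq_mul]
    _ ≤ ∑ z ∈ S, 32 * (p - 1) ^ 3 * (W.filter fun g => f g = z).card := sum_le_sum key
    _ = 32 * (p - 1) ^ 3 * ∑ z ∈ S, (W.filter fun g => f g = z).card := by rw [mul_sum]
    _ ≤ 32 * (p - 1) ^ 3 * W.card := by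
        apply Nat.mul_le_mul_left
        rw [sum_card_fiberwise_eq_card_filter]
        exact card_filter_le _ _
    _ = 32 * (p - 1) ^ 6 := by rw [hWc]; ring

theorem sum_transl {P Q : Finset (ZMod p)} (hP : P ⊆ nz p) (hQ : Q ⊆ nz p) :
    ∑ h ∈ nz p, (P.filter fun u => h * u ∈ Q).card = P.card * Q.card := by
  simp only [card_filter]
  rw [sum_comm]
  have : ∀ u ∈ P, ∑ h ∈ nz p, (if h * u ∈ Q then 1 else 0) = Q.card := by
    intro u hu
    have hu0 : u ≠ 0 := mem_nz.1 (hP hu)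
    rw [← card_filter]
    refine card_bij' (fun h _ => h * u) (fun q _ => q / u) ?_ ?_ ?_ ?_
    · intro h hh; exact (mem_filter.1 hh).2
    · intro q hq
      rw [mem_filter, mem_nz]
      have : q / u * u = q := div_mul_cancel₀ q hu0
      exact ⟨div_ne_zero (mem_nz.1 (hQ hq)) hu0, by rw [this]; exact hq⟩
    · intro h _; exact mul_div_cancel_right₀ h hu0
    · intro q _; exact div_mul_cancel₀ q hu0
  rw [sum_congr rfl this, sum_const, smul_eq_mul]

/-- Many dilates of a large set meet it in a large set. -/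
theorem popular_dilates {P : Finset (ZMod p)} (hP : P ⊆ nz p) :
    P.card ≤ 2 * ((nz p).filter fun g =>
      P.card ^ 2 ≤ 2 * (p - 1) * (P.filter fun u => g * u ∈ P).card).card := by
  have hp := two_le_p (p := p)
  rcases P.eq_empty_or_nonempty with rfl | hne
  · simp
  set Γ := (nz p).filter fun g =>
      P.card ^ 2 ≤ 2 * (p - 1) * (P.filter fun u => g * u ∈ P).card with hΓ
  set C := (nz p).filter fun g =>
      ¬ P.card ^ 2 ≤ 2 * (p - 1) * (P.filter fun u => g * u ∈ P).card with hC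
  have h1 := sum_transl hP hP
  rw [← sum_filter_add_sum_filter_not (nz p) (fun g =>
      P.card ^ 2 ≤ 2 * (p - 1) * (P.filter fun u => g * u ∈ P).card), ← hΓ, ← hC] at h1
  have h2 : ∑ g ∈ Γ, (P.filter fun u => g * u ∈ P).card ≤ Γ.card * P.card := by
    rw [← smul_eq_mul]
    exact sum_le_card_nsmul _ _ _ fun g _ => card_filter_le _ _
  have h3 : 2 * ∑ g ∈ C, (P.filter fun u => g * u ∈ P).card ≤ P.card ^ 2 := by
    have h4 : (p - 1) * (2 * ∑ g ∈ C, (P.filter fun u => g * u ∈ P).card)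
        ≤ (p - 1) * P.card ^ 2 := by
      calc (p - 1) * (2 * ∑ g ∈ C, (P.filter fun u => g * u ∈ P).card)
          = ∑ g ∈ C, 2 * (p - 1) * (P.filter fun u => g * u ∈ P).card := by
            rw [← mul_sum]; ring
        _ ≤ ∑ g ∈ C, P.card ^ 2 := sum_le_sum fun v hv => le_of_lt (not_le.1 (mem_filter.1 hv).2)
        _ ≤ ∑ g ∈ nz p, P.card ^ 2 := sum_le_sum_of_subset (filter_subset _ _)
        _ = (p - 1) * P.card ^ 2 := by rw [sum_const, card_nz, smul_eq_mul]
    exact Nat.le_of_mul_le_mul_left h4 (by omega)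
  have hpos : 0 < P.card := card_pos.2 hne
  have h5 : P.card * P.card ≤ P.card * (2 * Γ.card) := by nlinarith
  exact Nat.le_of_mul_le_mul_left h5 hpos

theorem exists_translate {P Q : Finset (ZMod p)} (hP : P ⊆ nz p) (hQ : Q ⊆ nz p) :
    ∃ h ∈ nz p, P.card * Q.card ≤ (p - 1) * (P.filter fun u => h * u ∈ Q).card := by
  have hp := two_le_p (p := p)
  have hne : (nz p).Nonempty := by
    rw [← card_pos, card_nz]; omega
  apply exists_le_of_sum_le hne
  rw [sum_const, card_nz, smul_eq_mul, ← mul_sum, sum_transl hP hQ]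

end Pool.Agent.Helper459_costas
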