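import Mathlib
import Pool.Agent.Helper459_costas.Sumset

open Finset Pointwise

namespace Pool.Agent.Helper459_costas

variable {p : ℕ} [Fact p.Prime]

/-- The set of quotients of differences. -/
def Qset (φ : ZMod p →*₀ ZMod p) (Γ : Finset (ZMod p)) : Set (ZMod p × ZMod p) :=
  {ξ | ∃ g1 ∈ Γ, ∃ g2 ∈ Γ, ∃ g3 ∈ Γ, ∃ g4 ∈ Γ, g3 ≠ g4 ∧
    ξ * (tw φ g3 - tw φ g4) = tw φ g1 - tw φ g2}

theorem sub_ne (φ : ZMod p →*₀ ZMod p) (hφ : Function.Injective φ) {a b : ZMod p} (h : a ≠ b) :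
    (tw φ a - tw φ b).1 ≠ 0 ∧ (tw φ a - tw φ b).2 ≠ 0 := by
  constructor
  · simpa [tw] using sub_ne_zero.2 h
  · simpa [tw] using sub_ne_zero.2 (fun h' => h (hφ h'))

theorem pivot_bound (φ : ZMod p →*₀ ZMod p) (hφ : Function.Injective φ)
    (Γ Γ' : Finset (ZMod p)) (hΓ' : Γ' ⊆ Γ) (X : Finset (ZMod p × ZMod p)) (hX : X.Nonempty)
    (K : ℝ) (hplus : ∀ g ∈ Γ, ((X + dil (tw φ g) X).card : ℝ) ≤ K)
    (hminus : ∀ g ∈ Γ, ((X - dil (tw φ g) X).card : ℝ) ≤ K)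
    (w : ZMod p × ZMod p) (hw1 : w.1 ≠ 0) (hw2 : w.2 ≠ 0)
    (hsub : ∀ g ∈ Γ', tw φ g ∈ dil w X)
    (ξ : ZMod p × ZMod p) (hξ : ξ ∈ Qset φ Γ) (hξ1 : ξ + 1 ∉ Qset φ Γ) :
    ((Γ'.card : ℝ)) ^ 2 ≤ (4 * K / X.card) ^ 6 * X.card := by
  classical
  obtain ⟨g1, hg1, g2, hg2, g3, hg3, g4, hg4, hne, hq⟩ := hξ
  set B : Finset (ZMod p × ZMod p) :=
    (dil (tw φ g1) X ∪ -dil (tw φ g2) X) ∪ (dil (tw φ g3) X ∪ -dil (tw φ g4) X) with hB
  -- |X + B| ≤ 4K
  have hXB : ((X + B).card : ℝ) ≤ 4 * K := by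
    rw [hB, add_union, add_union, add_union]
    have e1 := hplus g1 hg1
    have e2 := hminus g2 hg2
    have e3 := hplus g3 hg3
    have e4 := hminus g4 hg4
    rw [sub_eq_add_neg] at e2 e4
    have c1 : ((((X + dil (tw φ g1) X) ∪ (X + -dil (tw φ g2) X)) ∪
      ((X + dil (tw φ g3) X) ∪ (X + -dil (tw φ g4) X))).card : ℝ) ≤
      (((X + dil (tw φ g1) X).card + (X + -dil (tw φ g2) X).card) +
        ((X + dil (tw φ g3) X).card + (X + -dil (tw φ g4) X).card) : ℕ) := by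
      exact_mod_cast (card_union_le _ _).trans
        (add_le_add (card_union_le _ _) (card_union_le _ _))
    push_cast at c1
    linarith
  -- the pivot map
  set c := tw φ g3 - tw φ g4 with hc
  obtain ⟨hc1, hc2⟩ := sub_ne φ hφ hne
  set c' := c + (tw φ g1 - tw φ g2) with hc'
  have hc'' : c' = c * (ξ + 1) := by
    rw [hc', ← hq]; ring
  set m : ZMod p × ZMod p → ZMod p × ZMod p := fun z =>
    c * tw φ z.1 + c' * tw φ z.2 with hm
  have hmaps : ∀ z ∈ Γ' ×ˢ Γ', m z ∈ dil w (6 • B) := by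
    intro z hz
    rw [mem_product] at hz
    obtain ⟨x, hx, hx'⟩ := mem_dil.1 (hsub z.1 hz.1)
    obtain ⟨y, hy, hy'⟩ := mem_dil.1 (hsub z.2 hz.2)
    rw [mem_dil]
    refine ⟨(c * x + c' * y), ?_, ?_⟩
    · have h6 : (6 : ℕ) • B = B + B + B + B + B + B := by
        simp only [succ_nsmul, zero_nsmul, zero_add]
      have hd : c * x + c' * y = tw φ g3 * x + (-(tw φ g4 * x)) + tw φ g3 * y +
          (-(tw φ g4 * y)) + tw φ g1 * y + (-(tw φ g2 * y)) := by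
        rw [hc', hc]; ring
      have m1 : ∀ y ∈ X, tw φ g1 * y ∈ B := fun y hy =>
        mem_union_left _ (mem_union_left _ (mem_dil.2 ⟨y, hy, rfl⟩))
      have m2 : ∀ y ∈ X, -(tw φ g2 * y) ∈ B := fun y hy =>
        mem_union_left _ (mem_union_right _ (neg_mem_neg (mem_dil.2 ⟨y, hy, rfl⟩)))
      have m3 : ∀ y ∈ X, tw φ g3 * y ∈ B := fun y hy =>
        mem_union_right _ (mem_union_left _ (mem_dil.2 ⟨y, hy, rfl⟩))
      have m4 : ∀ y ∈ X, -(tw φ g4 * y) ∈ B := fun y hy =>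
        mem_union_right _ (mem_union_right _ (neg_mem_neg (mem_dil.2 ⟨y, hy, rfl⟩)))
      rw [h6, hd]
      exact add_mem_add (add_mem_add (add_mem_add (add_mem_add (add_mem_add (m3 x hx) (m4 x hx))
        (m3 y hy)) (m4 y hy)) (m1 y hy)) (m2 y hy)
    · rw [hm]
      simp only
      rw [← hx', ← hy']
      ring
  have hinj : Set.InjOn m (Γ' ×ˢ Γ' : Finset (ZMod p × ZMod p)) := by
    rintro ⟨a, b⟩ hab ⟨a', b'⟩ hab' h
    rw [mem_coe, mem_product] at hab hab'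
    simp only [hm] at h
    have h1 : c * (tw φ a + (ξ + 1) * tw φ b) = c * (tw φ a' + (ξ + 1) * tw φ b') := by
      rw [hc''] at h
      linear_combination h
    have h2 : tw φ a + (ξ + 1) * tw φ b = tw φ a' + (ξ + 1) * tw φ b' :=
      mul_inj_of hc1 hc2 h1
    by_cases hbb : b = b'
    · subst hbb
      have h3 : tw φ a = tw φ a' := by linear_combination h2
      rw [tw_inj φ h3]
    · exfalso
      apply hξ1
      refine ⟨a', hΓ' hab'.1, a, hΓ' hab.1, b, hΓ' hab.2, b', hΓ' hab'.2, hbb, ?_⟩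
      linear_combination h2
  have hcard : Γ'.card * Γ'.card ≤ (6 • B).card := by
    rw [← card_product, ← card_dil hw1 hw2 (6 • B)]
    exact card_le_card_of_injOn m hmaps hinj
  have hpl := pluennecke_ruzsa_inequality_nsmul_add hX B 6
  have hpl' : ((6 • B).card : ℝ) ≤ ((X + B).card / X.card : ℝ) ^ 6 * X.card := by
    have : (((6 • B).card : ℚ≥0) : ℝ) ≤ ((((X + B).card / X.card : ℚ≥0) ^ 6 * X.card : ℚ≥0) : ℝ) := by
      exact_mod_cast hpl
    push_cast at this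
    exact this
  have hXpos : (0 : ℝ) < X.card := by exact_mod_cast card_pos.2 hX
  calc ((Γ'.card : ℝ)) ^ 2 = ((Γ'.card * Γ'.card : ℕ) : ℝ) := by push_cast; ring
    _ ≤ ((6 • B).card : ℝ) := by exact_mod_cast hcard
    _ ≤ ((X + B).card / X.card : ℝ) ^ 6 * X.card := hpl'
    _ ≤ (4 * K / X.card) ^ 6 * X.card := by gcongr

/-- If the set of quotients is stable under adding one, the popular set lies on a line. -/
theorem line_of_closed (φ : ZMod p →*₀ ZMod p) (hφ : Function.Injective φ)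
    (Γ : Finset (ZMod p)) (hcl : ∀ ξ ∈ Qset φ Γ, ξ + 1 ∈ Qset φ Γ) :
    ∃ c d : ZMod p, ∀ g ∈ Γ, φ g = c * g + d := by
  classical
  have hnat : ∀ (m : ℕ), ∀ ξ ∈ Qset φ Γ, ξ + (m : ZMod p × ZMod p) ∈ Qset φ Γ := by
    intro m
    induction m with
    | zero => intro ξ hξ; simpa using hξ
    | succ k ih =>
      intro ξ hξ
      have := hcl _ (ih ξ hξ)
      rw [add_assoc] at this
      push_cast
      exact this
  have hdiag : ∀ ξ ∈ Qset φ Γ, ξ.1 = ξ.2 := by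
    intro ξ hξ
    have h1 := hnat (-ξ.1).val ξ hξ
    obtain ⟨g1, hg1, g2, hg2, g3, hg3, g4, hg4, hne, hq⟩ := h1
    have hv : (((-ξ.1).val : ℕ) : ZMod p) = -ξ.1 := ZMod.natCast_zmod_val _
    have h2 := Prod.ext_iff.1 hq
    simp only [Prod.fst_mul, Prod.fst_add, Prod.fst_natCast, Prod.snd_mul, Prod.snd_add,
      Prod.snd_natCast, hv] at h2
    obtain ⟨h3, h4⟩ := h2
    obtain ⟨hc1, hc2⟩ := sub_ne φ hφ hne
    have h5 : g1 = g2 := by
      have : (tw φ g1 - tw φ g2).1 = 0 := by rw [← h3]; ring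
      simpa [tw, sub_eq_zero] using this
    have h6 : (tw φ g1 - tw φ g2).2 = 0 := by rw [h5]; simp
    rw [h6] at h4
    rcases mul_eq_zero.1 h4 with h7 | h7
    · linear_combination -h7
    · exact absurd h7 hc2
  by_cases hcase : ∃ g3 ∈ Γ, ∃ g4 ∈ Γ, g3 ≠ g4
  · obtain ⟨g3, hg3, g4, hg4, hne⟩ := hcase
    obtain ⟨hc1, hc2⟩ := sub_ne φ hφ hne
    have e1 : g3 - g4 ≠ 0 := sub_ne_zero.2 hne
    have e2 : φ g3 - φ g4 ≠ 0 := sub_ne_zero.2 (fun h' => hne (hφ h'))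
    have hall : ∀ g1 ∈ Γ, ∀ g2 ∈ Γ,
        (g1 - g2) / (g3 - g4) = (φ g1 - φ g2) / (φ g3 - φ g4) := by
      intro g1 hg1 g2 hg2
      have : ((g1 - g2) / (g3 - g4), (φ g1 - φ g2) / (φ g3 - φ g4)) ∈ Qset φ Γ := by
        refine ⟨g1, hg1, g2, hg2, g3, hg3, g4, hg4, hne, ?_⟩
        ext
        · simp [tw, div_mul_cancel₀ _ e1]
        · simp [tw, div_mul_cancel₀ _ e2]
      exact hdiag _ this
    refine ⟨(φ g3 - φ g4) / (g3 - g4), φ g3 - (φ g3 - φ g4) / (g3 - g4) * g3, ?_⟩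
    intro g hg
    have := hall g hg g3 hg3
    field_simp at this ⊢
    linear_combination -this
  · push Not at hcase
    rcases Γ.eq_empty_or_nonempty with rfl | ⟨g0, hg0⟩
    · exact ⟨0, 0, by simp⟩
    · refine ⟨0, φ g0, fun g hg => ?_⟩
      rw [hcase g hg g0 hg0]; ring

end Pool.Agent.Helper459_costas
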