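import Mathlib
import Pool.Agent.Helper459_costas.Pivot

open Finset Pointwise

namespace Pool.Agent.Helper459_costas

variable {p : ℕ} [Fact p.Prime]

/-- The fixed points of a power map. -/
def fixs (φ : ZMod p →*₀ ZMod p) : Finset (ZMod p) := (nz p).filter fun x => φ x = x

theorem mem_fixs {φ : ZMod p →*₀ ZMod p} {x : ZMod p} : x ∈ fixs φ ↔ x ≠ 0 ∧ φ x = x := by
  simp [fixs]

theorem affine_bound (φ : ZMod p →*₀ ZMod p) (hφ : Function.Injective φ)
    (Γ : Finset (ZMod p)) (hΓ : Γ ⊆ nz p) (c d : ZMod p) (hd : d ≠ 0)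
    (h : ∀ g ∈ Γ, φ g = c * g + d) : Γ.card * Γ.card ≤ Γ.card + (p - 1) := by
  classical
  have h1 : Γ.offDiag.card ≤ (nz p).card := by
    refine card_le_card_of_injOn (fun q => q.1 / q.2) ?_ ?_
    · intro q hq
      rw [mem_coe, mem_offDiag] at hq
      rw [mem_coe, mem_nz]
      exact div_ne_zero (mem_nz.1 (hΓ hq.1)) (mem_nz.1 (hΓ hq.2.1))
    · have key : ∀ q ∈ Γ.offDiag, ∀ z, z = q.1 / q.2 →
          q.2 * (c * (z - φ z)) = d * (φ z - 1) ∧ φ z - 1 ≠ 0 := by
        intro q hq z hz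
        rw [mem_offDiag] at hq
        obtain ⟨ha, hb, hab⟩ := hq
        have hb0 : q.2 ≠ 0 := mem_nz.1 (hΓ hb)
        have hz1 : q.1 = z * q.2 := by rw [hz]; field_simp
        have e1 := h _ ha
        have e2 := h _ hb
        rw [hz1, map_mul, e2] at e1
        refine ⟨by linear_combination -e1, ?_⟩
        intro h0
        have : φ z = φ 1 := by rw [map_one]; linear_combination h0
        have hz2 := hφ this
        apply hab
        rw [hz1, hz2, one_mul]
      rintro ⟨a, b⟩ hab ⟨a', b'⟩ hab' hEq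
      simp only at hEq
      obtain ⟨k1, k2⟩ := key _ hab (a / b) rfl
      obtain ⟨k3, _⟩ := key _ hab' (a / b) hEq
      simp only at k1 k3
      have hne : c * (a / b - φ (a / b)) ≠ 0 := by
        intro h0
        rw [h0, mul_zero] at k1
        exact mul_ne_zero hd k2 k1.symm
      have hbb : b = b' := mul_right_cancel₀ hne (k1.trans k3.symm)
      have hb0 : b ≠ 0 := mem_nz.1 (hΓ (mem_offDiag.1 hab).2.1)
      subst hbb
      have : a = a' := by field_simp at hEq; exact hEq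
      rw [this]
  rw [offDiag_card, card_nz] at h1
  omega

theorem linear_bound (φ : ZMod p →*₀ ZMod p)
    (Γ : Finset (ZMod p)) (hΓ : Γ ⊆ nz p) (c : ZMod p)
    (h : ∀ g ∈ Γ, φ g = c * g) : Γ.card ≤ (fixs φ).card := by
  classical
  rcases Γ.eq_empty_or_nonempty with rfl | ⟨g0, hg0⟩
  · simp
  have h0 : g0 ≠ 0 := mem_nz.1 (hΓ hg0)
  refine card_le_card_of_injOn (fun g => g / g0) ?_ ?_
  · intro g hg
    rw [mem_coe] at hg
    rw [mem_coe, mem_fixs]
    refine ⟨div_ne_zero (mem_nz.1 (hΓ hg)) h0, ?_⟩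
    have hc : c ≠ 0 := by
      intro hc
      have := h g0 hg0
      rw [hc, zero_mul] at this
      exact h0 ((map_eq_zero φ).1 this)
    rw [map_div₀, h g hg, h g0 hg0]
    field_simp
  · intro a _ b _ hab
    simp only at hab
    field_simp at hab
    exact hab

theorem structure_thm (φ : ZMod p →*₀ ZMod p) (hφ : Function.Injective φ) (A B : ZMod p)
    (hA : A ≠ 0) (T : ℝ) (hT : 1 ≤ T)
    (hTN : ((p - 1 : ℕ) : ℝ) ≤ T * (sols φ φ A B).card)
    (hbig : 2 ^ 102 * T ^ 82 < ((p - 1 : ℕ) : ℝ)) :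
    ((p - 1 : ℕ) : ℝ) ≤ 4 * T * (fixs φ).card := by
  classical
  have hp := two_le_p (p := p)
  set n : ℝ := ((p - 1 : ℕ) : ℝ) with hn
  set Nn := (sols φ φ A B).card with hNn
  set N : ℝ := (Nn : ℝ) with hNr
  have hn1 : (1 : ℝ) ≤ n := by
    rw [hn]; exact_mod_cast (by omega : 1 ≤ p - 1)
  have hnpos : 0 < n := by linarith
  have hTpos : 0 < T := by linarith
  have hNpos : 0 < N := by
    by_contra h0
    have : N ≤ 0 := not_lt.1 h0
    nlinarith
  have hNnpos : 0 < Nn := by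
    rw [hNr] at hNpos
    exact Nat.cast_pos.1 hNpos
  have hTN' : n ≤ T * N := hTN
  obtain ⟨A', hA', B', hB', a1, b1, hsum⟩ := sumset_lemma φ A B hNnpos
  rw [← hNn] at a1 b1 hsum
  set X := A'.image fun u => (u, A * φ u) with hX
  set Y := B'.image fun v => (v, B * φ v) with hY
  set M : ℝ := ((X + Y).card : ℝ) with hM
  have hMnn : 0 ≤ M := by positivity
  have hsumR : M * N ^ 5 ≤ 32 * n ^ 6 := by
    have : (((X + Y).card * Nn ^ 5 : ℕ) : ℝ) ≤ ((32 * (p - 1) ^ 6 : ℕ) : ℝ) := by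
      exact_mod_cast hsum
    rw [Nat.cast_mul, Nat.cast_mul, Nat.cast_pow, Nat.cast_pow] at this
    simpa using this
  have hM5 : M ≤ 32 * n * T ^ 5 := by
    have h1 : n ^ 5 ≤ (T * N) ^ 5 := by gcongr
    have h2 : M * N ^ 5 ≤ (32 * n * T ^ 5) * N ^ 5 := by
      calc M * N ^ 5 ≤ 32 * n ^ 6 := hsumR
        _ = 32 * n * n ^ 5 := by ring
        _ ≤ 32 * n * (T * N) ^ 5 := by gcongr
        _ = (32 * n * T ^ 5) * N ^ 5 := by ring
    exact le_of_mul_le_mul_right h2 (by positivity)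
  have hXc : X.card = A'.card := by
    rw [hX]
    apply card_image_of_injective
    intro u v huv
    exact (Prod.ext_iff.1 huv).1
  have a1R : N ≤ 2 * (A'.card : ℝ) := by rw [hNr]; exact_mod_cast a1
  have b1R : N ≤ 2 * (B'.card : ℝ) := by rw [hNr]; exact_mod_cast b1
  have hXne : X.Nonempty := by
    rw [← card_pos, hXc]; omega
  -- popular dilates
  set Γ := (nz p).filter fun g =>
    B'.card ^ 2 ≤ 2 * (p - 1) * (B'.filter fun u => g * u ∈ B').card with hΓ
  have hΓc : B'.card ≤ 2 * Γ.card := popular_dilates hB'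
  have hΓR : (B'.card : ℝ) ≤ 2 * (Γ.card : ℝ) := by exact_mod_cast hΓc
  have hΓnz : Γ ⊆ nz p := filter_subset _ _
  set K : ℝ := 2 ^ 13 * T ^ 12 * n with hK
  -- common part
  have hcommon : ∀ g ∈ Γ, ∃ Z : Finset (ZMod p × ZMod p), Z ⊆ Y ∧ Z ⊆ dil (tw φ g) Y ∧
      (B'.card : ℝ) ^ 2 ≤ 2 * n * Z.card := by
    intro g hg
    have hg0 : g ≠ 0 := mem_nz.1 (hΓnz hg)
    have hg2 := (mem_filter.1 hg).2
    refine ⟨(B'.filter fun u => g * u ∈ B').image fun b => (g * b, B * φ (g * b)), ?_, ?_, ?_⟩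
    · intro z hz
      obtain ⟨b, hb, rfl⟩ := mem_image.1 hz
      exact mem_image.2 ⟨g * b, (mem_filter.1 hb).2, rfl⟩
    · intro z hz
      obtain ⟨b, hb, rfl⟩ := mem_image.1 hz
      refine mem_dil.2 ⟨(b, B * φ b), mem_image.2 ⟨b, (mem_filter.1 hb).1, rfl⟩, ?_⟩
      ext
      · simp [tw]
      · simp [tw]; ring
    · rw [card_image_of_injective]
      · have : ((B'.card ^ 2 : ℕ) : ℝ) ≤
            ((2 * (p - 1) * (B'.filter fun u => g * u ∈ B').card : ℕ) : ℝ) := by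
          exact_mod_cast hg2
        rw [Nat.cast_mul, Nat.cast_mul, Nat.cast_pow] at this
        simpa using this
      · intro b b' hbb
        exact mul_left_cancel₀ hg0 (Prod.ext_iff.1 hbb).1
  have hfin : ∀ (W z : ℝ), 0 ≤ W → W * z ≤ M * M → (B'.card : ℝ) ^ 2 ≤ 2 * n * z → W ≤ K := by
    intro W z hW h1 h2
    have h3 : W * N ^ 2 ≤ 8 * n * M ^ 2 := by
      have h4 : N ^ 2 ≤ 4 * (B'.card : ℝ) ^ 2 := by nlinarith
      calc W * N ^ 2 ≤ W * (4 * (B'.card : ℝ) ^ 2) := by gcongr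
        _ ≤ W * (4 * (2 * n * z)) := by gcongr
        _ = 8 * n * (W * z) := by ring
        _ ≤ 8 * n * (M * M) := by gcongr
        _ = 8 * n * M ^ 2 := by ring
    have h5 : W * N ^ 2 ≤ K * N ^ 2 := by
      calc W * N ^ 2 ≤ 8 * n * M ^ 2 := h3
        _ ≤ 8 * n * (32 * n * T ^ 5) ^ 2 := by gcongr
        _ = 2 ^ 13 * T ^ 10 * n * n ^ 2 := by ring
        _ ≤ 2 ^ 13 * T ^ 10 * n * (T * N) ^ 2 := by gcongr
        _ = K * N ^ 2 := by rw [hK]; ring
    exact le_of_mul_le_mul_right h5 (by positivity)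
  have hcardXY : ∀ Z : Finset (ZMod p × ZMod p), Z ⊆ Y → (X + Z).card ≤ (X + Y).card :=
    fun Z hZ => card_le_card (add_subset_add_left hZ)
  have hcardgXY : ∀ g ∈ Γ, ∀ Z : Finset (ZMod p × ZMod p), Z ⊆ dil (tw φ g) Y →
      (dil (tw φ g) X + Z).card ≤ (X + Y).card := by
    intro g hg Z hZ
    have hg0 : g ≠ 0 := mem_nz.1 (hΓnz hg)
    rw [← card_dil (c := tw φ g) hg0 (map_ne hg0) (X + Y), dil_add]
    exact card_le_card (add_subset_add_left hZ)
  have hminus : ∀ g ∈ Γ, ((X - dil (tw φ g) X).card : ℝ) ≤ K := by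
    intro g hg
    obtain ⟨Z, hZ1, hZ2, hZ3⟩ := hcommon g hg
    have hr := ruzsa_triangle_inequality_sub_add_add X Z (dil (tw φ g) X)
    refine hfin _ Z.card (by positivity) ?_ hZ3
    have : (X - dil (tw φ g) X).card * Z.card ≤ (X + Y).card * (X + Y).card :=
      hr.trans (Nat.mul_le_mul (hcardXY Z hZ1) (hcardgXY g hg Z hZ2))
    rw [hM]
    exact_mod_cast this
  have hplus : ∀ g ∈ Γ, ((X + dil (tw φ g) X).card : ℝ) ≤ K := by
    intro g hg
    obtain ⟨Z, hZ1, hZ2, hZ3⟩ := hcommon g hg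
    have hr := ruzsa_triangle_inequality_add_add_add X Z (dil (tw φ g) X)
    rw [add_comm Z] at hr
    refine hfin _ Z.card (by positivity) ?_ hZ3
    have : (X + dil (tw φ g) X).card * Z.card ≤ (X + Y).card * (X + Y).card :=
      hr.trans (Nat.mul_le_mul (hcardXY Z hZ1) (hcardgXY g hg Z hZ2))
    rw [hM]
    exact_mod_cast this
  -- size of Γ
  have hΓbig : n ≤ 4 * T * Γ.card := by
    calc n ≤ T * N := hTN'
      _ ≤ T * (2 * B'.card) := by gcongr
      _ ≤ T * (2 * (2 * Γ.card)) := by gcongr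
      _ = 4 * T * Γ.card := by ring
  by_cases hcl : ∀ ξ ∈ Qset φ Γ, ξ + 1 ∈ Qset φ Γ
  · obtain ⟨c, d, hcd⟩ := line_of_closed φ hφ Γ hcl
    by_cases hd : d = 0
    · have := linear_bound φ Γ hΓnz c (fun g hg => by rw [hcd g hg, hd, add_zero])
      calc n ≤ 4 * T * Γ.card := hΓbig
        _ ≤ 4 * T * (fixs φ).card := by
          gcongr
    · exfalso
      have h1 := affine_bound φ hφ Γ hΓnz c d hd hcd
      have h2 : (Γ.card : ℝ) * Γ.card ≤ Γ.card + n := by
        rw [hn]; exact_mod_cast h1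
      have h3 : (Γ.card : ℝ) ≤ n := by
        have := card_le_card hΓnz
        rw [card_nz] at this
        rw [hn]; exact_mod_cast this
      have h4 : n * n ≤ (4 * T * Γ.card) * (4 * T * Γ.card) := by
        apply mul_self_le_mul_self hnpos.le hΓbig
      have h5 : n * n ≤ 32 * T ^ 2 * n := by
        calc n * n ≤ (4 * T * Γ.card) * (4 * T * Γ.card) := h4
          _ = 16 * T ^ 2 * (Γ.card * Γ.card) := by ring
          _ ≤ 16 * T ^ 2 * (Γ.card + n) := by gcongr
          _ ≤ 16 * T ^ 2 * (n + n) := by gcongr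
          _ = 32 * T ^ 2 * n := by ring
      have h6 : n ≤ 32 * T ^ 2 := le_of_mul_le_mul_right h5 hnpos
      have h7 : T ^ 2 ≤ T ^ 82 := pow_le_pow_right₀ hT (by norm_num)
      have h8 : (32 : ℝ) * T ^ 2 ≤ 2 ^ 102 * T ^ 82 := by
        have : (32 : ℝ) ≤ 2 ^ 102 := by norm_num
        calc (32 : ℝ) * T ^ 2 ≤ 2 ^ 102 * T ^ 2 := by gcongr
          _ ≤ 2 ^ 102 * T ^ 82 := by gcongr
      linarith
  · exfalso
    push Not at hcl
    obtain ⟨ξ, hξ, hξ1⟩ := hcl
    obtain ⟨h, hh, hhc⟩ := exists_translate hA' hΓnz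
    have hh0 : h ≠ 0 := mem_nz.1 hh
    set P := A'.filter fun u => h * u ∈ Γ with hP
    set Γ' := P.image fun u => h * u with hΓ'
    have hΓ'c : Γ'.card = P.card :=
      card_image_of_injective _ (fun a b hab => mul_left_cancel₀ hh0 hab)
    have hΓ'sub : Γ' ⊆ Γ := by
      intro g hg
      obtain ⟨u, hu, rfl⟩ := mem_image.1 hg
      exact (mem_filter.1 hu).2
    have hb := pivot_bound φ hφ Γ Γ' hΓ'sub X hXne K hplus hminus (h, φ h / A) hh0
      (div_ne_zero (map_ne hh0) hA) (by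
        intro g hg
        obtain ⟨u, hu, rfl⟩ := mem_image.1 hg
        refine mem_dil.2 ⟨(u, A * φ u), mem_image.2 ⟨u, (mem_filter.1 hu).1, rfl⟩, ?_⟩
        ext
        · simp [tw]
        · simp only [tw, Prod.snd_mul, map_mul]
          field_simp) ξ hξ hξ1
    -- numerical contradiction
    have hXR : n ≤ 2 * T * X.card := by
      rw [hXc]
      calc n ≤ T * N := hTN'
        _ ≤ T * (2 * A'.card) := by gcongr
        _ = 2 * T * A'.card := by ring
    have hXle : (X.card : ℝ) ≤ n := by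
      have h3 := card_le_card hA'
      rw [card_nz] at h3
      rw [hXc, hn]; exact_mod_cast h3
    have hXpos : (0 : ℝ) < X.card := by exact_mod_cast card_pos.2 hXne
    have hPR : (A'.card : ℝ) * Γ.card ≤ n * P.card := by
      rw [hn]; exact_mod_cast hhc
    have hΓ'R : n ≤ 8 * T ^ 2 * Γ'.card := by
      rw [hΓ'c]
      have h1 : n * n ≤ (2 * T * A'.card) * (4 * T * Γ.card) := by
        rw [hXc] at hXR
        exact mul_le_mul hXR hΓbig hnpos.le (by positivity)
      have h2 : n * n ≤ (8 * T ^ 2 * P.card) * n := by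
        calc n * n ≤ (2 * T * A'.card) * (4 * T * Γ.card) := h1
          _ = 8 * T ^ 2 * (A'.card * Γ.card) := by ring
          _ ≤ 8 * T ^ 2 * (n * P.card) := by gcongr
          _ = (8 * T ^ 2 * P.card) * n := by ring
      exact le_of_mul_le_mul_right h2 hnpos
    have hq : 4 * K / X.card ≤ 2 ^ 16 * T ^ 13 := by
      rw [div_le_iff₀ hXpos, hK]
      calc 4 * (2 ^ 13 * T ^ 12 * n) = 2 ^ 15 * T ^ 12 * n := by ring
        _ ≤ 2 ^ 15 * T ^ 12 * (2 * T * X.card) := by gcongr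
        _ = 2 ^ 16 * T ^ 13 * X.card := by ring
    have hKnn : 0 ≤ 4 * K / X.card := by positivity
    have hb2 : (Γ'.card : ℝ) ^ 2 ≤ 2 ^ 96 * T ^ 78 * n := by
      calc (Γ'.card : ℝ) ^ 2 ≤ (4 * K / X.card) ^ 6 * X.card := hb
        _ ≤ (2 ^ 16 * T ^ 13) ^ 6 * n := by gcongr
        _ = 2 ^ 96 * T ^ 78 * n := by ring
    have h9 : n * n ≤ 2 ^ 102 * T ^ 82 * n := by
      calc n * n ≤ (8 * T ^ 2 * Γ'.card) * (8 * T ^ 2 * Γ'.card) :=
            mul_self_le_mul_self hnpos.le hΓ'R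
        _ = 64 * T ^ 4 * (Γ'.card : ℝ) ^ 2 := by ring
        _ ≤ 64 * T ^ 4 * (2 ^ 96 * T ^ 78 * n) := by gcongr
        _ = 2 ^ 102 * T ^ 82 * n := by ring
    have h10 : n ≤ 2 ^ 102 * T ^ 82 := le_of_mul_le_mul_right h9 hnpos
    linarith

end Pool.Agent.Helper459_costas
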