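import Mathlib
import Pool.Agent.Helper459_costas.Struct

open Finset

namespace Pool.Agent.Helper459_costas

variable {p : ℕ} [Fact p.Prime]

/-- Nonzero elements where two power maps agree. -/
def eqs (φ ψ : ZMod p →*₀ ZMod p) : Finset (ZMod p) := (nz p).filter fun x => φ x = ψ x

/-- The values of the ratio of two power maps. -/
def ratios (φ ψ : ZMod p →*₀ ZMod p) : Finset (ZMod p) := (nz p).image fun x => ψ x / φ x

theorem card_fiber (φ ψ : ZMod p →*₀ ZMod p) {y : ZMod p} (hy : y ≠ 0) :
    ((nz p).filter fun x => ψ x / φ x = ψ y / φ y).card = (eqs φ ψ).card := by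
  have hφy := map_ne (φ := φ) hy
  have hψy := map_ne (φ := ψ) hy
  refine card_bij' (fun x _ => x / y) (fun x _ => x * y) ?_ ?_ ?_ ?_
  · intro x hx
    rw [mem_filter, mem_nz] at hx
    obtain ⟨h0, h⟩ := hx
    have hφx := map_ne (φ := φ) h0
    rw [eqs, mem_filter, mem_nz]
    refine ⟨div_ne_zero h0 hy, ?_⟩
    rw [map_div₀, map_div₀]
    field_simp at h ⊢
    linear_combination -h
  · intro x hx
    rw [eqs, mem_filter, mem_nz] at hx
    obtain ⟨h0, h⟩ := hx
    have hφx := map_ne (φ := φ) h0
    have hψx := map_ne (φ := ψ) h0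
    rw [mem_filter, mem_nz]
    refine ⟨mul_ne_zero h0 hy, ?_⟩
    rw [map_mul, map_mul, h]
    field_simp
  · intro x _; exact div_mul_cancel₀ x hy
  · intro x _; exact mul_div_cancel_right₀ x hy

theorem card_ratios_mul (φ ψ : ZMod p →*₀ ZMod p) :
    (ratios φ ψ).card * (eqs φ ψ).card = p - 1 := by
  classical
  have h := card_eq_sum_card_image (fun x => ψ x / φ x) (nz p)
  rw [card_nz] at h
  rw [h, ratios]
  rw [← smul_eq_mul, ← sum_const]
  refine sum_congr rfl fun b hb => ?_
  obtain ⟨y, hy, rfl⟩ := mem_image.1 hb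
  exact (card_fiber φ ψ (mem_nz.1 hy)).symm

theorem ratios_ne_zero {φ ψ : ZMod p →*₀ ZMod p} {z : ZMod p} (hz : z ∈ ratios φ ψ) : z ≠ 0 := by
  obtain ⟨x, hx, rfl⟩ := mem_image.1 hz
  exact div_ne_zero (map_ne (mem_nz.1 hx)) (map_ne (mem_nz.1 hx))

/-- Pigeonhole: some homogeneous equation has many solutions. -/
theorem exists_class (φ ψ : ZMod p →*₀ ZMod p) (A B : ZMod p) :
    ∃ ζ : ZMod p, ζ ≠ 0 ∧
      (sols φ ψ A B).card ≤ (ratios φ ψ).card * (sols φ φ A (B * ζ)).card := by
  classical
  have h1 : (sols φ ψ A B).card ≤ ∑ ζ ∈ ratios φ ψ, (sols φ φ A (B * ζ)).card := by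
    have hmap : Set.MapsTo (fun x => ψ (1 - x) / φ (1 - x)) (sols φ ψ A B : Set (ZMod p))
        (ratios φ ψ : Set (ZMod p)) := by
      intro x hx
      rw [mem_coe, mem_sols] at hx
      rw [mem_coe, ratios, mem_image]
      exact ⟨1 - x, mem_nz.2 (sub_ne_zero.2 (Ne.symm hx.2.1)), rfl⟩
    rw [card_eq_sum_card_fiberwise hmap]
    refine sum_le_sum fun ζ hζ => card_le_card ?_
    intro x hx
    rw [mem_filter, mem_sols] at hx
    obtain ⟨⟨h0, h1, h⟩, h2⟩ := hx
    rw [mem_sols]
    refine ⟨h0, h1, ?_⟩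
    have : φ (1 - x) ≠ 0 := map_ne (sub_ne_zero.2 (Ne.symm h1))
    rw [← h2, mul_assoc, div_mul_cancel₀ _ this]
    exact h
  have hne : (ratios φ ψ).Nonempty := by
    rw [ratios, image_nonempty]
    exact ⟨1, mem_nz.2 one_ne_zero⟩
  obtain ⟨ζ, hζ, hmax⟩ := exists_max_image (ratios φ ψ) (fun ζ => (sols φ φ A (B * ζ)).card) hne
  refine ⟨ζ, ratios_ne_zero hζ, h1.trans ?_⟩
  rw [← smul_eq_mul]
  exact sum_le_card_nsmul _ _ _ hmax

theorem map_neg_one (φ : ZMod p →*₀ ZMod p) (hφ : Function.Injective φ) (hp : p ≠ 2) :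
    φ (-1) = -1 := by
  have h1 : φ (-1) * φ (-1) = 1 := by rw [← map_mul]; simp
  have h2 : φ (-1) ≠ 1 := by
    intro h
    have : (-1 : ZMod p) = 1 := hφ (by rw [h, map_one])
    have h3 : (2 : ZMod p) = 0 := by linear_combination -this
    have h4 : (p : ℕ) ∣ 2 := (ZMod.natCast_eq_zero_iff 2 p).1 (by exact_mod_cast h3)
    have h5 := Nat.le_of_dvd (by norm_num) h4
    have := two_le_p (p := p)
    omega
  rcases mul_self_eq_one_iff.1 h1 with h | h
  · exact absurd h h2
  · exact h

theorem map_neg' (φ : ZMod p →*₀ ZMod p) (hφ : Function.Injective φ) (hp : p ≠ 2) (x : ZMod p) :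
    φ (-x) = -φ x := by
  rw [← neg_one_mul, map_mul, map_neg_one φ hφ hp, neg_one_mul]

theorem neg_ne_self' (hp : p ≠ 2) {x : ZMod p} (hx : x ≠ 0) : -x ≠ x := by
  intro h
  have h3 : (2 : ZMod p) * x = 0 := by linear_combination -h
  rcases mul_eq_zero.1 h3 with h4 | h4
  · have h4 : (p : ℕ) ∣ 2 := (ZMod.natCast_eq_zero_iff 2 p).1 (by exact_mod_cast h4)
    have h5 := Nat.le_of_dvd (by norm_num) h4
    have := two_le_p (p := p)
    omega
  · exact hx h4

theorem two_dvd_card_fixs (φ : ZMod p →*₀ ZMod p) (hφ : Function.Injective φ) (hp : p ≠ 2) :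
    2 ∣ (fixs φ).card := by
  have h : ∑ x ∈ fixs φ, (1 : ZMod 2) = 0 := by
    refine sum_involution (fun x _ => -x) ?_ ?_ ?_ ?_
    · intro x _; decide
    · intro x hx _
      exact neg_ne_self' hp (mem_fixs.1 hx).1
    · intro x hx
      rw [mem_fixs] at hx ⊢
      exact ⟨neg_ne_zero.2 hx.1, by rw [map_neg' φ hφ hp, hx.2]⟩
    · intro x _; simp
  rw [sum_const, nsmul_eq_mul, mul_one] at h
  exact (ZMod.natCast_eq_zero_iff _ 2).1 h

theorem fixs_eq (φ : ZMod p →*₀ ZMod p) : fixs φ = eqs φ (MonoidWithZeroHom.id _) := rfl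

theorem card_ratios_fixs (φ : ZMod p →*₀ ZMod p) :
    (ratios φ (MonoidWithZeroHom.id _)).card * (fixs φ).card = p - 1 := by
  rw [fixs_eq]; exact card_ratios_mul φ _

/-- The index of the group of fixed points is at least `t`. -/
theorem t_le_index (φ : ZMod p →*₀ ZMod p) (hφ : Function.Injective φ) (hp : p ≠ 2)
    (hid : ∃ x, φ x ≠ x) (t : ℕ) (ht : ∀ q : ℕ, q.Prime → 2 * q ∣ p - 1 → t ≤ q) :
    t ≤ (ratios φ (MonoidWithZeroHom.id _)).card := by
  set k := (ratios φ (MonoidWithZeroHom.id _)).card with hk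
  have h1 : k * (fixs φ).card = p - 1 := card_ratios_fixs φ
  have hp2 := two_le_p (p := p)
  have hk1 : k ≠ 1 := by
    intro hk1
    rw [hk1, one_mul] at h1
    have h2 : fixs φ = nz p := by
      apply eq_of_subset_of_card_le (filter_subset _ _)
      rw [card_nz]
      exact h1.ge
    obtain ⟨x, hx⟩ := hid
    have hx0 : x ≠ 0 := by
      rintro rfl
      exact hx (map_zero φ)
    have : x ∈ fixs φ := by rw [h2]; exact mem_nz.2 hx0
    exact hx (mem_fixs.1 this).2
  have hk0 : k ≠ 0 := by
    intro h0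
    rw [h0, zero_mul] at h1
    omega
  obtain ⟨q, hq, hqk⟩ := Nat.exists_prime_and_dvd hk1
  have h2 : 2 * q ∣ p - 1 := by
    rw [← h1, mul_comm k]
    exact mul_dvd_mul (two_dvd_card_fixs φ hφ hp) hqk
  exact (ht q hq h2).trans (Nat.le_of_dvd (Nat.pos_of_ne_zero hk0) hqk)

/-- The incidence bound. -/
theorem incidence (φ ψ : ZMod p →*₀ ZMod p) (hψ : Function.Injective ψ)
    (hp : p ≠ 2) (A B : ZMod p) (hB : B ≠ 0) :
    ∃ I : ℕ, (sols φ ψ A B).card * (sols φ ψ A B).card ≤ I + (sols φ ψ A B).card ∧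
      I ^ 2 ≤ (p - 1) * ((p - 1) ^ 2 + (eqs φ ψ).card * I) := by
  classical
  set S := sols φ ψ A B with hS
  set Inc : ZMod p → ZMod p → Prop := fun v z =>
    ψ (1 - v) + φ z / ψ z * ψ v = (1 - φ z) / (B * ψ (1 - z)) with hInc
  set L := (nz p).erase 1 with hL
  set II := (nz p ×ˢ L).filter fun q => Inc q.1 q.2 with hII
  refine ⟨II.card, ?_, ?_⟩
  · have h1 : S.offDiag.card ≤ II.card := by
      refine card_le_card_of_injOn
        (fun q => (q.1 * (1 - q.2) / (q.1 - q.2), q.1 / q.2)) ?_ ?_
      · rintro ⟨x1, x2⟩ hq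
        rw [mem_coe, mem_offDiag] at hq
        obtain ⟨ha, hb, hab⟩ := hq
        simp only at ha hb hab
        rw [hS, mem_sols] at ha hb
        obtain ⟨ha0, ha1, ha⟩ := ha
        obtain ⟨hb0, hb1, hb⟩ := hb
        have hab' : x1 - x2 ≠ 0 := sub_ne_zero.2 hab
        have hb1' : 1 - x2 ≠ 0 := sub_ne_zero.2 (Ne.symm hb1)
        have ha1' : 1 - x1 ≠ 0 := sub_ne_zero.2 (Ne.symm ha1)
        rw [mem_coe, hII, mem_filter, mem_product]
        refine ⟨⟨mem_nz.2 (div_ne_zero (mul_ne_zero ha0 hb1') hab'), ?_⟩, ?_⟩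
        · rw [hL, mem_erase, mem_nz]
          exact ⟨fun h => hab ((div_eq_one_iff_eq hb0).1 h), div_ne_zero ha0 hb0⟩
        · simp only [hInc]
          have e1 : 1 - x1 * (1 - x2) / (x1 - x2) = -(x2 * (1 - x1) / (x1 - x2)) := by
            field_simp; ring
          have e2 : 1 - x1 / x2 = -((x1 - x2) / x2) := by field_simp; ring
          rw [e1, e2, map_neg' ψ hψ hp, map_neg' ψ hψ hp]
          simp only [map_div₀, map_mul]
          have f1 := map_ne (φ := φ) ha0
          have f2 := map_ne (φ := φ) hb0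
          have g1 := map_ne (φ := ψ) ha0
          have g2 := map_ne (φ := ψ) hb0
          have g3 := map_ne (φ := ψ) hab'
          field_simp
          linear_combination (-φ x2) * ha + (φ x1) * hb
      · rintro ⟨x1, x2⟩ hq ⟨y1, y2⟩ hq' h
        rw [mem_coe, mem_offDiag] at hq hq'
        obtain ⟨ha, hb, hab⟩ := hq
        obtain ⟨ha', hb', hab'⟩ := hq'
        simp only at ha hb hab ha' hb' hab'
        rw [hS, mem_sols] at ha hb ha' hb'
        simp only [Prod.mk.injEq] at h
        obtain ⟨h1, h2⟩ := h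
        have c1 : x1 - x2 ≠ 0 := sub_ne_zero.2 hab
        have c2 : y1 - y2 ≠ 0 := sub_ne_zero.2 hab'
        have c3 := hb.1
        have c4 := hb'.1
        have hx1 : x1 = (y1 / y2) * x2 := by rw [← h2]; field_simp
        have hz : y1 / y2 - 1 ≠ 0 := by
          intro h0
          apply hab'
          have : y1 / y2 = 1 := by linear_combination h0
          exact (div_eq_one_iff_eq c4).1 this
        have hz0 : y1 / y2 ≠ 0 := div_ne_zero ha'.1 c4
        have e1 : x1 * (1 - x2) / (x1 - x2) = (y1 / y2) * (1 - x2) / (y1 / y2 - 1) := by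
          rw [div_eq_div_iff c1 hz, hx1]; ring
        have e2 : y1 * (1 - y2) / (y1 - y2) = (y1 / y2) * (1 - y2) / (y1 / y2 - 1) := by
          rw [div_eq_div_iff c2 hz]; field_simp
        rw [e1, e2, div_left_inj' hz, mul_right_inj' hz0] at h1
        have hxy : x2 = y2 := by linear_combination -h1
        rw [hx1, hxy]
        ext
        · simp only
          field_simp
        · rfl
    rw [offDiag_card] at h1
    omega
  · -- second moment
    have hsum : II.card = ∑ v ∈ nz p, (L.filter fun z => Inc v z).card := by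
      rw [hII, card_filter, sum_product]
      refine sum_congr rfl fun v _ => ?_
      rw [card_filter]
    have hcs : II.card ^ 2 ≤ (nz p).card * ∑ v ∈ nz p, (L.filter fun z => Inc v z).card ^ 2 := by
      rw [hsum]
      exact sq_sum_le_card_mul_sum_sq
    rw [card_nz] at hcs
    refine hcs.trans (Nat.mul_le_mul_left _ ?_)
    -- triples
    have hsq : ∑ v ∈ nz p, (L.filter fun z => Inc v z).card ^ 2 =
        ∑ q ∈ L ×ˢ L, ((nz p).filter fun v => Inc v q.1 ∧ Inc v q.2).card := by
      simp only [sq, card_filter, sum_mul_sum]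
      rw [sum_comm (s := L ×ˢ L)]
      refine sum_congr rfl fun v _ => ?_
      rw [sum_product]
      refine sum_congr rfl fun z _ => sum_congr rfl fun z' _ => ?_
      by_cases h1 : Inc v z <;> by_cases h2 : Inc v z' <;> simp [h1, h2]
    rw [hsq]
    rw [← sum_filter_add_sum_filter_not (L ×ˢ L) (fun q => ψ q.2 / φ q.2 = ψ q.1 / φ q.1), add_comm]
    refine add_le_add ?_ ?_
    · calc ∑ q ∈ (L ×ˢ L).filter (fun q => ¬ ψ q.2 / φ q.2 = ψ q.1 / φ q.1),
            ((nz p).filter fun v => Inc v q.1 ∧ Inc v q.2).card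
          ≤ ∑ q ∈ (L ×ˢ L).filter (fun q => ¬ ψ q.2 / φ q.2 = ψ q.1 / φ q.1), 1 := by
            refine sum_le_sum fun q hq => ?_
            rw [mem_filter, mem_product] at hq
            obtain ⟨⟨hq1, hq2⟩, hne⟩ := hq
            rw [hL, mem_erase, mem_nz] at hq1 hq2
            rw [card_le_one]
            intro a ha b hb
            rw [mem_filter] at ha hb
            obtain ⟨_, ha1, ha2⟩ := ha
            obtain ⟨_, hb1, hb2⟩ := hb
            simp only [hInc] at ha1 ha2 hb1 hb2
            have f1 := map_ne (φ := φ) hq1.2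
            have f2 := map_ne (φ := φ) hq2.2
            have g1 := map_ne (φ := ψ) hq1.2
            have g2 := map_ne (φ := ψ) hq2.2
            have hne' : φ q.1 / ψ q.1 - φ q.2 / ψ q.2 ≠ 0 := by
              intro h0
              apply hne
              have : φ q.1 / ψ q.1 = φ q.2 / ψ q.2 := by linear_combination h0
              field_simp at this ⊢
              linear_combination this
            have : (φ q.1 / ψ q.1 - φ q.2 / ψ q.2) * (ψ a - ψ b) = 0 := by
              linear_combination ha1 - ha2 - hb1 + hb2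
            rcases mul_eq_zero.1 this with h | h
            · exact absurd h hne'
            · exact hψ (by linear_combination h)
        _ ≤ ∑ q ∈ L ×ˢ L, 1 := sum_le_sum_of_subset (filter_subset _ _)
        _ = L.card * L.card := by rw [sum_const, smul_eq_mul, mul_one, card_product]
        _ ≤ (p - 1) ^ 2 := by
            have : L.card ≤ p - 1 := by
              rw [← card_nz]; exact card_le_card (erase_subset _ _)
            rw [sq]
            exact Nat.mul_le_mul this this
    · calc ∑ q ∈ (L ×ˢ L).filter (fun q => ψ q.2 / φ q.2 = ψ q.1 / φ q.1),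
            ((nz p).filter fun v => Inc v q.1 ∧ Inc v q.2).card
          ≤ ∑ q ∈ (L ×ˢ L).filter (fun q => ψ q.2 / φ q.2 = ψ q.1 / φ q.1),
            ((nz p).filter fun v => Inc v q.1).card := by
            refine sum_le_sum fun q _ => card_le_card ?_
            intro v hv
            rw [mem_filter] at hv ⊢
            exact ⟨hv.1, hv.2.1⟩
        _ = ∑ z ∈ L, ∑ z' ∈ L, (if ψ z' / φ z' = ψ z / φ z then
              ((nz p).filter fun v => Inc v z).card else 0) := by
            rw [sum_filter, sum_product]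
        _ = ∑ z ∈ L, (L.filter fun z' => ψ z' / φ z' = ψ z / φ z).card *
              ((nz p).filter fun v => Inc v z).card := by
            refine sum_congr rfl fun z _ => ?_
            rw [← sum_filter, sum_const, smul_eq_mul]
        _ ≤ ∑ z ∈ L, (eqs φ ψ).card * ((nz p).filter fun v => Inc v z).card := by
            refine sum_le_sum fun z hz => Nat.mul_le_mul_right _ ?_
            rw [hL, mem_erase, mem_nz] at hz
            rw [← card_fiber φ ψ hz.2]
            exact card_le_card (filter_subset_filter _ (erase_subset _ _))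
        _ = (eqs φ ψ).card * II.card := by
            rw [← mul_sum]
            congr 1
            rw [hII, card_filter, sum_product, sum_comm]
            refine sum_congr rfl fun v _ => ?_
            rw [card_filter]

end Pool.Agent.Helper459_costas
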