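import Mathlib
import Pool.Agent.Helper459_costas.Classes

open Finset

namespace Pool.Agent.Helper459_costas

variable {p : ℕ} [Fact p.Prime]

/-- The class of an element. -/
def cls (φ ψ : ZMod p →*₀ ZMod p) (x : ZMod p) : ZMod p × ZMod p :=
  (x / φ x, (1 - x) / ψ (1 - x))

theorem cls_mem (φ ψ : ZMod p →*₀ ZMod p) {x : ZMod p} (hx : x ∈ (nz p).erase 1) :
    cls φ ψ x ∈ (ratios φ (MonoidWithZeroHom.id _)) ×ˢ (ratios ψ (MonoidWithZeroHom.id _)) := by
  rw [mem_erase, mem_nz] at hx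
  rw [mem_product]
  exact ⟨mem_image.2 ⟨x, mem_nz.2 hx.2, rfl⟩,
    mem_image.2 ⟨1 - x, mem_nz.2 (sub_ne_zero.2 (Ne.symm hx.1)), rfl⟩⟩

theorem pairs_bound (φ ψ : ZMod p →*₀ ZMod p) :
    ((((nz p).erase 1) ×ˢ ((nz p).erase 1)).filter fun q => cls φ ψ q.1 = cls φ ψ q.2).card
      ≤ (p - 1) + (fixs φ).card * (fixs ψ).card := by
  classical
  set V := (nz p).erase 1 with hV
  rw [← card_filter_add_card_filter_not (p := fun q : ZMod p × ZMod p => q.1 = q.2)]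
  refine add_le_add ?_ ?_
  · have h1 : V.card ≤ p - 1 := by
      rw [← card_nz]; exact card_le_card (erase_subset _ _)
    refine le_trans ?_ h1
    refine card_le_card_of_injOn (fun q => q.1) ?_ ?_
    · intro q hq
      rw [mem_coe, mem_filter, mem_filter, mem_product] at hq
      exact hq.1.1.1
    · rintro ⟨a, b⟩ ha ⟨a', b'⟩ ha' h
      rw [mem_coe, mem_filter] at ha ha'
      simp only at ha ha' h
      rw [← ha.2, ← ha'.2, h]
  · rw [← card_product]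
    refine card_le_card_of_injOn (fun q => (q.1 / q.2, (1 - q.1) / (1 - q.2))) ?_ ?_
    · rintro ⟨a, b⟩ hq
      rw [mem_coe, mem_filter, mem_filter, mem_product, hV, mem_erase, mem_erase, mem_nz,
        mem_nz] at hq
      obtain ⟨⟨⟨⟨ha1, ha0⟩, ⟨hb1, hb0⟩⟩, hc⟩, hab⟩ := hq
      simp only at ha1 ha0 hb1 hb0 hc hab
      rw [cls, cls, Prod.mk.injEq] at hc
      obtain ⟨hc1, hc2⟩ := hc
      have ha1' : 1 - a ≠ 0 := sub_ne_zero.2 (Ne.symm ha1)
      have hb1' : 1 - b ≠ 0 := sub_ne_zero.2 (Ne.symm hb1)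
      rw [mem_coe, mem_product, mem_fixs, mem_fixs]
      have f1 := map_ne (φ := φ) ha0
      have f2 := map_ne (φ := φ) hb0
      have f3 := map_ne (φ := ψ) ha1'
      have f4 := map_ne (φ := ψ) hb1'
      refine ⟨⟨div_ne_zero ha0 hb0, ?_⟩, ⟨div_ne_zero ha1' hb1', ?_⟩⟩
      · rw [map_div₀]
        field_simp at hc1 ⊢
        linear_combination -hc1
      · rw [map_div₀]
        field_simp at hc2 ⊢
        linear_combination -hc2
    · have key : ∀ q : ZMod p × ZMod p, q ∈ ((V ×ˢ V).filter fun q => cls φ ψ q.1 = cls φ ψ q.2).filter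
          (fun q => ¬ q.1 = q.2) → ∀ z w, z = q.1 / q.2 → w = (1 - q.1) / (1 - q.2) →
          q.2 * (z - w) = 1 - w ∧ z - w ≠ 0 ∧ q.1 = z * q.2 := by
        rintro ⟨a, b⟩ hq z w hz hw
        rw [mem_filter, mem_filter, mem_product, hV, mem_erase, mem_erase, mem_nz,
          mem_nz] at hq
        obtain ⟨⟨⟨⟨ha1, ha0⟩, ⟨hb1, hb0⟩⟩, hc⟩, hab⟩ := hq
        simp only at ha1 ha0 hb1 hb0 hc hab hz hw ⊢
        have hb1' : 1 - b ≠ 0 := sub_ne_zero.2 (Ne.symm hb1)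
        have e1 : a = z * b := by rw [hz]; field_simp
        have e2 : 1 - a = w * (1 - b) := by rw [hw]; field_simp
        have e3 : b * (z - w) = 1 - w := by linear_combination -e1 - e2
        refine ⟨e3, ?_, e1⟩
        intro h0
        rw [h0, mul_zero] at e3
        have hw1 : w = 1 := by linear_combination e3
        have hz1 : z = 1 := by linear_combination h0 + hw1
        apply hab
        rw [e1, hz1, one_mul]
      rintro q hq q' hq' h
      simp only [Prod.mk.injEq] at h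
      obtain ⟨h1, h2⟩ := h
      obtain ⟨k1, k2, k3⟩ := key q hq _ _ rfl rfl
      obtain ⟨l1, l2, l3⟩ := key q' hq' _ _ h1 h2
      have hb : q.2 = q'.2 := mul_right_cancel₀ k2 (k1.trans l1.symm)
      ext
      · rw [k3, l3, hb]
      · exact hb

theorem class_count (φ ψ : ZMod p →*₀ ZMod p) (A B : ZMod p) (hA : A ≠ 0) (hB : B ≠ 0) :
    ∃ y : ℕ, y ≤ (fixs φ).card ∧
      (sols φ ψ A B).card ≤ y + (ratios φ (MonoidWithZeroHom.id _)).card *
        (ratios ψ (MonoidWithZeroHom.id _)).card ∧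
      (p - 2 - y) ^ 2 + (ratios φ (MonoidWithZeroHom.id _)).card *
        (ratios ψ (MonoidWithZeroHom.id _)).card * y ^ 2 ≤
        (ratios φ (MonoidWithZeroHom.id _)).card *
        (ratios ψ (MonoidWithZeroHom.id _)).card *
          ((p - 1) + (fixs φ).card * (fixs ψ).card) ∧ y ≤ p - 2 := by
  classical
  set R := (ratios φ (MonoidWithZeroHom.id _)) ×ˢ (ratios ψ (MonoidWithZeroHom.id _)) with hR
  have hRc : R.card = (ratios φ (MonoidWithZeroHom.id _)).card *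
        (ratios ψ (MonoidWithZeroHom.id _)).card := card_product _ _
  rw [← hRc]
  set V := (nz p).erase 1 with hV
  have hVc : V.card = p - 2 := by
    rw [hV, card_erase_of_mem (mem_nz.2 one_ne_zero), card_nz]; omega
  set c0 : ZMod p × ZMod p := (A, B) with hc0
  set Y := V.filter fun x => cls φ ψ x = c0 with hY
  refine ⟨Y.card, ?_, ?_, ?_, ?_⟩
  · -- Y lies in a coset
    have h1 : Y ⊆ nz p := (filter_subset _ _).trans (erase_subset _ _)
    refine linear_bound φ Y h1 A⁻¹ fun g hg => ?_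
    rw [hY, mem_filter, hV, mem_erase, mem_nz] at hg
    obtain ⟨⟨hg1, hg0⟩, hc⟩ := hg
    rw [cls, hc0, Prod.mk.injEq] at hc
    have f1 := map_ne (φ := φ) hg0
    have hc1 := hc.1
    field_simp at hc1 ⊢
    linear_combination -hc1
  · -- number of solutions
    set S := sols φ ψ A B with hS
    have hSV : S ⊆ V := by
      intro x hx
      rw [hS, mem_sols] at hx
      rw [hV, mem_erase, mem_nz]
      exact ⟨hx.2.1, hx.1⟩
    rw [← card_filter_add_card_filter_not (s := S) (p := fun x => cls φ ψ x = c0)]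
    refine add_le_add (card_le_card (filter_subset_filter _ hSV)) ?_
    refine card_le_card_of_injOn (cls φ ψ) ?_ ?_
    · intro x hx
      rw [mem_coe, mem_filter] at hx
      exact cls_mem φ ψ (hSV hx.1)
    · intro x hx x' hx' h
      rw [mem_coe, mem_filter, hS, mem_sols] at hx hx'
      obtain ⟨⟨hx0, hx1, hxe⟩, hxc⟩ := hx
      obtain ⟨⟨hx0', hx1', hxe'⟩, hxc'⟩ := hx'
      by_contra hne
      apply hxc
      have g1 : 1 - x ≠ 0 := sub_ne_zero.2 (Ne.symm hx1)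
      have g2 : 1 - x' ≠ 0 := sub_ne_zero.2 (Ne.symm hx1')
      have f1 := map_ne (φ := φ) hx0
      have f2 := map_ne (φ := φ) hx0'
      have f3 := map_ne (φ := ψ) g1
      have f4 := map_ne (φ := ψ) g2
      rw [cls, cls, Prod.mk.injEq] at h
      obtain ⟨h1, h2⟩ := h
      obtain ⟨a, ha⟩ : ∃ a, a = x / φ x := ⟨_, rfl⟩
      obtain ⟨b, hb⟩ : ∃ b, b = (1 - x) / ψ (1 - x) := ⟨_, rfl⟩
      have ha0 : a ≠ 0 := by rw [ha]; exact div_ne_zero hx0 f1
      have hb0 : b ≠ 0 := by rw [hb]; exact div_ne_zero g1 f3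
      have e1 : φ x = x / a := by rw [ha]; field_simp
      have e2 : φ x' = x' / a := by rw [ha, h1]; field_simp
      have e3 : ψ (1 - x) = (1 - x) / b := by rw [hb]; field_simp
      have e4 : ψ (1 - x') = (1 - x') / b := by rw [hb, h2]; field_simp
      rw [e1, e3] at hxe
      rw [e2, e4] at hxe'
      have h3 : (A / a - B / b) * (x - x') = 0 := by linear_combination hxe - hxe'
      have h4 : A / a - B / b = 0 := by
        rcases mul_eq_zero.1 h3 with h | h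
        · exact h
        · exact absurd (sub_eq_zero.1 h) hne
      have h5 : B / b = 1 := by linear_combination hxe - x * h4
      have h6 : A / a = 1 := by linear_combination h4 + h5
      rw [cls, hc0, ← ha, ← hb]
      rw [(div_eq_one_iff_eq hb0).1 h5, (div_eq_one_iff_eq ha0).1 h6]
  · -- second moment
    set C' := insert c0 R with hC'
    have hmaps : Set.MapsTo (cls φ ψ) (V : Set (ZMod p)) (C' : Set (ZMod p × ZMod p)) := by
      intro x hx
      exact mem_insert_of_mem (cls_mem φ ψ hx)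
    set v : ZMod p × ZMod p → ℕ := fun c => (V.filter fun x => cls φ ψ x = c).card with hv
    have hs1 : V.card = ∑ c ∈ C', v c := card_eq_sum_card_fiberwise hmaps
    have hs2 : ∑ c ∈ C', v c ^ 2 = ((V ×ˢ V).filter fun q => cls φ ψ q.1 = cls φ ψ q.2).card := by
      have hm2 : Set.MapsTo (fun q : ZMod p × ZMod p => cls φ ψ q.1)
          (((V ×ˢ V).filter fun q => cls φ ψ q.1 = cls φ ψ q.2 : Finset (ZMod p × ZMod p)) :
            Set (ZMod p × ZMod p)) (C' : Set (ZMod p × ZMod p)) := by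
        intro q hq
        rw [mem_coe, mem_filter, mem_product] at hq
        exact hmaps hq.1.1
      rw [card_eq_sum_card_fiberwise hm2]
      refine sum_congr rfl fun c _ => ?_
      rw [sq, hv, ← card_product]
      congr 1
      ext q
      simp only [mem_product, mem_filter]
      constructor
      · rintro ⟨⟨a1, a2⟩, b1, b2⟩
        exact ⟨⟨⟨a1, b1⟩, a2.trans b2.symm⟩, a2⟩
      · rintro ⟨⟨⟨a1, b1⟩, h⟩, a2⟩
        exact ⟨⟨a1, a2⟩, b1, h.symm.trans a2⟩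
    have hc0mem : c0 ∈ C' := mem_insert_self _ _
    rw [← add_sum_erase _ _ hc0mem] at hs1 hs2
    have hYv : v c0 = Y.card := rfl
    rw [hYv] at hs1 hs2
    have hcs : (∑ c ∈ C'.erase c0, v c) ^ 2 ≤ (C'.erase c0).card * ∑ c ∈ C'.erase c0, v c ^ 2 :=
      sq_sum_le_card_mul_sum_sq
    have hEc : (C'.erase c0).card ≤ R.card := by
      apply card_le_card
      intro c hc
      rw [mem_erase, hC', mem_insert] at hc
      rcases hc.2 with h | h
      · exact absurd h hc.1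
      · exact h
    have hpb := pairs_bound (p := p) φ ψ
    rw [← hV, ← hs2] at hpb
    have h1 : p - 2 - Y.card = ∑ c ∈ C'.erase c0, v c := by omega
    rw [h1]
    calc (∑ c ∈ C'.erase c0, v c) ^ 2 + R.card * Y.card ^ 2
        ≤ (C'.erase c0).card * ∑ c ∈ C'.erase c0, v c ^ 2 + R.card * Y.card ^ 2 := by
          gcongr
      _ ≤ R.card * ∑ c ∈ C'.erase c0, v c ^ 2 + R.card * Y.card ^ 2 := by gcongr
      _ = R.card * (Y.card ^ 2 + ∑ c ∈ C'.erase c0, v c ^ 2) := by ring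
      _ ≤ _ := Nat.mul_le_mul_left _ hpb
  · rw [← hVc]; exact card_filter_le _ _

theorem half_core (φ ψ : ZMod p →*₀ ZMod p) (hφ : Function.Injective φ)
    (hψ : Function.Injective ψ) (hp : p ≠ 2) (A B : ZMod p) (hA : A ≠ 0) (hB : B ≠ 0)
    (t : ℝ) (ht2 : 2 ≤ t) (hbig : 4 ^ 133 * t ^ 246 < ((p - 1 : ℕ) : ℝ))
    (hN : ((p - 1 : ℕ) : ℝ) ≤ t * (sols φ ψ A B).card) :
    ((p - 1 : ℕ) : ℝ) ≤ 16 * t ^ 3 * (fixs φ).card := by
  set n : ℝ := ((p - 1 : ℕ) : ℝ) with hn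
  set N : ℝ := ((sols φ ψ A B).card : ℝ) with hNd
  have htpos : 0 < t := by linarith
  have ht1 : 1 ≤ t := by linarith
  have hbig2 : 8 * t ^ 4 < n := by
    have h1 : (8 : ℝ) * t ^ 4 ≤ 4 ^ 133 * t ^ 246 := by
      have : (8 : ℝ) ≤ 4 ^ 133 := by norm_num
      have h2 : t ^ 4 ≤ t ^ 246 := pow_le_pow_right₀ ht1 (by norm_num)
      gcongr
    linarith
  have hnpos : 0 < n := by
    have : 0 < 8 * t ^ 4 := by positivity
    linarith
  -- incidence step
  obtain ⟨I, hI1, hI2⟩ := incidence φ ψ hψ hp A B hB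
  have hI1R : N * N ≤ I + N := by rw [hNd]; exact_mod_cast hI1
  set d : ℝ := ((eqs φ ψ).card : ℝ) with hd
  have hI2R : (I : ℝ) ^ 2 ≤ n * (n ^ 2 + d * I) := by
    rw [hn, hd]; exact_mod_cast hI2
  have hN2 : 2 ≤ N := by
    by_contra h
    have h1 : N < 2 := not_le.1 h
    have h2 : n < t * 2 := lt_of_le_of_lt hN (by gcongr)
    have h3 : t * 2 ≤ 8 * t ^ 4 := by
      have : t ≤ t ^ 4 := by
        calc t = t ^ 1 := (pow_one t).symm
          _ ≤ t ^ 4 := pow_le_pow_right₀ ht1 (by norm_num)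
      nlinarith
    linarith
  have hIbig : N ^ 2 ≤ 2 * I := by nlinarith
  have hInn : (0 : ℝ) ≤ I := Nat.cast_nonneg _
  have hIn : n ^ 2 ≤ 2 * t ^ 2 * I := by
    calc n ^ 2 ≤ (t * N) ^ 2 := by gcongr
      _ = t ^ 2 * N ^ 2 := by ring
      _ ≤ t ^ 2 * (2 * I) := by gcongr
      _ = 2 * t ^ 2 * I := by ring
  have hd4 : n ≤ 4 * t ^ 2 * d := by
    by_contra hcon
    have hcon' : 4 * t ^ 2 * d < n := not_le.1 hcon
    have hIpos : 0 < (I : ℝ) := by nlinarith [sq_nonneg N]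
    -- n d I ≤ I^2 / 2
    have h1 : 2 * (n * (d * I)) ≤ (I : ℝ) ^ 2 := by
      have h2 : (4 * t ^ 2) * (n * (d * I)) ≤ (4 * t ^ 2) * ((I : ℝ) ^ 2 / 2) := by
        calc (4 * t ^ 2) * (n * (d * I)) = (4 * t ^ 2 * d) * (n * I) := by ring
          _ ≤ n * (n * I) := by gcongr
          _ = n ^ 2 * I := by ring
          _ ≤ (2 * t ^ 2 * I) * I := by gcongr
          _ = (4 * t ^ 2) * ((I : ℝ) ^ 2 / 2) := by ring
      have h3 := le_of_mul_le_mul_left h2 (by positivity)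
      linarith
    have h4 : (I : ℝ) ^ 2 ≤ 2 * n ^ 3 := by nlinarith
    have h5 : n ^ 4 ≤ 8 * t ^ 4 * n ^ 3 := by
      calc n ^ 4 = n ^ 2 * n ^ 2 := by ring
        _ ≤ (2 * t ^ 2 * I) * (2 * t ^ 2 * I) := by gcongr
        _ = 4 * t ^ 4 * (I : ℝ) ^ 2 := by ring
        _ ≤ 4 * t ^ 4 * (2 * n ^ 3) := by gcongr
        _ = 8 * t ^ 4 * n ^ 3 := by ring
    have h6 : n * n ^ 3 ≤ 8 * t ^ 4 * n ^ 3 := by
      calc n * n ^ 3 = n ^ 4 := by ring
        _ ≤ _ := h5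
    have h7 : n ≤ 8 * t ^ 4 := le_of_mul_le_mul_right h6 (by positivity)
    linarith
  -- pigeonhole
  obtain ⟨ζ, hζ, hpig⟩ := exists_class φ ψ A B
  set k : ℝ := ((ratios φ ψ).card : ℝ) with hk
  have hkd : k * d = n := by
    rw [hk, hd, hn]; exact_mod_cast card_ratios_mul φ ψ
  have hdpos : 0 < d := by
    by_contra h
    have h0 : d ≤ 0 := not_lt.1 h
    have : d = 0 := le_antisymm h0 (Nat.cast_nonneg _)
    rw [this, mul_zero] at hkd
    linarith
  have hk4 : k ≤ 4 * t ^ 2 := by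
    have : k * d ≤ (4 * t ^ 2) * d := by rw [hkd]; exact hd4
    exact le_of_mul_le_mul_right this hdpos
  have hpigR : N ≤ k * (sols φ φ A (B * ζ)).card := by
    rw [hNd, hk]; exact_mod_cast hpig
  have hT : n ≤ (4 * t ^ 3) * (sols φ φ A (B * ζ)).card := by
    calc n ≤ t * N := hN
      _ ≤ t * (k * (sols φ φ A (B * ζ)).card) := by gcongr
      _ ≤ t * ((4 * t ^ 2) * (sols φ φ A (B * ζ)).card) := by gcongr
      _ = (4 * t ^ 3) * (sols φ φ A (B * ζ)).card := by ring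
  have h3 : (1 : ℝ) ≤ t ^ 3 := one_le_pow₀ ht1
  have hst := structure_thm φ hφ A (B * ζ) hA (4 * t ^ 3) (by linarith) hT (by
    calc (2 : ℝ) ^ 102 * (4 * t ^ 3) ^ 82 = 4 ^ 133 * t ^ 246 := by
          rw [mul_pow, ← pow_mul, ← mul_assoc]
          norm_num
      _ < _ := hbig)
  calc n ≤ 4 * (4 * t ^ 3) * (fixs φ).card := hst
    _ = 16 * t ^ 3 * (fixs φ).card := by ring

theorem final_numeric (t n m Y N D : ℝ) (ht : 2 ≤ t) (hn : 0 < n) (hm : 0 < m) (hm1 : 1 ≤ m)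
    (hmt : t ^ 2 ≤ m) (hN : n ≤ t * N) (hNY : N ≤ Y + m) (hYh : 2 * Y ≤ n) (hn32 : 32 < n)
    (hn2 : 32 * m ^ 2 < n) (hy3 : (n - 1 - Y) ^ 2 + m * Y ^ 2 ≤ m * (n + D))
    (hDD : m * D = n ^ 2) : False := by
  have htpos : 0 < t := by linarith
  have htY : n - t * m ≤ t * Y := by
    have h1 : t * N ≤ t * (Y + m) := mul_le_mul_of_nonneg_left hNY htpos.le
    have h2 : t * (Y + m) = t * Y + t * m := by ring
    linarith
  have htm' : t ≤ m := by nlinarith
  have htm : t * m ≤ n := by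
    have h1 : t * m ≤ m * m := mul_le_mul_of_nonneg_right htm' hm.le
    have h2 : m * m ≤ 32 * m ^ 2 := by nlinarith
    linarith
  have h1 : (n - t * m) ^ 2 ≤ (t * Y) ^ 2 := by
    apply pow_le_pow_left₀ _ htY
    linarith
  have h2 : n ^ 2 - 2 * t * m * n ≤ t ^ 2 * Y ^ 2 := by
    have e1 : (n - t * m) ^ 2 = n ^ 2 - 2 * t * m * n + (t * m) ^ 2 := by ring
    have e2 : (t * Y) ^ 2 = t ^ 2 * Y ^ 2 := by ring
    have e3 : 0 ≤ (t * m) ^ 2 := sq_nonneg _
    linarith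
  have h3 : m * n ^ 2 - 2 * t * m ^ 2 * n ≤ t ^ 2 * (m * Y ^ 2) := by
    have := mul_le_mul_of_nonneg_left h2 hm.le
    calc m * n ^ 2 - 2 * t * m ^ 2 * n = m * (n ^ 2 - 2 * t * m * n) := by ring
      _ ≤ m * (t ^ 2 * Y ^ 2) := this
      _ = t ^ 2 * (m * Y ^ 2) := by ring
  have h4 : (n - 1 - Y) ^ 2 ≤ m * n + n ^ 2 - m * Y ^ 2 := by
    have e1 : m * (n + D) = m * n + m * D := by ring
    linarith
  have h5 : t ^ 2 * (n - 1 - Y) ^ 2 ≤ t ^ 2 * (m * n) + 2 * t * m ^ 2 * n := by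
    have e1 : t ^ 2 * (n - 1 - Y) ^ 2 ≤ t ^ 2 * (m * n + n ^ 2 - m * Y ^ 2) :=
      mul_le_mul_of_nonneg_left h4 (sq_nonneg t)
    have e2 : t ^ 2 * n ^ 2 ≤ m * n ^ 2 := mul_le_mul_of_nonneg_right hmt (sq_nonneg n)
    have e3 : t ^ 2 * (m * n + n ^ 2 - m * Y ^ 2) =
      t ^ 2 * (m * n) + t ^ 2 * n ^ 2 - t ^ 2 * (m * Y ^ 2) := by ring
    linarith
  have h6 : (n / 4) ^ 2 ≤ (n - 1 - Y) ^ 2 := by
    apply pow_le_pow_left₀ (by positivity)
    linarith
  have h7 : 2 * t * m ^ 2 * n ≤ t ^ 2 * (m ^ 2 * n) := by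
    have e0 : 0 ≤ t * (m ^ 2 * n) := by positivity
    calc 2 * t * m ^ 2 * n = 2 * (t * (m ^ 2 * n)) := by ring
      _ ≤ t * (t * (m ^ 2 * n)) := mul_le_mul_of_nonneg_right ht e0
      _ = t ^ 2 * (m ^ 2 * n) := by ring
  have h8 : (n / 4) ^ 2 ≤ m * n + m ^ 2 * n := by
    have e1 : t ^ 2 * (n / 4) ^ 2 ≤ t ^ 2 * (n - 1 - Y) ^ 2 :=
      mul_le_mul_of_nonneg_left h6 (sq_nonneg t)
    have : t ^ 2 * (n / 4) ^ 2 ≤ t ^ 2 * (m * n + m ^ 2 * n) := by
      have e2 : t ^ 2 * (m * n + m ^ 2 * n) = t ^ 2 * (m * n) + t ^ 2 * (m ^ 2 * n) := by ring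
      linarith
    exact le_of_mul_le_mul_left this (by positivity)
  have h9 : n * n ≤ (32 * m ^ 2) * n := by
    have e1 : m ≤ m ^ 2 := by nlinarith
    have e2 : m * n ≤ m ^ 2 * n := mul_le_mul_of_nonneg_right e1 hn.le
    have e3 : (n / 4) ^ 2 = n * n / 16 := by ring
    have e4 : (32 * m ^ 2) * n = 32 * (m ^ 2 * n) := by ring
    linarith
  have h10 : n ≤ 32 * m ^ 2 := le_of_mul_le_mul_right h9 hn
  linarith

theorem core (φ ψ : ZMod p →*₀ ZMod p) (hφ : Function.Injective φ)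
    (hψ : Function.Injective ψ) (hp : p ≠ 2) (A B : ZMod p) (hA : A ≠ 0) (hB : B ≠ 0)
    (hidφ : ∃ x, φ x ≠ x) (hidψ : ∃ x, ψ x ≠ x) (t : ℕ) (ht2 : 2 ≤ t)
    (ht : ∀ q : ℕ, q.Prime → 2 * q ∣ p - 1 → t ≤ q)
    (hbig : (4 : ℝ) ^ 133 * (t : ℝ) ^ 246 < ((p - 1 : ℕ) : ℝ)) :
    t * (sols φ ψ A B).card < p - 1 := by
  by_contra hcon
  have hcon' : p - 1 ≤ t * (sols φ ψ A B).card := not_lt.1 hcon
  set n : ℝ := ((p - 1 : ℕ) : ℝ) with hn
  set N : ℝ := ((sols φ ψ A B).card : ℝ) with hNd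
  have hN : n ≤ t * N := by rw [hn, hNd]; exact_mod_cast hcon'
  have ht2R : (2 : ℝ) ≤ t := by exact_mod_cast ht2
  have htpos : (0 : ℝ) < t := by linarith
  have ht1 : (1 : ℝ) ≤ t := by linarith
  have hF1 := half_core φ ψ hφ hψ hp A B hA hB t ht2R hbig hN
  have hF2 := half_core ψ φ hψ hφ hp B A hB hA t ht2R hbig (by
    rw [← card_sols_swap φ ψ A B]; exact hN)
  rw [← hn] at hF1 hF2
  obtain ⟨y, hy1, hy2, hy3, hy4⟩ := class_count φ ψ A B hA hB
  set D1 : ℝ := ((fixs φ).card : ℝ) with hD1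
  set D2 : ℝ := ((fixs ψ).card : ℝ) with hD2
  set k1 : ℝ := ((ratios φ (MonoidWithZeroHom.id _)).card : ℝ) with hk1
  set k2 : ℝ := ((ratios ψ (MonoidWithZeroHom.id _)).card : ℝ) with hk2
  have hkD1 : k1 * D1 = n := by rw [hk1, hD1, hn]; exact_mod_cast card_ratios_fixs φ
  have hkD2 : k2 * D2 = n := by rw [hk2, hD2, hn]; exact_mod_cast card_ratios_fixs ψ
  have htk1 : (t : ℝ) ≤ k1 := by
    rw [hk1]; exact_mod_cast t_le_index φ hφ hp hidφ t ht
  have htk2 : (t : ℝ) ≤ k2 := by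
    rw [hk2]; exact_mod_cast t_le_index ψ hψ hp hidψ t ht
  have hnpos : 0 < n := by
    have : (0 : ℝ) < (4 : ℝ) ^ 133 * (t : ℝ) ^ 246 := by positivity
    linarith
  have hD1pos : 0 < D1 := by
    by_contra h
    have : D1 = 0 := le_antisymm (not_lt.1 h) (Nat.cast_nonneg _)
    rw [this, mul_zero] at hkD1
    linarith
  have hD2pos : 0 < D2 := by
    by_contra h
    have : D2 = 0 := le_antisymm (not_lt.1 h) (Nat.cast_nonneg _)
    rw [this, mul_zero] at hkD2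
    linarith
  have hk1u : k1 ≤ 16 * (t : ℝ) ^ 3 := by
    have : k1 * D1 ≤ (16 * (t : ℝ) ^ 3) * D1 := by rw [hkD1]; exact hF1
    exact le_of_mul_le_mul_right this hD1pos
  have hk2u : k2 ≤ 16 * (t : ℝ) ^ 3 := by
    have : k2 * D2 ≤ (16 * (t : ℝ) ^ 3) * D2 := by rw [hkD2]; exact hF2
    exact le_of_mul_le_mul_right this hD2pos
  set m : ℝ := k1 * k2 with hm
  have hmpos : 0 < m := by
    have h1 : 0 < k1 := lt_of_lt_of_le htpos htk1
    have h2 : 0 < k2 := lt_of_lt_of_le htpos htk2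
    positivity
  have hmt : (t : ℝ) ^ 2 ≤ m := by
    rw [sq, hm]; exact mul_le_mul htk1 htk2 htpos.le (by linarith)
  have hm1 : 1 ≤ m := by nlinarith
  have hmu : m ≤ 256 * (t : ℝ) ^ 6 := by
    calc m = k1 * k2 := rfl
      _ ≤ (16 * (t : ℝ) ^ 3) * (16 * (t : ℝ) ^ 3) := by gcongr
      _ = 256 * (t : ℝ) ^ 6 := by ring
  set Y : ℝ := (y : ℝ) with hY
  have hYnn : 0 ≤ Y := Nat.cast_nonneg _
  have hYD : Y ≤ D1 := by rw [hY, hD1]; exact_mod_cast hy1
  have hNY : N ≤ Y + m := by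
    rw [hNd, hY, hm, hk1, hk2]; exact_mod_cast hy2
  -- n large
  have hn2 : 32 * m ^ 2 < n := by
    have h1 : 32 * m ^ 2 ≤ 32 * (256 * (t : ℝ) ^ 6) ^ 2 := by gcongr
    have h2 : 32 * (256 * (t : ℝ) ^ 6) ^ 2 = 2 ^ 21 * (t : ℝ) ^ 12 := by ring
    have h3 : (2 : ℝ) ^ 21 * (t : ℝ) ^ 12 ≤ 4 ^ 133 * (t : ℝ) ^ 246 := by
      have h4 : (t : ℝ) ^ 12 ≤ (t : ℝ) ^ 246 := pow_le_pow_right₀ ht1 (by norm_num)
      have h5 : (2 : ℝ) ^ 21 ≤ 4 ^ 133 := by norm_num
      gcongr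
    linarith
  have hn32 : 32 < n := by nlinarith
  have hpn : ((p - 2 : ℕ) : ℝ) = n - 1 := by
    rw [hn]
    have : p - 2 + 1 = p - 1 := by
      have h1 : (32 : ℝ) < ((p - 1 : ℕ) : ℝ) := hn32
      have h2 : 32 < p - 1 := by exact_mod_cast h1
      omega
    have h3 : ((p - 2 + 1 : ℕ) : ℝ) = ((p - 1 : ℕ) : ℝ) := by rw [this]
    push_cast at h3
    push_cast
    linarith
  have hy3R : (n - 1 - Y) ^ 2 + m * Y ^ 2 ≤ m * (n + D1 * D2) := by
    have h1 : (((p - 2 - y) ^ 2 + (ratios φ (MonoidWithZeroHom.id _)).card *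
        (ratios ψ (MonoidWithZeroHom.id _)).card * y ^ 2 : ℕ) : ℝ) ≤
        (((ratios φ (MonoidWithZeroHom.id _)).card *
        (ratios ψ (MonoidWithZeroHom.id _)).card *
          ((p - 1) + (fixs φ).card * (fixs ψ).card) : ℕ) : ℝ) := by exact_mod_cast hy3
    rw [Nat.cast_add, Nat.cast_mul, Nat.cast_mul, Nat.cast_pow, Nat.cast_pow,
      Nat.cast_sub hy4, hpn] at h1
    rw [hm, hk1, hk2, hY, hD1, hD2]
    calc _ ≤ _ := h1
      _ = _ := by push_cast; rw [hn]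
  have hDD : m * (D1 * D2) = n ^ 2 := by
    rw [hm]
    calc k1 * k2 * (D1 * D2) = (k1 * D1) * (k2 * D2) := by ring
      _ = n ^ 2 := by rw [hkD1, hkD2]; ring
  exact final_numeric t n m Y N (D1 * D2) ht2R hnpos hmpos hm1 hmt hN hNY (by
    calc 2 * Y ≤ 2 * D1 := by linarith
      _ ≤ k1 * D1 := by
        apply mul_le_mul_of_nonneg_right _ hD1pos.le
        linarith
      _ = n := hkD1) hn32 hn2 hy3R hDD

end Pool.Agent.Helper459_costas
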