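import Mathlib

namespace Pool.Agent.Helper459_costas

/-- The cross-correlation of two maps `f, g` of `{1, …, n}` at `(u, v)`: the number of common
points of the sets `{(f i + v, i + u) : 1 ≤ i ≤ n}` and `{(g i, i) : 1 ≤ i ≤ n}` in the plane of
integer points (ordinary addition). -/
def crossCorr (n : ℕ) (f g : ℕ → ℕ) (u v : ℤ) : ℕ :=
  (((Finset.Icc 1 n).image fun i => ((f i : ℤ) + v, (i : ℤ) + u)) ∩
    ((Finset.Icc 1 n).image fun i => ((g i : ℤ), (i : ℤ)))).card

/-- `f` is, on `{1, …, p - 1}`, the Welch permutation built from the primitive root `α` modulo `p`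
and the shift `c ∈ {0, …, p - 2}`: `f i ≡ α ^ (i - 1 + c)` with `1 ≤ f i ≤ p - 1`. -/
def IsWelch (p : ℕ) (α : ZMod p) (c : ℕ) (f : ℕ → ℕ) : Prop :=
  IsPrimitiveRoot α (p - 1) ∧ c ≤ p - 2 ∧
    ∀ i ∈ Finset.Icc 1 (p - 1), f i ∈ Finset.Icc 1 (p - 1) ∧ (f i : ZMod p) = α ^ (i - 1 + c)

/-- `f` is, on `{1, …, p - 2}`, a Golomb permutation over the field with `p` elements:
`α ^ i + β ^ (f i) = 1` with `1 ≤ f i ≤ p - 2`, for some primitive roots `α, β` modulo `p`. -/
def IsGolomb (p : ℕ) (f : ℕ → ℕ) : Prop :=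
  ∃ α β : ZMod p, IsPrimitiveRoot α (p - 1) ∧ IsPrimitiveRoot β (p - 1) ∧
    ∀ i ∈ Finset.Icc 1 (p - 2), f i ∈ Finset.Icc 1 (p - 2) ∧ α ^ i + β ^ f i = 1

/-- All values of cross-correlations of two Welch permutations for `p` built from different
primitive roots. The maximum of this set is `Ψ_{W_1}(p)`. -/
def welchValues (p : ℕ) : Set ℕ :=
  {m | ∃ (α β : ZMod p) (c d : ℕ) (f g : ℕ → ℕ) (u v : ℤ), α ≠ β ∧ IsWelch p α c f ∧
    IsWelch p β d g ∧ m = crossCorr (p - 1) f g u v}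

/-- All values of cross-correlations of two distinct Golomb permutations over the field with `p`
elements. The maximum of this set is `Ψ_{G_2}(p)`. -/
def golombValues (p : ℕ) : Set ℕ :=
  {m | ∃ (f g : ℕ → ℕ) (u v : ℤ), IsGolomb p f ∧ IsGolomb p g ∧
    (∃ i ∈ Finset.Icc 1 (p - 2), f i ≠ g i) ∧ m = crossCorr (p - 2) f g u v}

end Pool.Agent.Helper459_costas
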