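import Mathlib
import Pool.Agent.Helper459_costas.Core
import Pool.Agent.Helper459_costas.Defs

open Finset

namespace Pool.Agent.Helper459_costas

/-- The cross-correlation is at most the size of a set that contains all matching positions. -/
theorem crossCorr_le (n : ℕ) (f g : ℕ → ℕ) (u v : ℤ) (C : Finset ℕ)
    (hC : ∀ i ∈ Icc 1 n, ∀ j ∈ Icc 1 n, (j : ℤ) = i + u → (g j : ℤ) = f i + v → i ∈ C) :
    crossCorr n f g u v ≤ C.card := by
  classical
  have hsub : ((Icc 1 n).image fun i => ((f i : ℤ) + v, (i : ℤ) + u)) ∩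
      ((Icc 1 n).image fun i => ((g i : ℤ), (i : ℤ))) ⊆
      C.image fun i => ((f i : ℤ) + v, (i : ℤ) + u) := by
    intro z hz
    rw [mem_inter, mem_image, mem_image] at hz
    obtain ⟨⟨i, hi, hi'⟩, ⟨j, hj, hj'⟩⟩ := hz
    rw [mem_image]
    refine ⟨i, ?_, hi'⟩
    rw [← hi'] at hj'
    rw [Prod.mk.injEq] at hj'
    exact hC i hi j hj hj'.2 hj'.1
  exact (card_le_card hsub).trans card_image_le

/-- The cross-correlation is at least the size of a set of matching positions. -/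
theorem le_crossCorr (n : ℕ) (f g : ℕ → ℕ) (C : Finset ℕ)
    (hC : ∀ i ∈ C, i ∈ Icc 1 n ∧ g i = f i) :
    C.card ≤ crossCorr n f g 0 0 := by
  classical
  refine card_le_card_of_injOn (fun i => ((f i : ℤ), (i : ℤ))) ?_ ?_
  · intro i hi
    obtain ⟨h1, h2⟩ := hC i hi
    rw [mem_coe, mem_inter, mem_image, mem_image]
    refine ⟨⟨i, h1, by simp⟩, ⟨i, h1, by simp [h2]⟩⟩
  · intro i _ j _ h
    simp only [Prod.mk.injEq] at h
    exact_mod_cast h.2

variable {p : ℕ} [Fact p.Prime]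

/-- A power map carrying one primitive root to another. -/
theorem exists_hom (hp : 3 ≤ p) {α γ : ZMod p} (hα : IsPrimitiveRoot α (p - 1))
    (hγ : IsPrimitiveRoot γ (p - 1)) :
    ∃ φ : ZMod p →*₀ ZMod p, Function.Injective φ ∧ φ α = γ := by
  have hn0 : p - 1 ≠ 0 := by omega
  have : NeZero (p - 1) := ⟨hn0⟩
  obtain ⟨r, hr, hrc, hrα⟩ := hα.isPrimitiveRoot_iff.1 hγ
  have hr0 : r ≠ 0 := by
    rintro rfl
    have := (Nat.coprime_zero_left _).1 hrc
    omega
  refine ⟨powMonoidWithZeroHom hr0, ?_, ?_⟩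
  · intro x y hxy
    simp only [coe_powMonoidWithZeroHom] at hxy
    by_cases hx : x = 0
    · subst hx
      rw [zero_pow hr0] at hxy
      exact (pow_eq_zero_iff hr0).1 hxy.symm |>.symm
    · have hy : y ≠ 0 := by
        rintro rfl
        rw [zero_pow hr0] at hxy
        exact hx ((pow_eq_zero_iff hr0).1 hxy)
      have h1 : (x / y) ^ r = 1 := by
        rw [div_pow, hxy, div_self (pow_ne_zero _ hy)]
      have h2 : (x / y) ^ (p - 1) = 1 := ZMod.pow_card_sub_one_eq_one (div_ne_zero hx hy)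
      have h3 : (x / y) ^ (Nat.gcd r (p - 1)) = 1 := by
        rw [← orderOf_dvd_iff_pow_eq_one] at h1 h2 ⊢
        exact Nat.dvd_gcd h1 h2
      rw [hrc, pow_one] at h3
      exact (div_eq_one_iff_eq hy).1 h3
  · simp only [coe_powMonoidWithZeroHom]
    exact hrα

theorem prim_ne_zero (hp : 3 ≤ p) {α : ZMod p} (hα : IsPrimitiveRoot α (p - 1)) : α ≠ 0 :=
  hα.ne_zero (by omega)

theorem pow_inj_range {α : ZMod p} (hα : IsPrimitiveRoot α (p - 1))
    {a i j : ℕ} (hi : i ∈ Icc 1 (p - 1)) (hj : j ∈ Icc 1 (p - 1)) (hp : 3 ≤ p)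
    (h : α ^ (i - 1 + a) = α ^ (j - 1 + a)) : i = j := by
  rw [mem_Icc] at hi hj
  rw [pow_add, pow_add] at h
  have h1 := mul_right_cancel₀ (pow_ne_zero _ (prim_ne_zero hp hα)) h
  have := hα.pow_inj (by omega) (by omega) h1
  omega

theorem zpow_shift {γ : ZMod p} (hγ : γ ≠ 0) {i j : ℕ} {u : ℤ} (h : (j : ℤ) = i + u) :
    γ ^ j = γ ^ u * γ ^ i := by
  rw [← zpow_natCast γ j, h, zpow_add₀ hγ, zpow_natCast]; ring

theorem card_lt_of_mul {t a n : ℕ} (h : t ∣ n) (h1 : t * a < n) : a ≤ n / t - 1 := by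
  obtain ⟨b, rfl⟩ := h
  have ht : 0 < t := by
    rcases Nat.eq_zero_or_pos t with rfl | h
    · simp at h1
    · exact h
  rw [Nat.mul_div_cancel_left _ ht]
  have := Nat.lt_of_mul_lt_mul_left h1
  omega

theorem card_le_of_mul {t a n : ℕ} (ht : 0 < t) (h1 : t * a ≤ n) : a ≤ n / t := by
  rw [Nat.le_div_iff_mul_le ht, mul_comm]; exact h1

/-- The bound for solutions of an affine equation. -/
theorem affine_lt (t : ℕ) (ht : 2 ≤ t) (hbig : 2 * t ^ 2 ≤ p - 1) {N : ℕ}
    (h : N * N ≤ N + (p - 1)) : t * N < p - 1 := by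
  by_contra hcon
  have h1 : p - 1 ≤ t * N := not_lt.1 hcon
  set n := p - 1 with hn
  have hN : 0 < N := by
    rcases Nat.eq_zero_or_pos N with h0 | h0
    · rw [h0, mul_zero] at h1
      have : 0 < t ^ 2 := by positivity
      omega
    · exact h0
  have h2 : N * N ≤ (1 + t) * N := by
    have : (1 + t) * N = N + t * N := by ring
    omega
  have h3 : N ≤ 1 + t := Nat.le_of_mul_le_mul_right h2 hN
  have h4 : t * N ≤ t * (1 + t) := Nat.mul_le_mul_left _ h3
  nlinarith

/-- Elementary count for equal second primitive roots. -/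
theorem axis_bound (hp : 3 ≤ p) {α γ : ZMod p} (hα : IsPrimitiveRoot α (p - 1))
    (hγ : IsPrimitiveRoot γ (p - 1)) (hne : α ≠ γ) (t : ℕ) (ht2 : 2 ≤ t) (htd : 2 * t ∣ p - 1)
    (ht : ∀ q : ℕ, q.Prime → 2 * q ∣ p - 1 → t ≤ q) (hbig : 2 * t ^ 2 ≤ p - 1) (u : ℤ)
    (C : Finset ℕ) (hC : ∀ i ∈ C, i ∈ Icc 1 (p - 2) ∧ 1 ≤ (i : ℤ) + u ∧ (i : ℤ) + u ≤ (p - 2 : ℕ) ∧
      γ ^ ((i : ℤ) + u) = α ^ i) :
    C.card ≤ (p - 1) / t - 1 := by
  classical
  have hα0 := prim_ne_zero hp hα
  have hγ0 := prim_ne_zero hp hγ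
  have htd' : t ∣ p - 1 := (Dvd.intro_left 2 rfl).trans htd
  obtain ⟨m, hm⟩ := htd
  -- exponents where the two powers agree
  have hex : ∃ e : ℕ, 0 < e ∧ γ ^ e = α ^ e := ⟨p - 1, by omega, by
    rw [hγ.pow_eq_one, hα.pow_eq_one]⟩
  set e := Nat.find hex with he
  obtain ⟨he0, he1⟩ := Nat.find_spec hex
  rw [← he] at he0 he1
  have hmin : ∀ k : ℕ, 0 < k → γ ^ k = α ^ k → e ≤ k := fun k h1 h2 => Nat.find_min' hex ⟨h1, h2⟩
  have hdvd : ∀ k : ℕ, γ ^ k = α ^ k → e ∣ k := by
    intro k hk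
    have h1 : γ ^ (k % e) = α ^ (k % e) := by
      have h2 : γ ^ (e * (k / e)) = α ^ (e * (k / e)) := by rw [pow_mul, pow_mul, he1]
      have h3 := Nat.div_add_mod k e
      rw [← h3, pow_add, pow_add, h2] at hk
      exact mul_left_cancel₀ (pow_ne_zero _ hα0) hk
    rcases Nat.eq_zero_or_pos (k % e) with h0 | h0
    · exact Nat.dvd_of_mod_eq_zero h0
    · exact absurd (hmin _ h0 h1) (not_le.2 (Nat.mod_lt _ he0))
  -- both half powers are minus one
  have hhalf : ∀ δ : ZMod p, IsPrimitiveRoot δ (p - 1) → δ ^ (t * m) = -1 := by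
    intro δ hδ
    have h1 : δ ^ (t * m) * δ ^ (t * m) = 1 := by
      rw [← pow_add, ← two_mul, ← mul_assoc, ← hm, hδ.pow_eq_one]
    rcases mul_self_eq_one_iff.1 h1 with h | h
    · exfalso
      have h2 := hδ.dvd_of_pow_eq_one _ h
      have h3 : 0 < t * m := by
        rcases Nat.eq_zero_or_pos (t * m) with h0 | h0
        · rw [mul_assoc, h0] at hm; omega
        · exact h0
      have h4 := Nat.le_of_dvd h3 h2
      rw [mul_assoc] at hm
      omega
    · exact h
  have hedvd : e ∣ t * m := hdvd _ (by rw [hhalf γ hγ, hhalf α hα])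
  have he_ne : e ≠ 1 := by
    intro h1
    rw [h1, pow_one, pow_one] at he1
    exact hne he1.symm
  have hte : t ≤ e := by
    obtain ⟨q, hq, hqe⟩ := Nat.exists_prime_and_dvd he_ne
    have h1 : 2 * q ∣ p - 1 := by
      rw [hm, mul_assoc]
      exact mul_dvd_mul_left 2 (hqe.trans hedvd)
    exact (ht q hq h1).trans (Nat.le_of_dvd he0 hqe)
  have hen : e ∣ p - 1 := by
    rw [hm, mul_assoc]; exact Dvd.dvd.mul_left hedvd 2
  -- elements of `C` are congruent modulo `e`
  have hcong : ∀ i ∈ C, ∀ j ∈ C, i ≤ j → e ∣ j - i := by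
    intro i hi j hj hij
    obtain ⟨_, _, _, h1⟩ := hC i hi
    obtain ⟨_, _, _, h2⟩ := hC j hj
    apply hdvd
    have h3 : (j : ℤ) + u = ((j - i : ℕ) : ℤ) + ((i : ℤ) + u) := by
      push_cast [Nat.cast_sub hij]; ring
    rw [h3, zpow_add₀ hγ0, h1, zpow_natCast] at h2
    have h4 : α ^ j = α ^ (j - i) * α ^ i := by rw [← pow_add, Nat.sub_add_cancel hij]
    rw [h4] at h2
    exact mul_right_cancel₀ (pow_ne_zero _ hα0) h2
  set n := p - 1 with hn
  -- at most `n / e` elements
  have hinj : Set.InjOn (fun i => (i - 1) / e) (C : Set ℕ) := by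
    intro i hi j hj hij
    rw [mem_coe] at hi hj
    simp only at hij
    have hi1 := (mem_Icc.1 (hC i hi).1).1
    have hj1 := (mem_Icc.1 (hC j hj).1).1
    wlog hle : i ≤ j generalizing i j with H
    · exact (H hj hi hij.symm hj1 hi1 (le_of_not_ge hle)).symm
    obtain ⟨k, hk⟩ := hcong i hi j hj hle
    have h1 : j - 1 = (i - 1) + e * k := by omega
    rw [h1, Nat.add_mul_div_left _ _ he0] at hij
    have hk0 : k = 0 := by omega
    rw [hk0, mul_zero] at hk
    omega
  have hmaps : ∀ i ∈ C, (i - 1) / e ∈ range (n / e) := by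
    intro i hi
    rw [mem_range]
    have hi2 := (mem_Icc.1 (hC i hi).1)
    obtain ⟨k, hk⟩ := hen
    rw [hk, Nat.mul_div_cancel_left _ he0]
    rw [Nat.div_lt_iff_lt_mul he0]
    rw [mul_comm, ← hk]
    omega
  have hcard : C.card ≤ n / e := by
    rw [← card_range (n / e)]
    exact card_le_card_of_injOn _ hmaps hinj
  rcases Nat.lt_or_ge t e with hlt | hge
  · -- strict inequality of indices
    obtain ⟨k, hk⟩ := hen
    have h1 : n / e = k := by rw [hk, Nat.mul_div_cancel_left _ he0]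
    rw [h1] at hcard
    have hk0 : 0 < k := by
      rcases Nat.eq_zero_or_pos k with h0 | h0
      · rw [h0, mul_zero] at hk; omega
      · exact h0
    apply card_lt_of_mul htd'
    calc t * C.card ≤ t * k := Nat.mul_le_mul_left _ hcard
      _ < e * k := Nat.mul_lt_mul_of_pos_right hlt hk0
      _ = n := hk.symm
  · have hEq : e = t := le_antisymm hge hte
    rw [hEq] at hcard hinj hmaps he1 hcong hdvd
    by_contra hcon
    have hcard2 : C.card = n / t := by omega
    have himg : C.image (fun i => (i - 1) / t) = range (n / t) := by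
      apply eq_of_subset_of_card_le
      · intro x hx
        obtain ⟨i, hi, rfl⟩ := mem_image.1 hx
        exact hmaps i hi
      · rw [card_range, card_image_of_injOn hinj, hcard2]
    have hnt : n / t * t = n := Nat.div_mul_cancel htd'
    have hpos : 0 < n / t := by
      rcases Nat.eq_zero_or_pos (n / t) with h0 | h0
      · rw [h0, zero_mul] at hnt; omega
      · exact h0
    obtain ⟨i, hi, hi0⟩ := mem_image.1 (himg ▸ (mem_range.2 hpos) :
      0 ∈ C.image (fun i => (i - 1) / t))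
    obtain ⟨j, hj, hj0⟩ := mem_image.1 (himg ▸ (mem_range.2 (by omega : n / t - 1 < n / t)) :
      n / t - 1 ∈ C.image (fun i => (i - 1) / t))
    have htpos : 0 < t := by omega
    have hi1 := mem_Icc.1 (hC i hi).1
    have hj1 := mem_Icc.1 (hC j hj).1
    have hit : i ≤ t := by
      have := (Nat.div_eq_zero_iff).1 hi0
      omega
    have hjt : n - t + 1 ≤ j := by
      have h1 : (n / t - 1) * t ≤ j - 1 := by
        rw [← hj0]; exact Nat.div_mul_le_self _ _
      have h2 : (n / t - 1) * t = n - t := by rw [Nat.sub_mul, hnt, one_mul]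
      omega
    obtain ⟨_, hiu1, hiu2, hie⟩ := hC i hi
    obtain ⟨_, hju1, hju2, hje⟩ := hC j hj
    have hnt2 : t * t < n := by nlinarith
    -- γ ^ (t u) = 1
    have h1 : γ ^ ((t : ℤ) * u) = 1 := by
      have h2 : (γ ^ ((i : ℤ) + u)) ^ t = (α ^ i) ^ t := by rw [hie]
      rw [← zpow_natCast (γ ^ ((i : ℤ) + u)) t, ← zpow_mul] at h2
      have h3 : ((i : ℤ) + u) * t = ((t * i : ℕ) : ℤ) + t * u := by push_cast; ring
      rw [h3, zpow_add₀ hγ0, zpow_natCast, pow_mul, he1, ← pow_mul, ← pow_mul, mul_comm i t] at h2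
      exact mul_left_cancel₀ (pow_ne_zero _ hα0) (h2.trans (mul_one _).symm)
    have h2 : ((n : ℕ) : ℤ) ∣ t * u := (hγ.zpow_eq_one_iff_dvd _).1 h1
    have hu1 : u ≤ t - 1 := by
      have : (j : ℤ) + u ≤ ((p - 2 : ℕ) : ℤ) := hju2
      have e1 : ((p - 2 : ℕ) : ℤ) = n - 1 := by omega
      have e2 : (n : ℤ) - t + 1 ≤ j := by omega
      omega
    have hu2 : -(t - 1 : ℤ) ≤ u := by omega
    have hu0 : u = 0 := by
      have h4 : |(t : ℤ) * u| < n := by
        rw [abs_lt]
        have hn2 : (t : ℤ) * t < n := by exact_mod_cast hnt2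
        have htp : (0 : ℤ) < t := by exact_mod_cast htpos
        constructor
        · nlinarith
        · nlinarith
      have h5 := Int.eq_zero_of_abs_lt_dvd h2 h4
      rcases mul_eq_zero.1 h5 with h6 | h6
      · omega
      · exact h6
    rw [hu0, add_zero, zpow_natCast] at hie hje
    have hti : t ∣ i := hdvd i hie
    have htj : t ∣ j := hdvd j hje
    have h6 : t ∣ n - j := (Nat.dvd_sub htd' htj)
    have h7 : n - j < t := by omega
    have h8 : n - j = 0 := Nat.eq_zero_of_dvd_of_lt h6 h7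
    omega

end Pool.Agent.Helper459_costas
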