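import Mathlib
import Pool.Agent.Helper459_costas.Arrays

open Finset

namespace Pool.Agent.Helper459_costas

variable {p : ℕ} [Fact p.Prime]

/-- The case where one of the two pairs of primitive roots coincides. -/
theorem one_equal (hp : 3 ≤ p) {α β γ : ZMod p} (hα : IsPrimitiveRoot α (p - 1))
    (hβ : IsPrimitiveRoot β (p - 1))
    (hγ : IsPrimitiveRoot γ (p - 1)) (hne : α ≠ γ) (t : ℕ) (ht2 : 2 ≤ t) (htd : 2 * t ∣ p - 1)
    (ht : ∀ q : ℕ, q.Prime → 2 * q ∣ p - 1 → t ≤ q) (hbig : 2 * t ^ 2 ≤ p - 1) (u v : ℤ)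
    (C : Finset ℕ) (hC : ∀ i ∈ C, i ∈ Icc 1 (p - 2) ∧ 1 ≤ (i : ℤ) + u ∧ (i : ℤ) + u ≤ (p - 2 : ℕ) ∧
      ∃ k : ℕ, α ^ i + β ^ k = 1 ∧ γ ^ ((i : ℤ) + u) + β ^ ((k : ℤ) + v) = 1) :
    C.card ≤ (p - 1) / t - 1 := by
  classical
  have hα0 := prim_ne_zero hp hα
  have hβ0 := prim_ne_zero hp hβ
  have hγ0 := prim_ne_zero hp hγ
  by_cases hB : β ^ v = 1
  · refine axis_bound hp hα hγ hne t ht2 htd ht hbig u C fun i hi => ?_
    obtain ⟨h1, h2, h3, k, h4, h5⟩ := hC i hi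
    refine ⟨h1, h2, h3, ?_⟩
    rw [zpow_add₀ hβ0, hB, mul_one, zpow_natCast] at h5
    linear_combination h5 - h4
  · obtain ⟨φ, hφ, hφα⟩ := exists_hom hp hα hγ
    set Γ := C.image fun i => α ^ i with hΓ
    have hΓc : Γ.card = C.card := by
      apply card_image_of_injOn
      intro i hi j hj hij
      have h1 := mem_Icc.1 (hC i hi).1
      have h2 := mem_Icc.1 (hC j hj).1
      exact hα.pow_inj (by omega) (by omega) hij
    have hΓnz : Γ ⊆ nz p := by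
      intro x hx
      obtain ⟨i, _, rfl⟩ := mem_image.1 hx
      exact mem_nz.2 (pow_ne_zero _ hα0)
    have hA0 : γ ^ u ≠ 0 := zpow_ne_zero _ hγ0
    have hB0 : β ^ v ≠ 0 := zpow_ne_zero _ hβ0
    have hd : (1 - β ^ v) / γ ^ u ≠ 0 := div_ne_zero (sub_ne_zero.2 (Ne.symm hB)) hA0
    have haff := affine_bound φ hφ Γ hΓnz (β ^ v / γ ^ u) ((1 - β ^ v) / γ ^ u) hd (by
      intro g hg
      obtain ⟨i, hi, rfl⟩ := mem_image.1 hg
      obtain ⟨h1, h2, h3, k, h4, h5⟩ := hC i hi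
      rw [map_pow, hφα]
      rw [zpow_add₀ hγ0, zpow_add₀ hβ0, zpow_natCast, zpow_natCast] at h5
      field_simp
      linear_combination h5 - (β ^ v) * h4)
    rw [hΓc] at haff
    exact card_lt_of_mul ((Dvd.intro_left 2 rfl).trans htd)
      (affine_lt t ht2 hbig haff)

theorem golomb_upper (hp : 3 ≤ p) (t : ℕ) (ht2 : 2 ≤ t) (htd : 2 * t ∣ p - 1)
    (ht : ∀ q : ℕ, q.Prime → 2 * q ∣ p - 1 → t ≤ q) (hbig : 2 * t ^ 2 ≤ p - 1)
    (hcore : ∀ φ ψ : ZMod p →*₀ ZMod p, Function.Injective φ → Function.Injective ψ →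
      ∀ A B : ZMod p, A ≠ 0 → B ≠ 0 → (∃ x, φ x ≠ x) → (∃ x, ψ x ≠ x) →
      t * (sols φ ψ A B).card < p - 1)
    {f g : ℕ → ℕ} (hf : IsGolomb p f) (hg : IsGolomb p g)
    (hne : ∃ i ∈ Icc 1 (p - 2), f i ≠ g i) (u v : ℤ) :
    crossCorr (p - 2) f g u v ≤ (p - 1) / t - 1 := by
  obtain ⟨α, β, hα, hβ, hf⟩ := hf
  obtain ⟨γ, δ, hγ, hδ, hg⟩ := hg
  have hα0 := prim_ne_zero hp hα
  have hβ0 := prim_ne_zero hp hβ
  have hγ0 := prim_ne_zero hp hγ
  have hδ0 := prim_ne_zero hp hδ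
  obtain ⟨C, hCmem⟩ : ∃ C : Finset ℕ, ∀ i : ℕ, i ∈ C ↔ (i ∈ Icc 1 (p - 2) ∧
      ∃ j ∈ Icc 1 (p - 2), (j : ℤ) = (i : ℤ) + u ∧ (g j : ℤ) = (f i : ℤ) + v) := by
    classical
    exact ⟨(Icc 1 (p - 2)).filter _, fun i => mem_filter⟩
  have hle : crossCorr (p - 2) f g u v ≤ C.card := by
    apply crossCorr_le
    intro i hi j hj h1 h2
    exact (hCmem i).2 ⟨hi, j, hj, h1, h2⟩
  refine hle.trans ?_
  have hCprop : ∀ i ∈ C, i ∈ Icc 1 (p - 2) ∧ f i ∈ Icc 1 (p - 2) ∧ 1 ≤ (i : ℤ) + u ∧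
      (i : ℤ) + u ≤ (p - 2 : ℕ) ∧ 1 ≤ (f i : ℤ) + v ∧ (f i : ℤ) + v ≤ (p - 2 : ℕ) ∧
      α ^ i + β ^ f i = 1 ∧ γ ^ ((i : ℤ) + u) + δ ^ ((f i : ℤ) + v) = 1 := by
    intro i hi
    obtain ⟨hi1, j, hj, h1, h2⟩ := (hCmem i).1 hi
    obtain ⟨f1, f2⟩ := hf i hi1
    obtain ⟨g1, g2⟩ := hg j hj
    have hj' := mem_Icc.1 hj
    have g1' := mem_Icc.1 g1
    refine ⟨hi1, f1, ?_, ?_, ?_, ?_, f2, ?_⟩
    · rw [← h1]; exact_mod_cast hj'.1
    · rw [← h1]; exact_mod_cast hj'.2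
    · rw [← h2]; exact_mod_cast g1'.1
    · rw [← h2]; exact_mod_cast g1'.2
    · rw [← h1, ← h2, zpow_natCast, zpow_natCast]; exact g2
  have hfinj : Set.InjOn f (C : Set ℕ) := by
    intro i hi j hj hij
    obtain ⟨a1, _, _, _, _, _, a2, _⟩ := hCprop i hi
    obtain ⟨b1, _, _, _, _, _, b2, _⟩ := hCprop j hj
    rw [hij] at a2
    have h1 : α ^ i = α ^ j := by linear_combination a2 - b2
    have h2 := mem_Icc.1 a1
    have h3 := mem_Icc.1 b1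
    exact hα.pow_inj (by omega) (by omega) h1
  by_cases hαγ : α = γ
  · by_cases hβδ : β = δ
    · exfalso
      obtain ⟨i, hi, hi'⟩ := hne
      apply hi'
      obtain ⟨f1, f2⟩ := hf i hi
      obtain ⟨g1, g2⟩ := hg i hi
      rw [← hαγ, ← hβδ] at g2
      have h1 : β ^ f i = β ^ g i := by linear_combination f2 - g2
      have h2 := mem_Icc.1 f1
      have h3 := mem_Icc.1 g1
      exact hβ.pow_inj (by omega) (by omega) h1
    · rw [← card_image_of_injOn hfinj]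
      refine one_equal hp hβ hα hδ hβδ t ht2 htd ht hbig v u _ ?_
      intro k hk
      obtain ⟨i, hi, rfl⟩ := mem_image.1 hk
      obtain ⟨a1, a2, a3, a4, a5, a6, a7, a8⟩ := hCprop i hi
      refine ⟨a2, a5, a6, i, by rw [add_comm]; exact a7, ?_⟩
      rw [hαγ, add_comm]; exact a8
  · by_cases hβδ : β = δ
    · refine one_equal hp hα hβ hγ hαγ t ht2 htd ht hbig u v _ ?_
      intro i hi
      obtain ⟨a1, a2, a3, a4, a5, a6, a7, a8⟩ := hCprop i hi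
      refine ⟨a1, a3, a4, f i, a7, ?_⟩
      rw [hβδ]; exact a8
    · obtain ⟨φ, hφ, hφα⟩ := exists_hom hp hα hγ
      obtain ⟨ψ, hψ, hψβ⟩ := exists_hom hp hβ hδ
      have hc := hcore φ ψ hφ hψ (γ ^ u) (δ ^ v) (zpow_ne_zero _ hγ0) (zpow_ne_zero _ hδ0)
        ⟨α, by rw [hφα]; exact Ne.symm hαγ⟩ ⟨β, by rw [hψβ]; exact Ne.symm hβδ⟩
      have hcard : C.card ≤ (sols φ ψ (γ ^ u) (δ ^ v)).card := by
        refine card_le_card_of_injOn (fun i => α ^ i) ?_ ?_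
        · intro i hi
          obtain ⟨a1, a2, a3, a4, a5, a6, a7, a8⟩ := hCprop i hi
          rw [mem_coe, mem_sols]
          have h1 : 1 - α ^ i = β ^ f i := by linear_combination -a7
          refine ⟨pow_ne_zero _ hα0, ?_, ?_⟩
          · intro h2
            have h2' : α ^ i = 1 := h2
            rw [h2', sub_self] at h1
            exact pow_ne_zero _ hβ0 h1.symm
          · rw [h1, map_pow, map_pow, hφα, hψβ]
            rw [zpow_add₀ hγ0, zpow_add₀ hδ0, zpow_natCast, zpow_natCast] at a8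
            linear_combination a8
        · intro i hi j hj hij
          have h1 := mem_Icc.1 (hCprop i hi).1
          have h2 := mem_Icc.1 (hCprop j hj).1
          exact hα.pow_inj (by omega) (by omega) hij
      exact hcard.trans (card_lt_of_mul ((Dvd.intro_left 2 rfl).trans htd) hc)

theorem welch_upper (hp : 3 ≤ p) (t : ℕ) (ht2 : 2 ≤ t) (htd : 2 * t ∣ p - 1)
    (ht : ∀ q : ℕ, q.Prime → 2 * q ∣ p - 1 → t ≤ q) (hbig : 2 * t ^ 2 ≤ p - 1)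
    {α γ : ZMod p} {c d : ℕ} {f g : ℕ → ℕ} (hf : IsWelch p α c f) (hg : IsWelch p γ d g)
    (hne : α ≠ γ) (u v : ℤ) :
    crossCorr (p - 1) f g u v ≤ (p - 1) / t := by
  obtain ⟨hα, _, hf⟩ := hf
  obtain ⟨hγ, _, hg⟩ := hg
  have hα0 := prim_ne_zero hp hα
  have hγ0 := prim_ne_zero hp hγ
  obtain ⟨C, hCmem⟩ : ∃ C : Finset ℕ, ∀ i : ℕ, i ∈ C ↔ (i ∈ Icc 1 (p - 1) ∧
      ∃ j ∈ Icc 1 (p - 1), (j : ℤ) = (i : ℤ) + u ∧ (g j : ℤ) = (f i : ℤ) + v) := by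
    classical
    exact ⟨(Icc 1 (p - 1)).filter _, fun i => mem_filter⟩
  have hle : crossCorr (p - 1) f g u v ≤ C.card := by
    apply crossCorr_le
    intro i hi j hj h1 h2
    exact (hCmem i).2 ⟨hi, j, hj, h1, h2⟩
  refine hle.trans ?_
  obtain ⟨φ, hφ, hφα⟩ := exists_hom hp hα hγ
  set Γ := C.image fun i => α ^ (i - 1 + c) with hΓ
  have hΓc : Γ.card = C.card := by
    apply card_image_of_injOn
    intro i hi j hj hij
    exact pow_inj_range hα ((hCmem i).1 hi).1 ((hCmem j).1 hj).1 hp hij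
  have hΓnz : Γ ⊆ nz p := by
    intro x hx
    obtain ⟨i, _, rfl⟩ := mem_image.1 hx
    exact mem_nz.2 (pow_ne_zero _ hα0)
  set A : ZMod p := γ ^ (u + d - c : ℤ) with hA
  have hA0 : A ≠ 0 := zpow_ne_zero _ hγ0
  have hrel : ∀ x ∈ Γ, φ x = A⁻¹ * x + A⁻¹ * (v : ZMod p) := by
    intro x hx
    obtain ⟨i, hi, rfl⟩ := mem_image.1 hx
    obtain ⟨hi1, j, hj, h1, h2⟩ := (hCmem i).1 hi
    obtain ⟨_, f2⟩ := hf i hi1
    obtain ⟨_, g2⟩ := hg j hj
    have hi1' := mem_Icc.1 hi1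
    have hj1' := mem_Icc.1 hj
    have h3 : γ ^ (j - 1 + d) = A * γ ^ (i - 1 + c) := by
      rw [hA, ← zpow_natCast γ (j - 1 + d), ← zpow_natCast γ (i - 1 + c), ← zpow_add₀ hγ0]
      congr 1
      push_cast [Nat.cast_sub hi1'.1, Nat.cast_sub hj1'.1]
      rw [h1]; ring
    have h4 : ((g j : ℤ) : ZMod p) = ((f i + v : ℤ) : ZMod p) := by rw [h2]
    push_cast at h4
    rw [g2, f2, h3] at h4
    rw [map_pow, hφα]
    field_simp
    linear_combination h4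
  by_cases hv : (v : ZMod p) = 0
  · have h1 := linear_bound φ Γ hΓnz A⁻¹ (fun g hg => by rw [hrel g hg, hv, mul_zero, add_zero])
    rw [hΓc] at h1
    have hp2 : p ≠ 2 := by omega
    have h2 := t_le_index φ hφ hp2 ⟨α, by rw [hφα]; exact Ne.symm hne⟩ t ht
    have h3 := card_ratios_fixs φ
    apply card_le_of_mul (by omega)
    calc t * C.card ≤ (ratios φ (MonoidWithZeroHom.id _)).card * (fixs φ).card :=
          Nat.mul_le_mul h2 h1
      _ = p - 1 := h3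
  · have h1 := affine_bound φ hφ Γ hΓnz A⁻¹ (A⁻¹ * (v : ZMod p))
      (mul_ne_zero (inv_ne_zero hA0) hv) hrel
    rw [hΓc] at h1
    have h2 := affine_lt t ht2 hbig h1
    exact card_le_of_mul (by omega) h2.le

end Pool.Agent.Helper459_costas
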