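import Mathlib
import Pool.Agent.Helper459_costas.Upper

open Finset

namespace Pool.Agent.Helper459_costas

variable {p : ℕ} [Fact p.Prime]

theorem exists_prim (p : ℕ) [Fact p.Prime] : ∃ α : ZMod p, IsPrimitiveRoot α (p - 1) := by
  obtain ⟨g, hg⟩ := IsCyclic.exists_ofOrder_eq_natCard (α := (ZMod p)ˣ)
  refine ⟨(g : ZMod p), ?_⟩
  rw [IsPrimitiveRoot.coe_units_iff]
  have : Nat.card (ZMod p)ˣ = p - 1 := by
    rw [Nat.card_eq_fintype_card, ZMod.card_units]
  rw [← this, ← hg]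
  exact IsPrimitiveRoot.orderOf g

/-- An exponent whose power map fixes exactly the powers with exponent divisible by `t`. -/
theorem exists_exponent (t m : ℕ) (ht : t.Prime) :
    ∃ c : ℕ, ¬ t ∣ c ∧ Nat.Coprime (1 + c * (2 * m)) (2 * t * m) := by
  have key : ∀ c : ℕ, ¬ t ∣ 1 + c * (2 * m) → Nat.Coprime (1 + c * (2 * m)) (2 * t * m) := by
    intro c hc
    have h1 : Nat.Coprime (1 + c * (2 * m)) t := by
      rw [Nat.coprime_comm]
      exact (Nat.Prime.coprime_iff_not_dvd ht).2 hc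
    have h2 : Nat.Coprime (1 + c * (2 * m)) (2 * m) := by
      rw [Nat.coprime_add_mul_right_left]
      exact Nat.coprime_one_left _
    have h3 : 2 * t * m = t * (2 * m) := by ring
    rw [h3]
    exact Nat.Coprime.mul_right h1 h2
  by_cases h1 : t ∣ 1 + 1 * (2 * m)
  · have h2 : ¬ t ∣ 1 + 2 * (2 * m) := by
      intro h
      have h3 : t ∣ 2 * (1 + 1 * (2 * m)) := Dvd.dvd.mul_left h1 2
      have h4 : 2 * (1 + 1 * (2 * m)) = (1 + 2 * (2 * m)) + 1 := by ring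
      rw [h4] at h3
      have h5 := (Nat.dvd_add_right h).1 h3
      exact ht.one_lt.ne' (Nat.dvd_one.1 h5)
    refine ⟨2, ?_, key 2 h2⟩
    intro h
    have h3 : t = 2 := (Nat.prime_dvd_prime_iff_eq ht Nat.prime_two).1 h
    subst h3
    have h4 : 2 ∣ 1 * (2 * m) := ⟨m, by ring⟩
    have h5 := (Nat.dvd_add_left h4).1 h1
    omega
  · exact ⟨1, fun h => ht.one_lt.ne' (Nat.dvd_one.1 h), key 1 h1⟩

theorem exists_gamma (hp : 3 ≤ p) (t : ℕ) (ht : t.Prime) (htd : 2 * t ∣ p - 1) {α : ZMod p}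
    (hα : IsPrimitiveRoot α (p - 1)) :
    ∃ γ : ZMod p, IsPrimitiveRoot γ (p - 1) ∧ α ≠ γ ∧ ∀ i : ℕ, t ∣ i → γ ^ i = α ^ i := by
  obtain ⟨m, hm⟩ := htd
  obtain ⟨c, hc1, hc2⟩ := exists_exponent t m ht
  have hm0 : m ≠ 0 := by
    rintro rfl
    omega
  refine ⟨α ^ (1 + c * (2 * m)), ?_, ?_, ?_⟩
  · apply hα.pow_of_coprime
    rw [hm]; exact hc2
  · intro h
    rw [pow_add, pow_one] at h
    have h1 : α ^ (c * (2 * m)) = 1 := by
      have h2 : α * 1 = α * α ^ (c * (2 * m)) := by rw [mul_one]; exact h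
      exact (mul_left_cancel₀ (prim_ne_zero hp hα) h2).symm
    have h3 := hα.dvd_of_pow_eq_one _ h1
    rw [hm] at h3
    have h4 : t * (2 * m) ∣ c * (2 * m) := by
      have : 2 * t * m = t * (2 * m) := by ring
      rwa [this] at h3
    exact hc1 (Nat.dvd_of_mul_dvd_mul_right (by omega) h4)
  · rintro i ⟨k, rfl⟩
    rw [← pow_mul]
    have h1 : (1 + c * (2 * m)) * (t * k) = t * k + (p - 1) * (c * k) := by rw [hm]; ring
    rw [h1, pow_add, pow_mul α (p - 1), hα.pow_eq_one, one_pow, mul_one]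

theorem exists_golomb_value (hp : 3 ≤ p) {α β : ZMod p} (hα : IsPrimitiveRoot α (p - 1))
    (hβ : IsPrimitiveRoot β (p - 1)) (i : ℕ) (hi : i ∈ Icc 1 (p - 2)) :
    ∃ j ∈ Icc 1 (p - 2), α ^ i + β ^ j = 1 := by
  have hi' := mem_Icc.1 hi
  have hne : (1 : ZMod p) - α ^ i ≠ 0 := by
    intro h
    have h1 : α ^ i = 1 := by linear_combination -h
    have h2 := hα.dvd_of_pow_eq_one _ h1
    have h3 := Nat.le_of_dvd (by omega) h2
    omega
  have : NeZero (p - 1) := ⟨by omega⟩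
  obtain ⟨j, hj, hj'⟩ := hβ.eq_pow_of_pow_eq_one (ZMod.pow_card_sub_one_eq_one hne)
  refine ⟨j, ?_, by rw [hj']; ring⟩
  rw [mem_Icc]
  refine ⟨?_, by omega⟩
  rcases Nat.eq_zero_or_pos j with h0 | h0
  · exfalso
    rw [h0, pow_zero] at hj'
    have h1 : α ^ i = 0 := by linear_combination hj'
    exact pow_ne_zero _ (prim_ne_zero hp hα) h1
  · exact h0

theorem golomb_attained (hp : 5 ≤ p) (t : ℕ) (ht : t.Prime) (htd : 2 * t ∣ p - 1)
    (hup : ∀ f g : ℕ → ℕ, IsGolomb p f → IsGolomb p g → (∃ i ∈ Icc 1 (p - 2), f i ≠ g i) →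
      ∀ u v : ℤ, crossCorr (p - 2) f g u v ≤ (p - 1) / t - 1) :
    (p - 1) / t - 1 ∈ golombValues p := by
  classical
  have hp3 : 3 ≤ p := by omega
  obtain ⟨α, hα⟩ := exists_prim p
  obtain ⟨γ, hγ, hne, hagree⟩ := exists_gamma hp3 t ht htd hα
  have h1 := exists_golomb_value hp3 hα hα
  have h2 := exists_golomb_value hp3 hγ hα
  choose! f hf1 hf2 using h1
  choose! g hg1 hg2 using h2
  have hF : IsGolomb p f := ⟨α, α, hα, hα, fun i hi => ⟨hf1 i hi, hf2 i hi⟩⟩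
  have hG : IsGolomb p g := ⟨γ, α, hγ, hα, fun i hi => ⟨hg1 i hi, hg2 i hi⟩⟩
  have hd : ∃ i ∈ Icc 1 (p - 2), f i ≠ g i := by
    have h1mem : 1 ∈ Icc 1 (p - 2) := mem_Icc.2 ⟨le_refl _, by omega⟩
    refine ⟨1, h1mem, ?_⟩
    intro h
    have e1 := hf2 1 h1mem
    have e2 := hg2 1 h1mem
    rw [h] at e1
    apply hne
    linear_combination e1 - e2
  refine ⟨f, g, 0, 0, hF, hG, hd, ?_⟩
  apply le_antisymm _ (hup f g hF hG hd 0 0)
  have htn : t ∣ p - 1 := (Dvd.intro_left 2 rfl).trans htd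
  have htpos : 0 < t := ht.pos
  set C := (range ((p - 1) / t - 1)).image fun k => t * (k + 1) with hC
  have hCc : C.card = (p - 1) / t - 1 := by
    rw [hC, card_image_of_injective, card_range]
    intro a b hab
    simp only at hab
    have := Nat.eq_of_mul_eq_mul_left htpos hab
    omega
  rw [← hCc]
  apply le_crossCorr
  intro i hi
  obtain ⟨k, hk, rfl⟩ := mem_image.1 hi
  rw [mem_range] at hk
  have hmem : t * (k + 1) ∈ Icc 1 (p - 2) := by
    rw [mem_Icc]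
    have h3 : t * ((p - 1) / t) = p - 1 := Nat.mul_div_cancel' htn
    have h4 : t * (k + 1) ≤ t * ((p - 1) / t - 1) := Nat.mul_le_mul_left _ (by omega)
    have h5 : t * ((p - 1) / t - 1) + t = t * ((p - 1) / t) := by
      rw [← Nat.mul_succ]; congr 1; omega
    have h6 : 0 < t * (k + 1) := by positivity
    omega
  refine ⟨hmem, ?_⟩
  have e1 := hf2 _ hmem
  have e2 := hg2 _ hmem
  rw [hagree _ (Dvd.intro _ rfl)] at e2
  have e3 : α ^ g (t * (k + 1)) = α ^ f (t * (k + 1)) := by linear_combination e2 - e1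
  have m1 := mem_Icc.1 (hf1 _ hmem)
  have m2 := mem_Icc.1 (hg1 _ hmem)
  exact hα.pow_inj (by omega) (by omega) e3

theorem welch_attained (hp : 5 ≤ p) (t : ℕ) (ht : t.Prime) (htd : 2 * t ∣ p - 1)
    (hup : ∀ (α γ : ZMod p) (c d : ℕ) (f g : ℕ → ℕ), IsWelch p α c f → IsWelch p γ d g → α ≠ γ →
      ∀ u v : ℤ, crossCorr (p - 1) f g u v ≤ (p - 1) / t) :
    (p - 1) / t ∈ welchValues p := by
  classical
  have hp3 : 3 ≤ p := by omega
  obtain ⟨α, hα⟩ := exists_prim p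
  obtain ⟨γ, hγ, hne, hagree⟩ := exists_gamma hp3 t ht htd hα
  have hW : ∀ δ : ZMod p, IsPrimitiveRoot δ (p - 1) →
      IsWelch p δ 0 (fun i => (δ ^ (i - 1)).val) := by
    intro δ hδ
    refine ⟨hδ, by omega, fun i hi => ⟨?_, ?_⟩⟩
    · rw [mem_Icc]
      have h1 : (δ ^ (i - 1)).val < p := ZMod.val_lt _
      have h2 : (δ ^ (i - 1)).val ≠ 0 := by
        rw [Ne, ZMod.val_eq_zero]
        exact pow_ne_zero _ (prim_ne_zero hp3 hδ)
      change 1 ≤ (δ ^ (i - 1)).val ∧ (δ ^ (i - 1)).val ≤ p - 1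
      omega
    · rw [ZMod.natCast_zmod_val, add_zero]
  refine ⟨α, γ, 0, 0, _, _, 0, 0, hne, hW α hα, hW γ hγ, ?_⟩
  apply le_antisymm _ (hup α γ 0 0 _ _ (hW α hα) (hW γ hγ) hne 0 0)
  have htn : t ∣ p - 1 := (Dvd.intro_left 2 rfl).trans htd
  have htpos : 0 < t := ht.pos
  set C := (range ((p - 1) / t)).image fun k => t * k + 1 with hC
  have hCc : C.card = (p - 1) / t := by
    rw [hC, card_image_of_injective, card_range]
    intro a b hab
    simp only at hab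
    exact Nat.eq_of_mul_eq_mul_left htpos (by omega)
  rw [← hCc]
  apply le_crossCorr
  intro i hi
  obtain ⟨k, hk, rfl⟩ := mem_image.1 hi
  rw [mem_range] at hk
  have hmem : t * k + 1 ∈ Icc 1 (p - 1) := by
    rw [mem_Icc]
    have h3 : t * ((p - 1) / t) = p - 1 := Nat.mul_div_cancel' htn
    have h4 : t * k < t * ((p - 1) / t) := Nat.mul_lt_mul_of_pos_left hk htpos
    omega
  refine ⟨hmem, ?_⟩
  simp only [Nat.add_sub_cancel]
  rw [hagree _ (Dvd.intro _ rfl)]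

end Pool.Agent.Helper459_costas
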