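import Mathlib
import Pool.Agent.Helper459_costas.Lower

open Finset

namespace Pool.Agent.Helper459_costas

/-- Both maxima, from the bound for solutions of the two-exponent equation. -/
theorem assemble2 (p t : ℕ) [Fact p.Prime]
    (ht : IsLeast {q : ℕ | q.Prime ∧ p ≡ 1 [MOD 2 * q]} t) (hbig : 2 * t ^ 2 ≤ p - 1)
    (hcore : ∀ φ ψ : ZMod p →*₀ ZMod p, Function.Injective φ → Function.Injective ψ →
      ∀ A B : ZMod p, A ≠ 0 → B ≠ 0 → (∃ x, φ x ≠ x) → (∃ x, ψ x ≠ x) →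
      t * (sols φ ψ A B).card < p - 1) :
    IsGreatest (welchValues p) ((p - 1) / t) ∧ IsGreatest (golombValues p) ((p - 1) / t - 1) := by
  have hp : p.Prime := Fact.out
  obtain ⟨⟨htp, htm⟩, hmin⟩ := ht
  have ht2 : 2 ≤ t := htp.two_le
  have h16 : 8 ≤ 2 * t ^ 2 := by nlinarith
  have hp5 : 5 ≤ p := by omega
  have hp3 : 3 ≤ p := by omega
  have hdvd : ∀ q : ℕ, p ≡ 1 [MOD 2 * q] ↔ 2 * q ∣ p - 1 := by
    intro q
    constructor
    · intro h
      exact (Nat.modEq_iff_dvd' (by omega)).1 h.symm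
    · intro h
      exact ((Nat.modEq_iff_dvd' (by omega)).2 h).symm
  have htd : 2 * t ∣ p - 1 := (hdvd t).1 htm
  have ht' : ∀ q : ℕ, q.Prime → 2 * q ∣ p - 1 → t ≤ q := fun q hq hqd =>
    hmin ⟨hq, (hdvd q).2 hqd⟩
  have hW : ∀ (α γ : ZMod p) (c d : ℕ) (f g : ℕ → ℕ), IsWelch p α c f → IsWelch p γ d g →
      α ≠ γ → ∀ u v : ℤ, crossCorr (p - 1) f g u v ≤ (p - 1) / t :=
    fun α γ c d f g hf hg hne u v => welch_upper hp3 t ht2 htd ht' hbig hf hg hne u v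
  have hG : ∀ f g : ℕ → ℕ, IsGolomb p f → IsGolomb p g → (∃ i ∈ Icc 1 (p - 2), f i ≠ g i) →
      ∀ u v : ℤ, crossCorr (p - 2) f g u v ≤ (p - 1) / t - 1 :=
    fun f g hf hg hne u v => golomb_upper hp3 t ht2 htd ht' hbig hcore hf hg hne u v
  refine ⟨⟨welch_attained hp5 t htp htd hW, ?_⟩, ⟨golomb_attained hp5 t htp htd hG, ?_⟩⟩
  · rintro m ⟨α, γ, c, d, f, g, u, v, hne, hf, hg, rfl⟩
    exact hW α γ c d f g hf hg hne u v
  · rintro m ⟨f, g, u, v, hf, hg, hne, rfl⟩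
    exact hG f g hf hg hne u v

/-- The same with a stronger assumption on the size of `p`. -/
theorem assemble (p t : ℕ) [Fact p.Prime]
    (ht : IsLeast {q : ℕ | q.Prime ∧ p ≡ 1 [MOD 2 * q]} t) (hbig : 4 * t ^ 2 < p - 1)
    (hcore : ∀ φ ψ : ZMod p →*₀ ZMod p, Function.Injective φ → Function.Injective ψ →
      ∀ A B : ZMod p, A ≠ 0 → B ≠ 0 → (∃ x, φ x ≠ x) → (∃ x, ψ x ≠ x) →
      t * (sols φ ψ A B).card < p - 1) :
    IsGreatest (welchValues p) ((p - 1) / t) ∧ IsGreatest (golombValues p) ((p - 1) / t - 1) :=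
  assemble2 p t ht (by have := Nat.zero_le (t ^ 2); omega) hcore

end Pool.Agent.Helper459_costas
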