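import Mathlib
import Pool.Agent.Helper459_costas.Classes

open Finset

namespace Pool.Agent.Helper459_costas

variable {p : ℕ} [Fact p.Prime]

/-- The elements different from `0` and `1`. -/
def vv (p : ℕ) [Fact p.Prime] : Finset (ZMod p) := univ.filter fun x => x ≠ 0 ∧ x ≠ 1

theorem mem_vv {x : ZMod p} : x ∈ vv p ↔ x ≠ 0 ∧ x ≠ 1 := by simp [vv]

theorem card_vv : (vv p).card = p - 2 := by
  have : vv p = (nz p).erase 1 := by
    ext x; rw [mem_vv, mem_erase, mem_nz]; tauto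
  rw [this, card_erase_of_mem (mem_nz.2 one_ne_zero), card_nz]
  omega

theorem sols_sub_vv {φ ψ : ZMod p →*₀ ZMod p} {A B : ZMod p} : sols φ ψ A B ⊆ vv p := by
  intro x hx
  rw [mem_sols] at hx
  exact mem_vv.2 ⟨hx.1, hx.2.1⟩

theorem inv_mem_one {φ : ZMod p →*₀ ZMod p} (hφ : Function.Injective φ) (hp : p ≠ 2)
    {x : ZMod p} (hx : x ∈ sols φ φ 1 1) : x⁻¹ ∈ sols φ φ 1 1 := by
  rw [mem_sols] at hx ⊢
  obtain ⟨h0, h1, h⟩ := hx
  have h1' : 1 - x ≠ 0 := sub_ne_zero.2 (Ne.symm h1)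
  have e : 1 - x⁻¹ = -((1 - x) / x) := by field_simp; ring
  have f1 := map_ne (φ := φ) h0
  refine ⟨inv_ne_zero h0, fun h2 => h1 (inv_eq_one.1 h2), ?_⟩
  rw [e, map_neg' φ hφ hp, map_div₀, map_inv₀]
  field_simp
  linear_combination -h

theorem sub_mem_one {φ : ZMod p →*₀ ZMod p}
    {x : ZMod p} (hx : x ∈ sols φ φ 1 1) : 1 - x ∈ sols φ φ 1 1 := by
  rw [mem_sols] at hx ⊢
  obtain ⟨h0, h1, h⟩ := hx
  refine ⟨sub_ne_zero.2 (Ne.symm h1), fun h2 => h0 (by linear_combination -h2), ?_⟩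
  rw [sub_sub_cancel]
  linear_combination h

theorem inv_mem_one_iff {φ : ZMod p →*₀ ZMod p} (hφ : Function.Injective φ) (hp : p ≠ 2)
    {x : ZMod p} : x⁻¹ ∈ sols φ φ 1 1 ↔ x ∈ sols φ φ 1 1 :=
  ⟨fun h => by simpa using inv_mem_one hφ hp h, fun h => inv_mem_one hφ hp h⟩

theorem sub_mem_one_iff {φ : ZMod p →*₀ ZMod p}
    {x : ZMod p} : 1 - x ∈ sols φ φ 1 1 ↔ x ∈ sols φ φ 1 1 :=
  ⟨fun h => by simpa using sub_mem_one h, fun h => sub_mem_one h⟩

/-- The pairs of distinct elements. -/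
def tt (p : ℕ) [Fact p.Prime] : Finset (ZMod p × ZMod p) := (vv p).offDiag

theorem mem_tt {q : ZMod p × ZMod p} :
    q ∈ tt p ↔ (q.1 ≠ 0 ∧ q.1 ≠ 1) ∧ (q.2 ≠ 0 ∧ q.2 ≠ 1) ∧ q.1 ≠ q.2 := by
  rw [tt, mem_offDiag, mem_vv, mem_vv]

/-- The five-cycle. -/
def th (q : ZMod p × ZMod p) : ZMod p × ZMod p := (q.2 / (q.2 - 1), q.2 / (q.2 - q.1))

/-- The inverse of the five-cycle. -/
def ti (q : ZMod p × ZMod p) : ZMod p × ZMod p :=
  (q.1 * (q.2 - 1) / ((q.1 - 1) * q.2), q.1 / (q.1 - 1))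

theorem th_mem {q : ZMod p × ZMod p} (hq : q ∈ tt p) : th q ∈ tt p := by
  rw [mem_tt] at hq ⊢
  obtain ⟨⟨hx0, hx1⟩, ⟨hy0, hy1⟩, hxy⟩ := hq
  have h1 : q.2 - 1 ≠ 0 := sub_ne_zero.2 hy1
  have h2 : q.2 - q.1 ≠ 0 := sub_ne_zero.2 (Ne.symm hxy)
  simp only [th]
  refine ⟨⟨div_ne_zero hy0 h1, fun h => ?_⟩, ⟨div_ne_zero hy0 h2, fun h => ?_⟩, fun h => ?_⟩
  · rw [div_eq_one_iff_eq h1] at h
    exact one_ne_zero (by linear_combination h : (1 : ZMod p) = 0)
  · rw [div_eq_one_iff_eq h2] at h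
    exact hx0 (by linear_combination h)
  · rw [div_eq_div_iff h1 h2] at h
    have h3 : q.2 * (q.1 - 1) = 0 := by linear_combination -h
    rcases mul_eq_zero.1 h3 with h4 | h4
    · exact hy0 h4
    · exact hx1 (by linear_combination h4)

theorem ti_mem {q : ZMod p × ZMod p} (hq : q ∈ tt p) : ti q ∈ tt p := by
  rw [mem_tt] at hq ⊢
  obtain ⟨⟨hx0, hx1⟩, ⟨hy0, hy1⟩, hxy⟩ := hq
  have h1 : q.2 - 1 ≠ 0 := sub_ne_zero.2 hy1
  have h2 : q.1 - 1 ≠ 0 := sub_ne_zero.2 hx1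
  have h3 : (q.1 - 1) * q.2 ≠ 0 := mul_ne_zero h2 hy0
  simp only [ti]
  refine ⟨⟨div_ne_zero (mul_ne_zero hx0 h1) h3, fun h => ?_⟩, ⟨div_ne_zero hx0 h2, fun h => ?_⟩,
    fun h => ?_⟩
  · rw [div_eq_one_iff_eq h3] at h
    exact hxy (by linear_combination -h)
  · rw [div_eq_one_iff_eq h2] at h
    exact one_ne_zero (by linear_combination h : (1 : ZMod p) = 0)
  · rw [div_eq_div_iff h3 h2] at h
    have h4 : q.1 * (q.1 - 1) = 0 := by linear_combination -h
    rcases mul_eq_zero.1 h4 with h5 | h5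
    · exact hx0 h5
    · exact h2 h5

theorem ti_th {q : ZMod p × ZMod p} (hq : q ∈ tt p) : ti (th q) = q := by
  rw [mem_tt] at hq
  obtain ⟨⟨hx0, hx1⟩, ⟨hy0, hy1⟩, hxy⟩ := hq
  have h1 : q.2 - 1 ≠ 0 := sub_ne_zero.2 hy1
  have h2 : q.2 - q.1 ≠ 0 := sub_ne_zero.2 (Ne.symm hxy)
  have e1 : q.2 / (q.2 - 1) - 1 = 1 / (q.2 - 1) := by field_simp; ring
  have e2 : q.2 / (q.2 - q.1) - 1 = q.1 / (q.2 - q.1) := by field_simp; ring
  simp only [th, ti, e1, e2]
  ext
  · simp only; field_simp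
  · simp only; field_simp

theorem th_ti {q : ZMod p × ZMod p} (hq : q ∈ tt p) : th (ti q) = q := by
  rw [mem_tt] at hq
  obtain ⟨⟨hx0, hx1⟩, ⟨hy0, hy1⟩, hxy⟩ := hq
  have h1 : q.2 - 1 ≠ 0 := sub_ne_zero.2 hy1
  have h2 : q.1 - 1 ≠ 0 := sub_ne_zero.2 hx1
  have e1 : q.1 / (q.1 - 1) - 1 = 1 / (q.1 - 1) := by field_simp; ring
  have e2 : q.1 / (q.1 - 1) - q.1 * (q.2 - 1) / ((q.1 - 1) * q.2) =
      q.1 / ((q.1 - 1) * q.2) := by field_simp; ring
  simp only [th, ti, e1, e2]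
  ext
  · simp only; field_simp
  · simp only; field_simp

theorem sum_th (f : ZMod p × ZMod p → ℕ) : ∑ q ∈ tt p, f (th q) = ∑ q ∈ tt p, f q :=
  sum_nbij' th ti (fun _ h => th_mem h) (fun _ h => ti_mem h) (fun _ h => ti_th h)
    (fun _ h => th_ti h) (fun _ _ => rfl)

section
variable (S : Finset (ZMod p))

/-- Indicators of the five relations. -/
def ia (q : ZMod p × ZMod p) : ℕ := if q.1 ∈ S then 1 else 0
def ib (q : ZMod p × ZMod p) : ℕ := if q.2 ∈ S then 1 else 0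
def ic (q : ZMod p × ZMod p) : ℕ := if q.1 / q.2 ∈ S then 1 else 0
def ig (q : ZMod p × ZMod p) : ℕ := if (1 - q.1) / (1 - q.2) ∈ S then 1 else 0
def ie (q : ZMod p × ZMod p) : ℕ := if q.1 * (1 - q.2) / (q.2 * (1 - q.1)) ∈ S then 1 else 0

end

section
variable {φ : ZMod p →*₀ ZMod p} (hφ : Function.Injective φ) (hp : p ≠ 2)
include hφ hp

theorem ia_th {q : ZMod p × ZMod p} (hq : q ∈ tt p) :
    ia (sols φ φ 1 1) (th q) = ib (sols φ φ 1 1) q := by
  rw [mem_tt] at hq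
  obtain ⟨⟨hx0, hx1⟩, ⟨hy0, hy1⟩, hxy⟩ := hq
  have h1 : q.2 - 1 ≠ 0 := sub_ne_zero.2 hy1
  have e : q.2 / (q.2 - 1) = (1 - q.2⁻¹)⁻¹ := by
    have : 1 - q.2⁻¹ = (q.2 - 1) / q.2 := by field_simp
    rw [this, inv_div]
  simp only [ia, ib, th, e, inv_mem_one_iff hφ hp, sub_mem_one_iff]

theorem ib_th {q : ZMod p × ZMod p} (hq : q ∈ tt p) :
    ib (sols φ φ 1 1) (th q) = ic (sols φ φ 1 1) q := by
  rw [mem_tt] at hq
  obtain ⟨⟨hx0, hx1⟩, ⟨hy0, hy1⟩, hxy⟩ := hq
  have h1 : q.2 - q.1 ≠ 0 := sub_ne_zero.2 (Ne.symm hxy)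
  have e : q.2 / (q.2 - q.1) = (1 - q.1 / q.2)⁻¹ := by
    have : 1 - q.1 / q.2 = (q.2 - q.1) / q.2 := by field_simp
    rw [this, inv_div]
  simp only [ib, ic, th, e, inv_mem_one_iff hφ hp, sub_mem_one_iff]

theorem ic_th {q : ZMod p × ZMod p} (hq : q ∈ tt p) :
    ic (sols φ φ 1 1) (th q) = ig (sols φ φ 1 1) q := by
  rw [mem_tt] at hq
  obtain ⟨⟨hx0, hx1⟩, ⟨hy0, hy1⟩, hxy⟩ := hq
  have h1 : q.2 - q.1 ≠ 0 := sub_ne_zero.2 (Ne.symm hxy)
  have h2 : q.2 - 1 ≠ 0 := sub_ne_zero.2 hy1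
  have h3 : 1 - q.2 ≠ 0 := sub_ne_zero.2 (Ne.symm hy1)
  have e : q.2 / (q.2 - 1) / (q.2 / (q.2 - q.1)) = 1 - (1 - q.1) / (1 - q.2) := by
    have : 1 - (1 - q.1) / (1 - q.2) = (q.2 - q.1) / (q.2 - 1) := by
      rw [eq_div_iff h2]; field_simp; ring
    rw [this]; field_simp
  simp only [ic, ig, th, e, sub_mem_one_iff]

theorem ig_th {q : ZMod p × ZMod p} (hq : q ∈ tt p) :
    ig (sols φ φ 1 1) (th q) = ie (sols φ φ 1 1) q := by
  rw [mem_tt] at hq
  obtain ⟨⟨hx0, hx1⟩, ⟨hy0, hy1⟩, hxy⟩ := hq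
  have h1 : q.2 - q.1 ≠ 0 := sub_ne_zero.2 (Ne.symm hxy)
  have h2 : q.2 - 1 ≠ 0 := sub_ne_zero.2 hy1
  have h3 : 1 - q.2 ≠ 0 := sub_ne_zero.2 (Ne.symm hy1)
  have h4 : 1 - q.1 ≠ 0 := sub_ne_zero.2 (Ne.symm hx1)
  have e : (1 - q.2 / (q.2 - 1)) / (1 - q.2 / (q.2 - q.1)) =
      1 - (q.1 * (1 - q.2) / (q.2 * (1 - q.1)))⁻¹ := by
    have e1 : 1 - q.2 / (q.2 - 1) = -1 / (q.2 - 1) := by field_simp; ring
    have e2 : 1 - q.2 / (q.2 - q.1) = -q.1 / (q.2 - q.1) := by field_simp; ring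
    rw [e1, e2, inv_div]
    field_simp
    ring
  simp only [ig, ie, th, e, inv_mem_one_iff hφ hp, sub_mem_one_iff]

theorem ie_th {q : ZMod p × ZMod p} (hq : q ∈ tt p) :
    ie (sols φ φ 1 1) (th q) = ia (sols φ φ 1 1) q := by
  rw [mem_tt] at hq
  obtain ⟨⟨hx0, hx1⟩, ⟨hy0, hy1⟩, hxy⟩ := hq
  have h1 : q.2 - q.1 ≠ 0 := sub_ne_zero.2 (Ne.symm hxy)
  have h2 : q.2 - 1 ≠ 0 := sub_ne_zero.2 hy1
  have e : q.2 / (q.2 - 1) * (1 - q.2 / (q.2 - q.1)) /
      (q.2 / (q.2 - q.1) * (1 - q.2 / (q.2 - 1))) = q.1 := by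
    have e1 : 1 - q.2 / (q.2 - 1) = -1 / (q.2 - 1) := by field_simp; ring
    have e2 : 1 - q.2 / (q.2 - q.1) = -q.1 / (q.2 - q.1) := by field_simp; ring
    rw [e1, e2]
    field_simp
  simp only [ie, ia, th, e]

end

theorem five_bool : ∀ a b c d e : Bool, (a = true → b = true → c = true → d = true) →
    (a = true → b = true → c = true → e = true) → (a = true → b = true → d = true → c = true) →
    (a = true → c = true → d = true → b = true) → (b = true → c = true → d = true → a = true) →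
    (a = true → b = true → e = true → c = true) → (a = true → c = true → e = true → b = true) →
    (a = true → d = true → e = true → b = true) → (b = true → c = true → e = true → a = true) →
    (b = true → d = true → e = true → a = true) → (c = true → d = true → e = true → b = true) →
    3 * (a.toNat + b.toNat + c.toNat + d.toNat + e.toNat) ≤
      (a.toNat * b.toNat + b.toNat * c.toNat + c.toNat * d.toNat + d.toNat * e.toNat +
        e.toNat * a.toNat) +
      (a.toNat * c.toNat + b.toNat * d.toNat + c.toNat * e.toNat + d.toNat * a.toNat +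
        e.toNat * b.toNat) + 5 := by
  intro a b c d e
  cases a <;> cases b <;> cases c <;> cases d <;> cases e <;> simp

theorem ite_toNat (P : Prop) [Decidable P] : (if P then 1 else 0) = (decide P).toNat := by
  by_cases h : P <;> simp [h]

/-- The five relations: three of them imply all. -/
theorem five_alg {X X' Y Y' D : ZMod p} (hX : X ≠ 0) (hX' : X' ≠ 0) (hY : Y ≠ 0) (hY' : Y' ≠ 0)
    (hXY : X ≠ Y) {a b c d e : ℕ}
    (ha : a = if X + X' = 1 then 1 else 0) (hb : b = if Y + Y' = 1 then 1 else 0)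
    (hc : c = if X + D = Y then 1 else 0) (hd : d = if Y' + D = X' then 1 else 0)
    (he : e = if X * Y' + D = Y * X' then 1 else 0) :
    3 * (a + b + c + d + e) ≤ (a * b + b * c + c * d + d * e + e * a) +
      (a * c + b * d + c * e + d * a + e * b) + 5 := by
  rw [ha, hb, hc, hd, he]
  simp only [ite_toNat]
  apply five_bool <;> simp only [decide_eq_true_eq]
  · intro h1 h2 h3
    linear_combination -h1 + h2 + h3
  · intro h1 h2 h3
    linear_combination X * h2 - Y * h1 + h3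
  · intro h1 h2 h4
    linear_combination h1 - h2 + h4
  · intro h1 h3 h4
    linear_combination h1 - h3 + h4
  · intro h2 h3 h4
    linear_combination h2 + h3 - h4
  · intro h1 h2 h5
    linear_combination h5 - X * h2 + Y * h1
  · intro h1 h3 h5
    apply mul_left_cancel₀ hX
    linear_combination h5 - h3 + Y * h1
  · intro h1 h4 h5
    apply mul_left_cancel₀ hX'
    linear_combination -h5 + h4 + Y' * h1
  · intro h2 h3 h5
    apply mul_left_cancel₀ hY
    linear_combination -h5 + h3 + X * h2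
  · intro h2 h4 h5
    apply mul_left_cancel₀ hY'
    linear_combination h5 - h4 + X' * h2
  · intro h3 h4 h5
    apply mul_left_cancel₀ (sub_ne_zero.2 hXY)
    linear_combination h5 - h3 - Y * h4 + Y * h3

section
variable {φ : ZMod p →*₀ ZMod p} (hφ : Function.Injective φ) (hp : p ≠ 2)
include hφ hp

theorem five_point {q : ZMod p × ZMod p} (hq : q ∈ tt p) :
    3 * (ia (sols φ φ 1 1) q + ib (sols φ φ 1 1) q + ic (sols φ φ 1 1) q + ig (sols φ φ 1 1) q +
      ie (sols φ φ 1 1) q) ≤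
    (ia (sols φ φ 1 1) q * ib (sols φ φ 1 1) q + ib (sols φ φ 1 1) q * ic (sols φ φ 1 1) q +
      ic (sols φ φ 1 1) q * ig (sols φ φ 1 1) q + ig (sols φ φ 1 1) q * ie (sols φ φ 1 1) q +
      ie (sols φ φ 1 1) q * ia (sols φ φ 1 1) q) +
    (ia (sols φ φ 1 1) q * ic (sols φ φ 1 1) q + ib (sols φ φ 1 1) q * ig (sols φ φ 1 1) q +
      ic (sols φ φ 1 1) q * ie (sols φ φ 1 1) q + ig (sols φ φ 1 1) q * ia (sols φ φ 1 1) q +
      ie (sols φ φ 1 1) q * ib (sols φ φ 1 1) q) + 5 := by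
  rw [mem_tt] at hq
  obtain ⟨⟨hx0, hx1⟩, ⟨hy0, hy1⟩, hxy⟩ := hq
  have h1x : 1 - q.1 ≠ 0 := sub_ne_zero.2 (Ne.symm hx1)
  have h1y : 1 - q.2 ≠ 0 := sub_ne_zero.2 (Ne.symm hy1)
  have fx := map_ne (φ := φ) hx0
  have fy := map_ne (φ := φ) hy0
  have fx' := map_ne (φ := φ) h1x
  have fy' := map_ne (φ := φ) h1y
  have m1 : q.1 ∈ sols φ φ 1 1 ↔ φ q.1 + φ (1 - q.1) = 1 := by
    rw [mem_sols, one_mul, one_mul]
    exact ⟨fun h => h.2.2, fun h => ⟨hx0, hx1, h⟩⟩
  have m2 : q.2 ∈ sols φ φ 1 1 ↔ φ q.2 + φ (1 - q.2) = 1 := by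
    rw [mem_sols, one_mul, one_mul]
    exact ⟨fun h => h.2.2, fun h => ⟨hy0, hy1, h⟩⟩
  have m3 : q.1 / q.2 ∈ sols φ φ 1 1 ↔ φ q.1 + φ (q.2 - q.1) = φ q.2 := by
    have e : 1 - q.1 / q.2 = (q.2 - q.1) / q.2 := by field_simp
    rw [mem_sols, one_mul, one_mul, e, map_div₀, map_div₀]
    constructor
    · rintro ⟨_, _, h⟩
      field_simp at h
      exact h
    · intro h
      refine ⟨div_ne_zero hx0 hy0, fun h2 => hxy ((div_eq_one_iff_eq hy0).1 h2), ?_⟩
      field_simp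
      exact h
  have m4 : (1 - q.1) / (1 - q.2) ∈ sols φ φ 1 1 ↔
      φ (1 - q.2) + φ (q.2 - q.1) = φ (1 - q.1) := by
    have e : 1 - (1 - q.1) / (1 - q.2) = -((q.2 - q.1) / (1 - q.2)) := by field_simp; ring
    rw [mem_sols, one_mul, one_mul, e, map_neg' φ hφ hp, map_div₀, map_div₀]
    constructor
    · rintro ⟨_, _, h⟩
      field_simp at h
      linear_combination -h
    · intro h
      refine ⟨div_ne_zero h1x h1y, fun h2 => hxy ?_, ?_⟩
      · have := (div_eq_one_iff_eq h1y).1 h2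
        linear_combination -this
      · field_simp
        linear_combination -h
  have m5 : q.1 * (1 - q.2) / (q.2 * (1 - q.1)) ∈ sols φ φ 1 1 ↔
      φ q.1 * φ (1 - q.2) + φ (q.2 - q.1) = φ q.2 * φ (1 - q.1) := by
    have e : 1 - q.1 * (1 - q.2) / (q.2 * (1 - q.1)) = (q.2 - q.1) / (q.2 * (1 - q.1)) := by
      field_simp; ring
    rw [mem_sols, one_mul, one_mul, e, map_div₀, map_div₀, map_mul, map_mul]
    constructor
    · rintro ⟨_, _, h⟩
      field_simp at h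
      exact h
    · intro h
      refine ⟨div_ne_zero (mul_ne_zero hx0 h1y) (mul_ne_zero hy0 h1x), fun h2 => hxy ?_, ?_⟩
      · have := (div_eq_one_iff_eq (mul_ne_zero hy0 h1x)).1 h2
        linear_combination this
      · field_simp
        exact h
  refine five_alg fx fx' fy fy' (fun h => hxy (hφ h)) (D := φ (q.2 - q.1)) ?_ ?_ ?_ ?_ ?_
  · simp only [ia, m1]
  · simp only [ib, m2]
  · simp only [ic, m3]
  · simp only [ig, m4]
  · simp only [ie, m5]

theorem five_ineq :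
    3 * ((sols φ φ 1 1).card * (p - 3)) ≤
      2 * ((sols φ φ 1 1).card * (sols φ φ 1 1).card - (sols φ φ 1 1).card) +
        (p - 2) * (p - 3) := by
  classical
  obtain ⟨S, hS⟩ : ∃ S, S = sols φ φ 1 1 := ⟨_, rfl⟩
  have hSV : S ⊆ vv p := by rw [hS]; exact sols_sub_vv
  have hpt := fun q hq => five_point hφ hp (q := q) hq
  have ha := fun q hq => ia_th hφ hp (q := q) hq
  have hb := fun q hq => ib_th hφ hp (q := q) hq
  have hc := fun q hq => ic_th hφ hp (q := q) hq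
  have hd := fun q hq => ig_th hφ hp (q := q) hq
  have he := fun q hq => ie_th hφ hp (q := q) hq
  have hinv : ∀ x ∈ S, x⁻¹ ∈ S := by
    intro x hx; rw [hS] at hx ⊢; exact inv_mem_one hφ hp hx
  rw [← hS] at hpt ha hb hc hd he ⊢
  -- singles
  have hT : (tt p).card = (p - 2) * (p - 3) := by
    rw [tt, offDiag_card, card_vv]
    rcases Nat.lt_or_ge p 3 with h | h
    · have := two_le_p (p := p)
      have h2 : p - 2 = 0 := by omega
      rw [h2]
      simp
    · obtain ⟨k, rfl⟩ := Nat.exists_eq_add_of_le h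
      have e1 : 3 + k - 2 = k + 1 := by omega
      have e2 : 3 + k - 3 = k := by omega
      rw [e1, e2]
      have : (k + 1) * (k + 1) = (k + 1) * k + (k + 1) := by ring
      omega
  have s1 : S.card * (p - 3) ≤ ∑ q ∈ tt p, ia S q := by
    have h1 : ∑ q ∈ tt p, ia S q = ((tt p).filter fun q => q.1 ∈ S).card := by
      rw [card_filter]; rfl
    rw [h1]
    have h2 : S.card * (p - 2) ≤ S.card + ((tt p).filter fun q => q.1 ∈ S).card := by
      rw [← card_vv, ← card_product,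
        ← card_filter_add_card_filter_not (p := fun q : ZMod p × ZMod p => q.1 = q.2)]
      refine add_le_add ?_ (card_le_card ?_)
      · refine card_le_card_of_injOn (fun q => q.1) ?_ ?_
        · intro q hq
          rw [mem_coe, mem_filter, mem_product] at hq
          exact hq.1.1
        · rintro ⟨a, b⟩ h1 ⟨a', b'⟩ h2 h
          rw [mem_coe, mem_filter] at h1 h2
          have e1 : a = b := h1.2
          have e2 : a' = b' := h2.2
          have e3 : a = a' := h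
          rw [← e1, ← e2, e3]
      · intro q hq
        rw [mem_filter, mem_product] at hq
        rw [mem_filter, tt, mem_offDiag]
        exact ⟨⟨hSV hq.1.1, hq.1.2, hq.2⟩, hq.1.1⟩
    rcases Nat.lt_or_ge p 3 with h | h
    · have h3 : p - 3 = 0 := by omega
      rw [h3]; simp
    · obtain ⟨k, rfl⟩ := Nat.exists_eq_add_of_le h
      have e1 : 3 + k - 2 = k + 1 := by omega
      have e2 : 3 + k - 3 = k := by omega
      rw [e1] at h2
      rw [e2]
      have : S.card * (k + 1) = S.card * k + S.card := by ring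
      omega
  have s2 : ∑ q ∈ tt p, ib S q = ∑ q ∈ tt p, ia S q := by
    rw [← sum_th (ia S)]; exact sum_congr rfl fun q hq => (ha q hq).symm
  have s3 : ∑ q ∈ tt p, ic S q = ∑ q ∈ tt p, ib S q := by
    rw [← sum_th (ib S)]; exact sum_congr rfl fun q hq => (hb q hq).symm
  have s4 : ∑ q ∈ tt p, ig S q = ∑ q ∈ tt p, ic S q := by
    rw [← sum_th (ic S)]; exact sum_congr rfl fun q hq => (hc q hq).symm
  have s5 : ∑ q ∈ tt p, ie S q = ∑ q ∈ tt p, ig S q := by
    rw [← sum_th (ig S)]; exact sum_congr rfl fun q hq => (hd q hq).symm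
  -- neighbouring pairs
  have n1 : ∑ q ∈ tt p, ia S q * ib S q ≤ S.card * S.card - S.card := by
    rw [← offDiag_card]
    have h1 : ∑ q ∈ tt p, ia S q * ib S q = ((tt p).filter fun q => q.1 ∈ S ∧ q.2 ∈ S).card := by
      rw [card_filter]
      refine sum_congr rfl fun q _ => ?_
      simp only [ia, ib]
      by_cases h1 : q.1 ∈ S <;> by_cases h2 : q.2 ∈ S <;> simp [h1, h2]
    rw [h1]
    apply card_le_card
    intro q hq
    rw [mem_filter, tt, mem_offDiag] at hq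
    exact mem_offDiag.2 ⟨hq.2.1, hq.2.2, hq.1.2.2⟩
  have n2 : ∑ q ∈ tt p, ib S q * ic S q = ∑ q ∈ tt p, ia S q * ib S q := by
    rw [← sum_th (fun q => ia S q * ib S q)]
    exact sum_congr rfl fun q hq => by rw [ha q hq, hb q hq]
  have n3 : ∑ q ∈ tt p, ic S q * ig S q = ∑ q ∈ tt p, ib S q * ic S q := by
    rw [← sum_th (fun q => ib S q * ic S q)]
    exact sum_congr rfl fun q hq => by rw [hb q hq, hc q hq]
  have n4 : ∑ q ∈ tt p, ig S q * ie S q = ∑ q ∈ tt p, ic S q * ig S q := by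
    rw [← sum_th (fun q => ic S q * ig S q)]
    exact sum_congr rfl fun q hq => by rw [hc q hq, hd q hq]
  have n5 : ∑ q ∈ tt p, ie S q * ia S q = ∑ q ∈ tt p, ig S q * ie S q := by
    rw [← sum_th (fun q => ig S q * ie S q)]
    exact sum_congr rfl fun q hq => by rw [hd q hq, he q hq]
  -- other pairs
  have m1 : ∑ q ∈ tt p, ia S q * ic S q ≤ S.card * S.card - S.card := by
    rw [← offDiag_card]
    have h1 : ∑ q ∈ tt p, ia S q * ic S q =
        ((tt p).filter fun q => q.1 ∈ S ∧ q.1 / q.2 ∈ S).card := by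
      rw [card_filter]
      refine sum_congr rfl fun q _ => ?_
      simp only [ia, ic]
      by_cases h1 : q.1 ∈ S <;> by_cases h2 : q.1 / q.2 ∈ S <;> simp [h1, h2]
    rw [h1]
    refine card_le_card_of_injOn (fun q => (q.1, q.1 / q.2)) ?_ ?_
    · intro q hq
      rw [mem_coe, mem_filter, mem_tt] at hq
      obtain ⟨⟨⟨hx0, hx1⟩, ⟨hy0, hy1⟩, hxy⟩, h1, h2⟩ := hq
      rw [mem_coe, mem_offDiag]
      refine ⟨h1, h2, fun h => hy1 ?_⟩
      simp only at h
      rw [eq_div_iff hy0] at h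
      exact mul_left_cancel₀ hx0 (h.trans (mul_one _).symm)
    · rintro ⟨a, b⟩ hq ⟨a', b'⟩ hq' h
      rw [mem_coe, mem_filter, mem_tt] at hq hq'
      obtain ⟨⟨⟨hx0, hx1⟩, ⟨hy0, hy1⟩, hxy⟩, h1, h2⟩ := hq
      obtain ⟨⟨⟨hx0', hx1'⟩, ⟨hy0', hy1'⟩, hxy'⟩, h1', h2'⟩ := hq'
      simp only [Prod.mk.injEq] at h hx0 hy0 hx0' hy0'
      obtain ⟨e1, e2⟩ := h
      rw [← e1, div_eq_div_iff hy0 hy0'] at e2
      have := mul_left_cancel₀ hx0 e2
      rw [e1, this]
  have m2 : ∑ q ∈ tt p, ib S q * ig S q = ∑ q ∈ tt p, ia S q * ic S q := by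
    rw [← sum_th (fun q => ia S q * ic S q)]
    exact sum_congr rfl fun q hq => by rw [ha q hq, hc q hq]
  have m3 : ∑ q ∈ tt p, ic S q * ie S q = ∑ q ∈ tt p, ib S q * ig S q := by
    rw [← sum_th (fun q => ib S q * ig S q)]
    exact sum_congr rfl fun q hq => by rw [hb q hq, hd q hq]
  have m4 : ∑ q ∈ tt p, ig S q * ia S q = ∑ q ∈ tt p, ic S q * ie S q := by
    rw [← sum_th (fun q => ic S q * ie S q)]
    exact sum_congr rfl fun q hq => by rw [hc q hq, he q hq]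
  have m5 : ∑ q ∈ tt p, ie S q * ib S q = ∑ q ∈ tt p, ig S q * ia S q := by
    rw [← sum_th (fun q => ig S q * ia S q)]
    exact sum_congr rfl fun q hq => by rw [hd q hq, ha q hq]
  have hsum := sum_le_sum hpt
  simp only [← mul_sum, sum_add_distrib, sum_const, smul_eq_mul] at hsum
  rw [hT] at hsum
  rw [n5, n4, n3, n2, m5, m4, m3, m2, s5, s4, s3, s2] at hsum
  omega

end

/-- If the relation always holds, the map is the identity. -/
theorem eq_id_of_full {φ : ZMod p →*₀ ZMod p} (hφ : Function.Injective φ) (hp : p ≠ 2)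
    (h : p - 2 ≤ (sols φ φ 1 1).card) (x : ZMod p) : φ x = x := by
  have h1 : sols φ φ 1 1 = vv p := eq_of_subset_of_card_le sols_sub_vv (by rw [card_vv]; exact h)
  have h2 : ∀ y : ZMod p, φ (1 - y) = 1 - φ y := by
    intro y
    by_cases hy0 : y = 0
    · rw [hy0, sub_zero, map_one, map_zero, sub_zero]
    · by_cases hy1 : y = 1
      · rw [hy1, sub_self, map_one, map_zero, sub_self]
      · have : y ∈ sols φ φ 1 1 := by rw [h1]; exact mem_vv.2 ⟨hy0, hy1⟩
        rw [mem_sols] at this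
        linear_combination this.2.2
  have h3 : ∀ n : ℕ, φ (n : ZMod p) = n := by
    intro n
    induction n with
    | zero => simp
    | succ n ih =>
      have e : ((n + 1 : ℕ) : ZMod p) = 1 - (-(n : ZMod p)) := by push_cast; ring
      rw [e, h2, map_neg' φ hφ hp, ih]
  have h4 := h3 x.val
  rwa [ZMod.natCast_zmod_val] at h4

/-- The half bound for the symmetric equation. -/
theorem five_bound {φ : ZMod p →*₀ ZMod p} (hφ : Function.Injective φ) (hp : 5 ≤ p)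
    (hid : ∃ x, φ x ≠ x) : 2 * (sols φ φ 1 1).card ≤ p - 3 := by
  have h := five_ineq hφ (by omega)
  obtain ⟨x, hx⟩ := hid
  have h2 : (sols φ φ 1 1).card < p - 2 := by
    by_contra hcon
    exact hx (eq_id_of_full hφ (by omega) (not_lt.1 hcon) x)
  set N := (sols φ φ 1 1).card with hN
  by_contra hcon
  have h3 : p - 3 < 2 * N := not_le.1 hcon
  have hNN : N ≤ N * N := Nat.le_mul_self N
  zify [hNN, (by omega : 3 ≤ p), (by omega : 2 ≤ p)] at h h2 h3
  nlinarith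

end Pool.Agent.Helper459_costas
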