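import Mathlib
import Pool.Agent.Helper459_costas.Five

open Finset

namespace Pool.Agent.Helper459_costas

theorem three_sets {α : Type*} [DecidableEq α] (V X Y Z : Finset α) (hX : X ⊆ V) (hY : Y ⊆ V)
    (hZ : Z ⊆ V) :
    X.card + Y.card + Z.card ≤ V.card + (X ∩ Y).card + (X ∩ Z).card + (Y ∩ Z).card := by
  have h1 := card_union_add_card_inter X Y
  have h2 := card_union_add_card_inter (X ∪ Y) Z
  have h3 : ((X ∪ Y) ∩ Z).card ≤ (X ∩ Z).card + (Y ∩ Z).card := by
    rw [union_inter_distrib_right]; exact card_union_le _ _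
  have h4 : (X ∪ Y ∪ Z).card ≤ V.card := card_le_card (union_subset (union_subset hX hY) hZ)
  omega

theorem two_sets {α : Type*} [DecidableEq α] (V X Y : Finset α) (hX : X ⊆ V) (hY : Y ⊆ V) :
    X.card + Y.card ≤ V.card + (X ∩ Y).card := by
  have h1 := card_union_add_card_inter X Y
  have h4 : (X ∪ Y).card ≤ V.card := card_le_card (union_subset hX hY)
  omega

variable {p : ℕ} [Fact p.Prime]

section invol
variable (S : Finset (ZMod p))

/-- Elements of `S` whose inverse lies in `S`. -/
def r0 : Finset (ZMod p) := S.filter fun y => y⁻¹ ∈ S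
/-- Elements of `S` whose image under `y ↦ y / (y - 1)` lies in `S`. -/
def r1 : Finset (ZMod p) := S.filter fun y => y / (y - 1) ∈ S
/-- Elements of `S` whose image under `y ↦ 1 - y` lies in `S`. -/
def r2 : Finset (ZMod p) := S.filter fun y => 1 - y ∈ S
/-- Elements of `S` whose image under `y ↦ 1 / (1 - y)` lies in `S`. -/
def rs : Finset (ZMod p) := S.filter fun y => (1 - y)⁻¹ ∈ S

end invol

section ineq
variable {S : Finset (ZMod p)} (hS : S ⊆ vv p)
include hS

theorem img0_sub : S.image (fun y => y⁻¹) ⊆ vv p := by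
  intro z hz
  obtain ⟨y, hy, rfl⟩ := mem_image.1 hz
  have := mem_vv.1 (hS hy)
  exact mem_vv.2 ⟨inv_ne_zero this.1, fun h => this.2 (inv_eq_one.1 h)⟩

theorem img2_sub : S.image (fun y => 1 - y) ⊆ vv p := by
  intro z hz
  obtain ⟨y, hy, rfl⟩ := mem_image.1 hz
  have := mem_vv.1 (hS hy)
  exact mem_vv.2 ⟨sub_ne_zero.2 (Ne.symm this.2), fun h => this.1 (by linear_combination -h)⟩

theorem img1_sub : S.image (fun y => y / (y - 1)) ⊆ vv p := by
  intro z hz
  obtain ⟨y, hy, rfl⟩ := mem_image.1 hz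
  have := mem_vv.1 (hS hy)
  have h1 : y - 1 ≠ 0 := sub_ne_zero.2 this.2
  refine mem_vv.2 ⟨div_ne_zero this.1 h1, fun h => ?_⟩
  rw [div_eq_one_iff_eq h1] at h
  exact one_ne_zero (by linear_combination h : (1 : ZMod p) = 0)

omit hS in
theorem t1_t1 {y : ZMod p} (h : y ≠ 1) : y / (y - 1) / (y / (y - 1) - 1) = y := by
  have h1 : y - 1 ≠ 0 := sub_ne_zero.2 h
  have e : y / (y - 1) - 1 = 1 / (y - 1) := by field_simp; ring
  rw [e]
  field_simp

theorem card_img1 : (S.image (fun y => y / (y - 1))).card = S.card := by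
  apply card_image_of_injOn
  intro a ha b hb h
  simp only at h
  have h1 := t1_t1 (mem_vv.1 (hS ha)).2
  have h2 := t1_t1 (mem_vv.1 (hS hb)).2
  rw [← h1, ← h2, h]

omit hS in
theorem card_img0 : (S.image (fun y => y⁻¹)).card = S.card :=
  card_image_of_injective _ inv_injective

omit hS in
theorem card_img2 : (S.image (fun y => 1 - y)).card = S.card :=
  card_image_of_injective _ sub_right_injective

omit hS in
theorem inter0 : (S ∩ S.image (fun y => y⁻¹)).card ≤ (r0 S).card := by
  apply card_le_card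
  intro z hz
  rw [mem_inter, mem_image] at hz
  obtain ⟨h1, a, ha, rfl⟩ := hz
  rw [r0, mem_filter, inv_inv]
  exact ⟨h1, ha⟩

omit hS in
theorem inter2 : (S ∩ S.image (fun y => 1 - y)).card ≤ (r2 S).card := by
  apply card_le_card
  intro z hz
  rw [mem_inter, mem_image] at hz
  obtain ⟨h1, a, ha, rfl⟩ := hz
  rw [r2, mem_filter, sub_sub_cancel]
  exact ⟨h1, ha⟩

theorem inter1 : (S ∩ S.image (fun y => y / (y - 1))).card ≤ (r1 S).card := by
  apply card_le_card
  intro z hz
  rw [mem_inter, mem_image] at hz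
  obtain ⟨h1, a, ha, rfl⟩ := hz
  rw [r1, mem_filter, t1_t1 (mem_vv.1 (hS ha)).2]
  exact ⟨h1, ha⟩

omit hS in
theorem inter02 : (S.image (fun y => y⁻¹) ∩ S.image (fun y => 1 - y)).card ≤ (rs S).card := by
  refine card_le_card_of_injOn (fun z => 1 - z) ?_ ?_
  · intro z hz
    rw [mem_coe, mem_inter, mem_image, mem_image] at hz
    obtain ⟨⟨a, ha, h1⟩, b, hb, h2⟩ := hz
    rw [mem_coe, rs, mem_filter]
    beta_reduce
    rw [sub_sub_cancel]
    refine ⟨?_, ?_⟩
    · rw [← h2, sub_sub_cancel]; exact hb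
    · rw [← h1, inv_inv]; exact ha
  · intro a _ b _ h
    simp only at h
    linear_combination -h

theorem inter01 :
    (S.image (fun y => y⁻¹) ∩ S.image (fun y => y / (y - 1))).card ≤ (rs S).card := by
  refine card_le_card_of_injOn (fun z => z⁻¹) ?_ ?_
  · intro z hz
    rw [mem_coe, mem_inter, mem_image, mem_image] at hz
    obtain ⟨⟨a, ha, h1⟩, b, hb, h2⟩ := hz
    rw [mem_coe, rs, mem_filter]
    beta_reduce
    refine ⟨?_, ?_⟩
    · rw [← h1, inv_inv]; exact ha
    · have hb' := mem_vv.1 (hS hb)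
      have hb1 : b - 1 ≠ 0 := sub_ne_zero.2 hb'.2
      have hb0 := hb'.1
      rw [← h2, inv_div]
      have e : 1 - (b - 1) / b = 1 / b := by field_simp; ring
      rw [e, one_div, inv_inv]
      exact hb
  · intro a _ b _ h
    exact inv_injective h

theorem inter12 :
    (S.image (fun y => y / (y - 1)) ∩ S.image (fun y => 1 - y)).card ≤ (rs S).card := by
  refine card_le_card_of_injOn (fun z => z / (z - 1)) ?_ ?_
  · intro z hz
    rw [mem_coe, mem_inter, mem_image, mem_image] at hz
    obtain ⟨⟨a, ha, h1⟩, b, hb, h2⟩ := hz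
    rw [mem_coe, rs, mem_filter]
    beta_reduce
    refine ⟨?_, ?_⟩
    · rw [← h1, t1_t1 (mem_vv.1 (hS ha)).2]; exact ha
    · have hb' := mem_vv.1 (hS hb)
      have hb0 := hb'.1
      rw [← h2]
      have e : 1 - (1 - b) / (1 - b - 1) = 1 / b := by
        have : 1 - b - 1 = -b := by ring
        rw [this]
        field_simp
        ring
      rw [e, one_div, inv_inv]
      exact hb
  · intro a ha b hb h
    rw [mem_coe, mem_inter] at ha hb
    have h1 := t1_t1 (mem_vv.1 (img2_sub hS ha.2)).2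
    have h2 := t1_t1 (mem_vv.1 (img2_sub hS hb.2)).2
    simp only at h
    rw [← h1, ← h2, h]

theorem ineq02 : 3 * S.card ≤ (p - 2) + (r0 S).card + (r2 S).card + (rs S).card := by
  have h := three_sets (vv p) S _ _ hS (img0_sub hS) (img2_sub hS)
  rw [card_img0, card_img2, card_vv] at h
  have h1 := inter0 (S := S)
  have h2 := inter2 (S := S)
  have h3 := inter02 (S := S)
  omega

theorem ineq01 : 3 * S.card ≤ (p - 2) + (r0 S).card + (r1 S).card + (rs S).card := by
  have h := three_sets (vv p) S _ _ hS (img0_sub hS) (img1_sub hS)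
  rw [card_img0, card_img1 hS, card_vv] at h
  have h1 := inter0 (S := S)
  have h2 := inter1 hS
  have h3 := inter01 hS
  omega

theorem ineq12 : 3 * S.card ≤ (p - 2) + (r1 S).card + (r2 S).card + (rs S).card := by
  have h := three_sets (vv p) S _ _ hS (img1_sub hS) (img2_sub hS)
  rw [card_img1 hS, card_img2, card_vv] at h
  have h1 := inter1 hS
  have h2 := inter2 (S := S)
  have h3 := inter12 hS
  omega

theorem ineq0 : 2 * S.card ≤ (p - 2) + (r0 S).card := by
  have h := two_sets (vv p) S _ hS (img0_sub hS)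
  rw [card_img0, card_vv] at h
  have h1 := inter0 (S := S)
  omega

theorem ineq1 : 2 * S.card ≤ (p - 2) + (r1 S).card := by
  have h := two_sets (vv p) S _ hS (img1_sub hS)
  rw [card_img1 hS, card_vv] at h
  have h1 := inter1 hS
  omega

theorem ineq2 : 2 * S.card ≤ (p - 2) + (r2 S).card := by
  have h := two_sets (vv p) S _ hS (img2_sub hS)
  rw [card_img2, card_vv] at h
  have h1 := inter2 (S := S)
  omega

end ineq

end Pool.Agent.Helper459_costas
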