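import Mathlib
import Pool.Agent.Helper459_costas.Invol

open Finset

namespace Pool.Agent.Helper459_costas

variable {p : ℕ} [Fact p.Prime]

/-- The ratio of the two power maps. -/
def rho (φ ψ : ZMod p →*₀ ZMod p) (y : ZMod p) : ZMod p := ψ y / φ y

/-- Elements with prescribed ratios at `y` and at `1 - y`. -/
def cell (φ ψ : ZMod p →*₀ ZMod p) (a b : ZMod p) : Finset (ZMod p) :=
  (vv p).filter fun y => rho φ ψ y = a ∧ rho φ ψ (1 - y) = b

/-- Elements with prescribed ratio. -/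
def row (φ ψ : ZMod p →*₀ ZMod p) (a : ZMod p) : Finset (ZMod p) :=
  (vv p).filter fun y => rho φ ψ y = a

theorem rho_mem (φ ψ : ZMod p →*₀ ZMod p) {y : ZMod p} (hy : y ≠ 0) : rho φ ψ y ∈ ratios φ ψ :=
  mem_image.2 ⟨y, mem_nz.2 hy, rfl⟩

theorem rho_ne (φ ψ : ZMod p →*₀ ZMod p) {y : ZMod p} (hy : y ≠ 0) : rho φ ψ y ≠ 0 :=
  div_ne_zero (map_ne hy) (map_ne hy)

theorem psi_eq (φ ψ : ZMod p →*₀ ZMod p) {y : ZMod p} (hy : y ≠ 0) : ψ y = rho φ ψ y * φ y := by
  rw [rho, div_mul_cancel₀ _ (map_ne hy)]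

theorem r0_key {φ ψ : ZMod p →*₀ ZMod p} (hψ : Function.Injective ψ) (hp : p ≠ 2) {A B y : ZMod p}
    (hy : y ∈ r0 (sols φ ψ A B)) :
    (A - rho φ ψ y) * φ y = 1 - A * rho φ ψ y := by
  rw [r0, mem_filter, mem_sols, mem_sols] at hy
  obtain ⟨⟨h0, h1, e1⟩, _, _, e2⟩ := hy
  have h1' : 1 - y ≠ 0 := sub_ne_zero.2 (Ne.symm h1)
  have e : 1 - y⁻¹ = -((1 - y) / y) := by field_simp; ring
  rw [e, map_neg' ψ hψ hp, map_inv₀, map_div₀, psi_eq φ ψ h0, psi_eq φ ψ h1'] at e2
  rw [psi_eq φ ψ h1'] at e1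
  have f0 := map_ne (φ := φ) h0
  have f1 := rho_ne φ ψ h0
  field_simp at e2
  linear_combination e2 + e1

theorem r2_key {φ ψ : ZMod p →*₀ ZMod p} {A B y : ZMod p}
    (hy : y ∈ r2 (sols φ ψ A B)) :
    (A * A - B * B * rho φ ψ y * rho φ ψ (1 - y)) * φ y = A - B * rho φ ψ (1 - y) := by
  rw [r2, mem_filter, mem_sols, mem_sols] at hy
  obtain ⟨⟨h0, h1, e1⟩, _, _, e2⟩ := hy
  have h1' : 1 - y ≠ 0 := sub_ne_zero.2 (Ne.symm h1)
  rw [sub_sub_cancel, psi_eq φ ψ h0] at e2
  rw [psi_eq φ ψ h1'] at e1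
  linear_combination A * e1 - B * rho φ ψ (1 - y) * e2

theorem rs_key {φ ψ : ZMod p →*₀ ZMod p} (hψ : Function.Injective ψ) (hp : p ≠ 2) {A B y : ZMod p}
    (hy : y ∈ rs (sols φ ψ A B)) :
    (A - B * B * rho φ ψ y) * φ y = 1 - A * B * rho φ ψ (1 - y) := by
  rw [rs, mem_filter, mem_sols, mem_sols] at hy
  obtain ⟨⟨h0, h1, e1⟩, _, _, e2⟩ := hy
  have h1' : 1 - y ≠ 0 := sub_ne_zero.2 (Ne.symm h1)
  have e : 1 - (1 - y)⁻¹ = -(y / (1 - y)) := by field_simp; ring
  rw [e, map_neg' ψ hψ hp, map_inv₀, map_div₀, psi_eq φ ψ h0, psi_eq φ ψ h1'] at e2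
  rw [psi_eq φ ψ h1'] at e1
  have f0 := map_ne (φ := φ) h1'
  have f1 := rho_ne φ ψ h1'
  field_simp at e2
  linear_combination e1 + B * e2

theorem cell_eq_empty {φ ψ : ZMod p →*₀ ZMod p} {a b : ZMod p}
    (h : a ∉ ratios φ ψ ∨ b ∉ ratios φ ψ) : cell φ ψ a b = ∅ := by
  rw [cell, filter_eq_empty_iff]
  rintro y hy ⟨h1, h2⟩
  rw [mem_vv] at hy
  rcases h with h | h
  · exact h (h1 ▸ rho_mem φ ψ hy.1)
  · exact h (h2 ▸ rho_mem φ ψ (sub_ne_zero.2 (Ne.symm hy.2)))

/-- The bound for elements of `S` whose inverse is in `S`, general position. -/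
theorem r0_le {φ ψ : ZMod p →*₀ ZMod p} (hφ : Function.Injective φ) (hψ : Function.Injective ψ)
    (hp : p ≠ 2) {A B : ZMod p} (hA : A * A ≠ 1) :
    (r0 (sols φ ψ A B)).card ≤ (ratios φ ψ).card := by
  refine card_le_card_of_injOn (rho φ ψ) ?_ ?_
  · intro y hy
    rw [mem_coe, r0, mem_filter, mem_sols] at hy
    exact rho_mem φ ψ hy.1.1
  · intro y hy z hz h
    have e1 := r0_key hψ hp hy
    have e2 := r0_key hψ hp hz
    rw [h] at e1
    have h3 : A - rho φ ψ z ≠ 0 := by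
      intro h0
      rw [h0, zero_mul] at e1
      apply hA
      linear_combination A * h0 + e1
    exact hφ (mul_left_cancel₀ h3 (e1.trans e2.symm))

/-- The bound for elements of `S` whose inverse is in `S`, special position. -/
theorem r0_sub {φ ψ : ZMod p →*₀ ZMod p} (hφ : Function.Injective φ) (hψ : Function.Injective ψ)
    (hp : p ≠ 2) {A B : ZMod p} (hA : A * A = 1) :
    r0 (sols φ ψ A B) ⊆ insert A (row φ ψ A) := by
  intro y hy
  have e1 := r0_key hψ hp hy
  rw [r0, mem_filter, mem_sols] at hy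
  obtain ⟨⟨h0, h1, _⟩, _⟩ := hy
  rw [mem_insert, row, mem_filter, mem_vv]
  by_cases h : rho φ ψ y = A
  · exact Or.inr ⟨⟨h0, h1⟩, h⟩
  · left
    have h3 : A - rho φ ψ y ≠ 0 := sub_ne_zero.2 (Ne.symm h)
    have h4 : φ y = A := by
      apply mul_left_cancel₀ h3
      linear_combination e1 - hA
    have h5 : φ A = A := by
      rcases mul_self_eq_one_iff.1 hA with h5 | h5
      · rw [h5, map_one]
      · rw [h5, map_neg_one φ hφ hp]
    exact hφ (h4.trans h5.symm)

theorem r0_le_one {φ ψ : ZMod p →*₀ ZMod p} (hφ : Function.Injective φ)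
    (hψ : Function.Injective ψ) (hp : p ≠ 2) {B : ZMod p} :
    (r0 (sols φ ψ 1 B)).card ≤ (row φ ψ 1).card := by
  apply card_le_card
  intro y hy
  have h := r0_sub hφ hψ hp (one_mul 1) hy
  rcases mem_insert.1 h with h | h
  · rw [r0, mem_filter, mem_sols] at hy
    exact absurd h hy.1.2.1
  · exact h

theorem r0_le_sq {φ ψ : ZMod p →*₀ ZMod p} (hφ : Function.Injective φ)
    (hψ : Function.Injective ψ) (hp : p ≠ 2) {A B : ZMod p} (hA : A * A = 1) :
    (r0 (sols φ ψ A B)).card ≤ (row φ ψ A).card + 1 :=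
  (card_le_card (r0_sub hφ hψ hp hA)).trans (card_insert_le _ _)

/-- The bound for `1 - y`. -/
theorem r2_le {φ ψ : ZMod p →*₀ ZMod p} (hφ : Function.Injective φ) {A B : ZMod p}
    (hB : B ≠ 0) :
    (r2 (sols φ ψ A B)).card ≤ ((ratios φ ψ).erase (A / B)).card *
      ((ratios φ ψ).erase (A / B)).card + (cell φ ψ (A / B) (A / B)).card := by
  classical
  rw [← card_filter_add_card_filter_not (s := r2 (sols φ ψ A B))
    (p := fun y => ¬ (rho φ ψ y = A / B ∧ rho φ ψ (1 - y) = A / B))]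
  refine add_le_add ?_ (card_le_card ?_)
  · rw [← card_product]
    have key : ∀ y ∈ (r2 (sols φ ψ A B)).filter
        (fun y => ¬ (rho φ ψ y = A / B ∧ rho φ ψ (1 - y) = A / B)),
        rho φ ψ (1 - y) ≠ A / B ∧ rho φ ψ y ≠ A / B ∧
          A * A - B * B * rho φ ψ y * rho φ ψ (1 - y) ≠ 0 := by
      intro y hy
      rw [mem_filter] at hy
      obtain ⟨hy, hn⟩ := hy
      have e1 := r2_key hy
      have hy' : 1 - y ∈ r2 (sols φ ψ A B) := by
        rw [r2, mem_filter] at hy ⊢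
        rw [sub_sub_cancel]
        exact ⟨hy.2, hy.1⟩
      have e2 := r2_key hy'
      rw [sub_sub_cancel] at e2
      rw [r2, mem_filter, mem_sols] at hy
      obtain ⟨⟨h0, h1, _⟩, _⟩ := hy
      have h1' : 1 - y ≠ 0 := sub_ne_zero.2 (Ne.symm h1)
      have f0 := map_ne (φ := φ) h0
      have f1 := map_ne (φ := φ) h1'
      have g0 := rho_ne φ ψ h0
      have g1 := rho_ne φ ψ h1'
      have hD : A * A - B * B * rho φ ψ y * rho φ ψ (1 - y) ≠ 0 := by
        intro hD
        apply hn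
        rw [hD, zero_mul] at e1
        have hD2 : A * A - B * B * rho φ ψ (1 - y) * rho φ ψ y = 0 := by
          linear_combination hD
        rw [hD2, zero_mul] at e2
        constructor
        · rw [eq_div_iff hB]; linear_combination e2
        · rw [eq_div_iff hB]; linear_combination e1
      refine ⟨fun h => ?_, fun h => ?_, hD⟩
      · rw [eq_div_iff hB] at h
        have h3 : A - B * rho φ ψ (1 - y) = 0 := by linear_combination -h
        rw [h3] at e1
        rcases mul_eq_zero.1 e1 with h4 | h4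
        · exact hD h4
        · exact f0 h4
      · rw [eq_div_iff hB] at h
        have h3 : A - B * rho φ ψ y = 0 := by linear_combination -h
        rw [h3] at e2
        rcases mul_eq_zero.1 e2 with h4 | h4
        · exact hD (by linear_combination h4)
        · exact f1 h4
    refine card_le_card_of_injOn (fun y => (rho φ ψ y, rho φ ψ (1 - y))) ?_ ?_
    · intro y hy
      rw [mem_coe] at hy
      obtain ⟨k1, k2, _⟩ := key y hy
      rw [mem_filter, r2, mem_filter, mem_sols] at hy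
      obtain ⟨⟨⟨h0, h1, _⟩, _⟩, _⟩ := hy
      rw [mem_coe, mem_product, mem_erase, mem_erase]
      exact ⟨⟨k2, rho_mem φ ψ h0⟩, ⟨k1, rho_mem φ ψ (sub_ne_zero.2 (Ne.symm h1))⟩⟩
    · intro y hy z hz h
      rw [mem_coe] at hy hz
      obtain ⟨_, _, k3⟩ := key y hy
      have e1 := r2_key (mem_filter.1 hy).1
      have e2 := r2_key (mem_filter.1 hz).1
      simp only [Prod.mk.injEq] at h
      rw [← h.1, ← h.2] at e2
      exact hφ (mul_left_cancel₀ k3 (e1.trans e2.symm))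
  · intro y hy
    rw [mem_filter, not_not, r2, mem_filter, mem_sols] at hy
    obtain ⟨⟨⟨h0, h1, _⟩, _⟩, h⟩ := hy
    rw [cell, mem_filter, mem_vv]
    exact ⟨⟨h0, h1⟩, h⟩

/-- The bound for `1 / (1 - y)`. -/
theorem rs_le {φ ψ : ZMod p →*₀ ZMod p} (hφ : Function.Injective φ) (hψ : Function.Injective ψ)
    (hp : p ≠ 2) {A B : ZMod p} (hA : A ≠ 0) (hB : B ≠ 0) :
    (rs (sols φ ψ A B)).card ≤ ((ratios φ ψ).erase (A / (B * B))).card *
      ((ratios φ ψ).erase (1 / (A * B))).card + (cell φ ψ (A / (B * B)) (1 / (A * B))).card := by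
  classical
  rw [← card_filter_add_card_filter_not (s := rs (sols φ ψ A B))
    (p := fun y => ¬ (rho φ ψ y = A / (B * B) ∧ rho φ ψ (1 - y) = 1 / (A * B)))]
  have hBB : B * B ≠ 0 := mul_ne_zero hB hB
  have hAB : A * B ≠ 0 := mul_ne_zero hA hB
  refine add_le_add ?_ (card_le_card ?_)
  · rw [← card_product]
    have key : ∀ y ∈ (rs (sols φ ψ A B)).filter
        (fun y => ¬ (rho φ ψ y = A / (B * B) ∧ rho φ ψ (1 - y) = 1 / (A * B))),
        rho φ ψ (1 - y) ≠ 1 / (A * B) ∧ rho φ ψ y ≠ A / (B * B) ∧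
          A - B * B * rho φ ψ y ≠ 0 := by
      intro y hy
      rw [mem_filter] at hy
      obtain ⟨hy, hn⟩ := hy
      have e1 := rs_key hψ hp hy
      rw [rs, mem_filter, mem_sols] at hy
      obtain ⟨⟨h0, h1, _⟩, _⟩ := hy
      have f0 := map_ne (φ := φ) h0
      have hD : A - B * B * rho φ ψ y ≠ 0 := by
        intro hD
        apply hn
        rw [hD, zero_mul] at e1
        constructor
        · rw [eq_div_iff hBB]; linear_combination -hD
        · rw [eq_div_iff hAB]; linear_combination e1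
      refine ⟨fun h => ?_, fun h => ?_, hD⟩
      · rw [eq_div_iff hAB] at h
        have h3 : 1 - A * B * rho φ ψ (1 - y) = 0 := by linear_combination -h
        rw [h3] at e1
        rcases mul_eq_zero.1 e1 with h4 | h4
        · exact hD h4
        · exact f0 h4
      · rw [eq_div_iff hBB] at h
        exact hD (by linear_combination -h)
    refine card_le_card_of_injOn (fun y => (rho φ ψ y, rho φ ψ (1 - y))) ?_ ?_
    · intro y hy
      rw [mem_coe] at hy
      obtain ⟨k1, k2, _⟩ := key y hy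
      rw [mem_filter, rs, mem_filter, mem_sols] at hy
      obtain ⟨⟨⟨h0, h1, _⟩, _⟩, _⟩ := hy
      rw [mem_coe, mem_product, mem_erase, mem_erase]
      exact ⟨⟨k2, rho_mem φ ψ h0⟩, ⟨k1, rho_mem φ ψ (sub_ne_zero.2 (Ne.symm h1))⟩⟩
    · intro y hy z hz h
      rw [mem_coe] at hy hz
      obtain ⟨_, _, k3⟩ := key y hy
      have e1 := rs_key hψ hp (mem_filter.1 hy).1
      have e2 := rs_key hψ hp (mem_filter.1 hz).1
      simp only [Prod.mk.injEq] at h
      rw [← h.1, ← h.2] at e2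
      exact hφ (mul_left_cancel₀ k3 (e1.trans e2.symm))
  · intro y hy
    rw [mem_filter, not_not, rs, mem_filter, mem_sols] at hy
    obtain ⟨⟨⟨h0, h1, _⟩, _⟩, h⟩ := hy
    rw [cell, mem_filter, mem_vv]
    exact ⟨⟨h0, h1⟩, h⟩

theorem rho_swap (φ ψ : ZMod p →*₀ ZMod p) (y : ZMod p) : rho ψ φ y = (rho φ ψ y)⁻¹ := by
  rw [rho, rho, inv_div]

theorem card_ratios_swap (φ ψ : ZMod p →*₀ ZMod p) : (ratios ψ φ).card = (ratios φ ψ).card := by
  classical
  have : ratios ψ φ = (ratios φ ψ).image fun z => z⁻¹ := by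
    ext z
    simp only [ratios, mem_image]
    constructor
    · rintro ⟨x, hx, rfl⟩
      exact ⟨_, ⟨x, hx, rfl⟩, by rw [inv_div]⟩
    · rintro ⟨_, ⟨x, hx, rfl⟩, rfl⟩
      exact ⟨x, hx, by rw [inv_div]⟩
  rw [this, card_image_of_injective _ inv_injective]

theorem r1_swap {φ ψ : ZMod p →*₀ ZMod p} {A B : ZMod p} :
    (r1 (sols φ ψ A B)).card ≤ (r0 (sols ψ φ B A)).card := by
  have hsw : ∀ {y : ZMod p}, y ∈ sols φ ψ A B → 1 - y ∈ sols ψ φ B A := by
    intro y hy
    rw [mem_sols] at hy ⊢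
    obtain ⟨h0, h1, h⟩ := hy
    refine ⟨sub_ne_zero.2 (Ne.symm h1), fun h2 => h0 (by linear_combination -h2), ?_⟩
    rw [sub_sub_cancel]
    linear_combination h
  refine card_le_card_of_injOn (fun y => 1 - y) ?_ ?_
  · intro y hy
    rw [mem_coe, r1, mem_filter] at hy
    rw [mem_coe, r0, mem_filter]
    obtain ⟨h1, h2⟩ := hy
    have h3 := mem_sols.1 h1
    have h4 : y - 1 ≠ 0 := sub_ne_zero.2 h3.2.1
    have h4' : 1 - y ≠ 0 := sub_ne_zero.2 (Ne.symm h3.2.1)
    refine ⟨hsw h1, ?_⟩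
    have e : (1 - y)⁻¹ = 1 - y / (y - 1) := by
      have : 1 - y / (y - 1) = -(1 / (y - 1)) := by field_simp; ring
      rw [this, ← neg_sub, inv_neg, one_div]
    beta_reduce
    rw [e]
    exact hsw h2
  · intro a _ b _ h
    simp only at h
    linear_combination -h

theorem row_swap (φ ψ : ZMod p →*₀ ZMod p) {a : ZMod p} (ha : a * a = 1) :
    row ψ φ a = row φ ψ a := by
  have h1 : a⁻¹ = a := inv_eq_of_mul_eq_one_left ha
  rw [row, row]
  apply filter_congr
  intro y _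
  rw [rho_swap]
  constructor
  · intro h; rw [← h1, ← h, inv_inv]
  · intro h; rw [h, h1]

theorem r1_le {φ ψ : ZMod p →*₀ ZMod p} (hφ : Function.Injective φ) (hψ : Function.Injective ψ)
    (hp : p ≠ 2) {A B : ZMod p} (hB : B * B ≠ 1) :
    (r1 (sols φ ψ A B)).card ≤ (ratios φ ψ).card :=
  r1_swap.trans ((r0_le hψ hφ hp hB).trans (card_ratios_swap φ ψ).le)

theorem r1_le_sq {φ ψ : ZMod p →*₀ ZMod p} (hφ : Function.Injective φ)
    (hψ : Function.Injective ψ) (hp : p ≠ 2) {A B : ZMod p} (hB : B * B = 1) :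
    (r1 (sols φ ψ A B)).card ≤ (row φ ψ B).card + 1 :=
  r1_swap.trans ((r0_le_sq hψ hφ hp hB).trans (by rw [row_swap φ ψ hB]))

end Pool.Agent.Helper459_costas
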