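import Mathlib
import Pool.Agent.Helper459_costas.Rbound

open Finset

namespace Pool.Agent.Helper459_costas

variable {p : ℕ} [Fact p.Prime]

section group
variable (φ ψ : ZMod p →*₀ ZMod p)

theorem mem_ratios {z : ZMod p} : z ∈ ratios φ ψ ↔ ∃ y, y ≠ 0 ∧ rho φ ψ y = z := by
  rw [ratios, mem_image]
  simp only [mem_nz, rho]

theorem rho_mul (x y : ZMod p) : rho φ ψ (x * y) = rho φ ψ x * rho φ ψ y := by
  rw [rho, rho, rho, map_mul, map_mul, mul_div_mul_comm]

theorem rho_inv (x : ZMod p) : rho φ ψ x⁻¹ = (rho φ ψ x)⁻¹ := by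
  rw [rho, rho, map_inv₀, map_inv₀, inv_div_inv, inv_div]

theorem rho_div (x y : ZMod p) : rho φ ψ (x / y) = rho φ ψ x / rho φ ψ y := by
  rw [div_eq_mul_inv, rho_mul, rho_inv, div_eq_mul_inv]

theorem rho_one : rho φ ψ 1 = 1 := by
  rw [rho, map_one, map_one, div_one]

theorem one_mem_ratios : (1 : ZMod p) ∈ ratios φ ψ :=
  (mem_ratios φ ψ).2 ⟨1, one_ne_zero, rho_one φ ψ⟩

theorem mul_mem_ratios {a b : ZMod p} (ha : a ∈ ratios φ ψ) (hb : b ∈ ratios φ ψ) :
    a * b ∈ ratios φ ψ := by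
  rw [mem_ratios] at *
  obtain ⟨x, hx, rfl⟩ := ha
  obtain ⟨y, hy, rfl⟩ := hb
  exact ⟨x * y, mul_ne_zero hx hy, rho_mul φ ψ x y⟩

theorem inv_mem_ratios {a : ZMod p} (ha : a ∈ ratios φ ψ) : a⁻¹ ∈ ratios φ ψ := by
  rw [mem_ratios] at *
  obtain ⟨x, hx, rfl⟩ := ha
  exact ⟨x⁻¹, inv_ne_zero hx, rho_inv φ ψ x⟩

theorem pow_card_ratios {z : ZMod p} (hz : z ∈ ratios φ ψ) : z ^ (ratios φ ψ).card = 1 := by
  have hz0 := ratios_ne_zero hz
  have h1 : ∏ a ∈ ratios φ ψ, (z * a) = ∏ a ∈ ratios φ ψ, a := by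
    refine prod_nbij' (fun a => z * a) (fun a => z⁻¹ * a) ?_ ?_ ?_ ?_ ?_
    · intro a ha; exact mul_mem_ratios φ ψ hz ha
    · intro a ha; exact mul_mem_ratios φ ψ (inv_mem_ratios φ ψ hz) ha
    · intro a _; beta_reduce; rw [← mul_assoc, inv_mul_cancel₀ hz0, one_mul]
    · intro a _; beta_reduce; rw [← mul_assoc, mul_inv_cancel₀ hz0, one_mul]
    · intro a _; rfl
  rw [prod_mul_distrib, prod_const] at h1
  have h2 : ∏ a ∈ ratios φ ψ, a ≠ 0 := prod_ne_zero_iff.2 fun a ha => ratios_ne_zero ha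
  exact mul_right_cancel₀ h2 (h1.trans (one_mul _).symm)

theorem row_insert {a : ZMod p} :
    ((nz p).filter fun x => rho φ ψ x = a) = if a = 1 then insert 1 (row φ ψ a) else row φ ψ a := by
  ext x
  split_ifs with h
  · rw [mem_filter, mem_nz, mem_insert, row, mem_filter, mem_vv]
    constructor
    · rintro ⟨h1, h2⟩
      by_cases hx : x = 1
      · exact Or.inl hx
      · exact Or.inr ⟨⟨h1, hx⟩, h2⟩
    · rintro (h1 | ⟨⟨h1, _⟩, h2⟩)
      · rw [h1, rho_one, h]; exact ⟨one_ne_zero, rfl⟩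
      · exact ⟨h1, h2⟩
  · rw [mem_filter, mem_nz, row, mem_filter, mem_vv]
    constructor
    · rintro ⟨h1, h2⟩
      refine ⟨⟨h1, ?_⟩, h2⟩
      rintro rfl
      exact h (h2 ▸ rho_one φ ψ)
    · rintro ⟨⟨h1, _⟩, h2⟩
      exact ⟨h1, h2⟩

theorem card_row_one : (row φ ψ 1).card + 1 = (eqs φ ψ).card := by
  have h1 := card_fiber φ ψ (y := 1) one_ne_zero
  have h2 := row_insert φ ψ (a := 1)
  rw [if_pos rfl] at h2
  have h3 : (1 : ZMod p) ∉ row φ ψ 1 := by
    rw [row, mem_filter, mem_vv]; tauto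
  rw [← h1, ← card_insert_of_notMem h3, ← h2]
  simp only [rho, map_one, div_one]

theorem card_row_of_ne {a : ZMod p} (ha : a ∈ ratios φ ψ) (h1 : a ≠ 1) :
    (row φ ψ a).card = (eqs φ ψ).card := by
  obtain ⟨y, hy, h⟩ := (mem_ratios φ ψ).1 ha
  have h2 := row_insert φ ψ (a := a)
  rw [if_neg h1] at h2
  rw [← h2, ← card_fiber φ ψ hy, ← h]
  simp only [rho]

theorem row_eq_empty {a : ZMod p} (ha : a ∉ ratios φ ψ) : row φ ψ a = ∅ := by
  rw [row, filter_eq_empty_iff]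
  intro y hy h
  rw [mem_vv] at hy
  exact ha (h ▸ rho_mem φ ψ hy.1)

theorem card_row_le (a : ZMod p) : (row φ ψ a).card ≤ (eqs φ ψ).card := by
  by_cases ha : a ∈ ratios φ ψ
  · by_cases h1 : a = 1
    · have := card_row_one φ ψ
      rw [h1]; omega
    · exact (card_row_of_ne φ ψ ha h1).le
  · rw [row_eq_empty φ ψ ha]; simp

end group

/-- Elements of a cell on a line. -/
def lin (φ ψ : ZMod p →*₀ ZMod p) (a b u v w : ZMod p) : Finset (ZMod p) :=
  (cell φ ψ a b).filter fun y => u * φ y + v * φ (1 - y) = w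

section sym
variable {φ ψ : ZMod p →*₀ ZMod p}

theorem mem_cell {a b y : ZMod p} :
    y ∈ cell φ ψ a b ↔ (y ≠ 0 ∧ y ≠ 1) ∧ rho φ ψ y = a ∧ rho φ ψ (1 - y) = b := by
  rw [cell, mem_filter, mem_vv]

theorem mem_lin {a b u v w y : ZMod p} :
    y ∈ lin φ ψ a b u v w ↔ ((y ≠ 0 ∧ y ≠ 1) ∧ rho φ ψ y = a ∧ rho φ ψ (1 - y) = b) ∧
      u * φ y + v * φ (1 - y) = w := by
  rw [lin, mem_filter, mem_cell]

theorem lin_swap_le (a b u v w : ZMod p) :
    (lin φ ψ a b u v w).card ≤ (lin φ ψ b a v u w).card := by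
  refine card_le_card_of_injOn (fun y => 1 - y) ?_ ?_
  · intro y hy
    rw [mem_coe, mem_lin] at *
    obtain ⟨⟨⟨h0, h1⟩, h2, h3⟩, h4⟩ := hy
    beta_reduce
    rw [sub_sub_cancel]
    exact ⟨⟨⟨sub_ne_zero.2 (Ne.symm h1), fun h => h0 (by linear_combination -h)⟩, h3, h2⟩,
      by linear_combination h4⟩
  · intro x _ y _ h
    simp only at h
    linear_combination -h

theorem lin_swap (a b u v w : ZMod p) :
    (lin φ ψ a b u v w).card = (lin φ ψ b a v u w).card :=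
  le_antisymm (lin_swap_le a b u v w) (lin_swap_le b a v u w)

theorem rho_one_sub_inv (hφ : Function.Injective φ) (hψ : Function.Injective ψ) (hp : p ≠ 2)
    {y : ZMod p} (hy : y ≠ 0) : rho φ ψ (1 - y⁻¹) = rho φ ψ (1 - y) / rho φ ψ y := by
  have e : 1 - y⁻¹ = -1 * ((1 - y) / y) := by field_simp; ring
  rw [e, rho_mul, rho_div]
  have : rho φ ψ (-1) = 1 := by
    rw [rho, map_neg_one φ hφ hp, map_neg_one ψ hψ hp, div_self]
    exact neg_ne_zero.2 one_ne_zero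
  rw [this, one_mul]

theorem lin_inv_le (hφ : Function.Injective φ) (hψ : Function.Injective ψ) (hp : p ≠ 2)
    (a b u v w : ZMod p) :
    (lin φ ψ a b u v w).card ≤ (lin φ ψ a⁻¹ (b / a) w v u).card := by
  refine card_le_card_of_injOn (fun y => y⁻¹) ?_ ?_
  · intro y hy
    rw [mem_coe, mem_lin] at *
    obtain ⟨⟨⟨h0, h1⟩, h2, h3⟩, h4⟩ := hy
    beta_reduce
    refine ⟨⟨⟨inv_ne_zero h0, fun h => h1 (inv_eq_one.1 h)⟩, ?_, ?_⟩, ?_⟩
    · rw [rho_inv, h2]
    · rw [rho_one_sub_inv hφ hψ hp h0, h2, h3]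
    · have e : 1 - y⁻¹ = -((1 - y) / y) := by field_simp; ring
      rw [e, map_neg' φ hφ hp, map_div₀, map_inv₀]
      have f0 := map_ne (φ := φ) h0
      field_simp
      linear_combination -h4
  · intro x _ y _ h
    exact inv_injective h

theorem lin_inv (hφ : Function.Injective φ) (hψ : Function.Injective ψ) (hp : p ≠ 2)
    {a : ZMod p} (ha : a ≠ 0) (b u v w : ZMod p) :
    (lin φ ψ a b u v w).card = (lin φ ψ a⁻¹ (b / a) w v u).card := by
  refine le_antisymm (lin_inv_le hφ hψ hp a b u v w) ?_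
  have h := lin_inv_le hφ hψ hp a⁻¹ (b / a) w v u
  have e : b / a / a⁻¹ = b := by field_simp
  rwa [inv_inv, e] at h

theorem card_cell_eq (a b : ZMod p) : (cell φ ψ a b).card = (lin φ ψ a b 0 0 0).card := by
  congr 1
  ext y
  rw [mem_lin, mem_cell]
  simp

theorem cell_swap (a b : ZMod p) : (cell φ ψ a b).card = (cell φ ψ b a).card := by
  rw [card_cell_eq, card_cell_eq, lin_swap]

theorem cell_inv (hφ : Function.Injective φ) (hψ : Function.Injective ψ) (hp : p ≠ 2)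
    {a : ZMod p} (ha : a ≠ 0) (b : ZMod p) :
    (cell φ ψ a b).card = (cell φ ψ a⁻¹ (b / a)).card := by
  rw [card_cell_eq, card_cell_eq, lin_inv hφ hψ hp ha]

theorem lin_sub_cell (a b u v w : ZMod p) : lin φ ψ a b u v w ⊆ cell φ ψ a b := filter_subset _ _

/-- The number of solutions, cell by cell. -/
theorem card_sols_eq (A B : ZMod p) : (sols φ ψ A B).card =
    ∑ a ∈ ratios φ ψ, ∑ b ∈ ratios φ ψ, (lin φ ψ a b A (B * b) 1).card := by
  classical
  have hmap : Set.MapsTo (fun y => (rho φ ψ y, rho φ ψ (1 - y))) (sols φ ψ A B : Set (ZMod p))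
      (ratios φ ψ ×ˢ ratios φ ψ : Finset (ZMod p × ZMod p)) := by
    intro y hy
    rw [mem_coe, mem_sols] at hy
    rw [mem_coe, mem_product]
    exact ⟨rho_mem φ ψ hy.1, rho_mem φ ψ (sub_ne_zero.2 (Ne.symm hy.2.1))⟩
  rw [card_eq_sum_card_fiberwise hmap, sum_product]
  refine sum_congr rfl fun a _ => sum_congr rfl fun b _ => ?_
  congr 1
  ext y
  rw [mem_filter, mem_sols, mem_lin, Prod.mk.injEq]
  constructor
  · rintro ⟨⟨h0, h1, h2⟩, h3, h4⟩
    refine ⟨⟨⟨h0, h1⟩, h3, h4⟩, ?_⟩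
    rw [psi_eq φ ψ (sub_ne_zero.2 (Ne.symm h1)), h4] at h2
    linear_combination h2
  · rintro ⟨⟨⟨h0, h1⟩, h3, h4⟩, h2⟩
    refine ⟨⟨h0, h1, ?_⟩, h3, h4⟩
    rw [psi_eq φ ψ (sub_ne_zero.2 (Ne.symm h1)), h4]
    linear_combination h2

theorem card_row_eq (a : ZMod p) :
    (row φ ψ a).card = ∑ b ∈ ratios φ ψ, (cell φ ψ a b).card := by
  classical
  have hmap : Set.MapsTo (fun y => rho φ ψ (1 - y)) (row φ ψ a : Set (ZMod p))
      (ratios φ ψ : Set (ZMod p)) := by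
    intro y hy
    rw [mem_coe, row, mem_filter, mem_vv] at hy
    exact rho_mem φ ψ (sub_ne_zero.2 (Ne.symm hy.1.2))
  rw [card_eq_sum_card_fiberwise hmap]
  refine sum_congr rfl fun b _ => ?_
  congr 1
  ext y
  rw [mem_filter, row, mem_filter, mem_vv, mem_cell]
  tauto

theorem card_cell_le_left (a b : ZMod p) : (cell φ ψ a b).card ≤ (row φ ψ a).card := by
  apply card_le_card
  intro y hy
  rw [mem_cell] at hy
  rw [row, mem_filter, mem_vv]
  exact ⟨hy.1, hy.2.1⟩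

/-- Two different cells with the same second coordinate are disjoint. -/
theorem two_cells {a a' : ZMod p} (h : a ≠ a') (b : ZMod p) :
    (cell φ ψ a b).card + (cell φ ψ a' b).card ≤ (eqs φ ψ).card := by
  refine le_trans ?_ (card_row_le φ ψ b)
  rw [cell_swap a, cell_swap a']
  rw [← card_union_of_disjoint]
  · apply card_le_card
    intro y hy
    rw [mem_union, mem_cell, mem_cell] at hy
    rw [row, mem_filter, mem_vv]
    rcases hy with hy | hy
    · exact ⟨hy.1, hy.2.1⟩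
    · exact ⟨hy.1, hy.2.1⟩
  · rw [disjoint_left]
    intro y h1 h2
    rw [mem_cell] at h1 h2
    exact h (h1.2.2.symm.trans h2.2.2)

end sym

end Pool.Agent.Helper459_costas
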