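import Mathlib
import Pool.Agent.Helper459_costas.Cells

open Finset

namespace Pool.Agent.Helper459_costas

variable {p : ℕ} [Fact p.Prime]

theorem ne_zero_of_small {m : ℕ} (h0 : 0 < m) (h : m < p) : (m : ZMod p) ≠ 0 := by
  intro h1
  have := (ZMod.natCast_eq_zero_iff m p).1 h1
  exact absurd (Nat.le_of_dvd h0 this) (not_le.2 h)

/-- Second moment of the cells. -/
theorem second_moment (φ ψ : ZMod p →*₀ ZMod p) :
    ∑ a ∈ ratios φ ψ, ∑ b ∈ ratios φ ψ, (cell φ ψ a b).card ^ 2 ≤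
      (p - 2) + (((eqs φ ψ).card - 1) * ((eqs φ ψ).card - 1) - ((eqs φ ψ).card - 1)) := by
  classical
  set W := ((vv p) ×ˢ (vv p)).filter fun q =>
    (rho φ ψ q.1, rho φ ψ (1 - q.1)) = (rho φ ψ q.2, rho φ ψ (1 - q.2)) with hW
  have h1 : ∑ a ∈ ratios φ ψ, ∑ b ∈ ratios φ ψ, (cell φ ψ a b).card ^ 2 = W.card := by
    have hm : Set.MapsTo (fun q : ZMod p × ZMod p => (rho φ ψ q.1, rho φ ψ (1 - q.1)))
        (W : Set (ZMod p × ZMod p))
        (ratios φ ψ ×ˢ ratios φ ψ : Finset (ZMod p × ZMod p)) := by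
      intro q hq
      rw [mem_coe, hW, mem_filter, mem_product, mem_vv] at hq
      rw [mem_coe, mem_product]
      exact ⟨rho_mem φ ψ hq.1.1.1, rho_mem φ ψ (sub_ne_zero.2 (Ne.symm hq.1.1.2))⟩
    rw [card_eq_sum_card_fiberwise hm, sum_product]
    refine sum_congr rfl fun a _ => sum_congr rfl fun b _ => ?_
    rw [sq, ← card_product]
    congr 1
    ext q
    rw [mem_product, mem_filter, hW, mem_filter, mem_product, mem_cell, mem_cell, mem_vv, mem_vv,
      Prod.mk.injEq, Prod.mk.injEq]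
    constructor
    · rintro ⟨⟨a1, a2, a3⟩, b1, b2, b3⟩
      exact ⟨⟨⟨a1, b1⟩, a2.trans b2.symm, a3.trans b3.symm⟩, a2, a3⟩
    · rintro ⟨⟨⟨a1, b1⟩, a2, a3⟩, b2, b3⟩
      exact ⟨⟨a1, b2, b3⟩, b1, a2.symm.trans b2, a3.symm.trans b3⟩
  rw [h1, ← card_filter_add_card_filter_not (s := W) (p := fun q : ZMod p × ZMod p => q.1 = q.2)]
  refine add_le_add ?_ ?_
  · rw [← card_vv]
    refine card_le_card_of_injOn (fun q => q.1) ?_ ?_
    · intro q hq
      rw [mem_coe, mem_filter, hW, mem_filter, mem_product] at hq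
      exact hq.1.1.1
    · rintro ⟨a, b⟩ ha ⟨a', b'⟩ ha' h
      rw [mem_coe, mem_filter] at ha ha'
      have e1 : a = b := ha.2
      have e2 : a' = b' := ha'.2
      have e3 : a = a' := h
      rw [← e1, ← e2, e3]
  · have hE : (((eqs φ ψ).erase 1).offDiag).card =
        ((eqs φ ψ).card - 1) * ((eqs φ ψ).card - 1) - ((eqs φ ψ).card - 1) := by
      rw [offDiag_card, card_erase_of_mem]
      rw [eqs, mem_filter, mem_nz]
      exact ⟨one_ne_zero, by rw [map_one, map_one]⟩
    rw [← hE]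
    have heq : ∀ z : ZMod p, z ≠ 0 → rho φ ψ z = 1 → z ∈ eqs φ ψ := by
      intro z hz h
      rw [eqs, mem_filter, mem_nz]
      exact ⟨hz, ((div_eq_one_iff_eq (map_ne hz)).1 h).symm⟩
    have key : ∀ q ∈ W.filter (fun q => ¬ q.1 = q.2), ∀ u v, u = q.1 / q.2 →
        v = (1 - q.1) / (1 - q.2) → q.1 = u * q.2 ∧ q.2 * (u - v) = 1 - v ∧ u ≠ 1 ∧ v ≠ 1 ∧
          u ≠ v := by
      rintro q hq u v hu hv
      rw [mem_filter, hW, mem_filter, mem_product, mem_vv, mem_vv] at hq
      obtain ⟨⟨⟨⟨hx0, hx1⟩, hy0, hy1⟩, hc⟩, hne⟩ := hq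
      have h1y : 1 - q.2 ≠ 0 := sub_ne_zero.2 (Ne.symm hy1)
      have e1 : q.1 = u * q.2 := by rw [hu]; field_simp
      have e2 : 1 - q.1 = v * (1 - q.2) := by rw [hv]; field_simp
      refine ⟨e1, by linear_combination -e1 - e2, ?_, ?_, ?_⟩
      · intro h; rw [h, one_mul] at e1; exact hne e1
      · intro h; rw [h, one_mul] at e2; exact hne (by linear_combination -e2)
      · intro h
        rw [← h] at e2
        have h3 : u = 1 := by linear_combination -e1 - e2
        rw [h3, one_mul] at e1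
        exact hne e1
    refine card_le_card_of_injOn (fun q => (q.1 / q.2, (1 - q.1) / (1 - q.2))) ?_ ?_
    · intro q hq
      rw [mem_coe] at hq
      obtain ⟨_, _, k1, k2, k3⟩ := key q hq _ _ rfl rfl
      rw [mem_filter, hW, mem_filter, mem_product, mem_vv, mem_vv, Prod.mk.injEq] at hq
      obtain ⟨⟨⟨⟨hx0, hx1⟩, hy0, hy1⟩, hc1, hc2⟩, hne⟩ := hq
      have h1x : 1 - q.1 ≠ 0 := sub_ne_zero.2 (Ne.symm hx1)
      have h1y : 1 - q.2 ≠ 0 := sub_ne_zero.2 (Ne.symm hy1)
      rw [mem_coe, mem_offDiag, mem_erase, mem_erase]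
      refine ⟨⟨k1, heq _ (div_ne_zero hx0 hy0) ?_⟩, ⟨k2, heq _ (div_ne_zero h1x h1y) ?_⟩, k3⟩
      · rw [rho_div, hc1, div_self (rho_ne φ ψ hy0)]
      · rw [rho_div, hc2, div_self (rho_ne φ ψ h1y)]
    · intro q hq q' hq' h
      rw [mem_coe] at hq hq'
      simp only [Prod.mk.injEq] at h
      obtain ⟨k1, k2, _, _, k3⟩ := key q hq _ _ rfl rfl
      obtain ⟨l1, l2, _⟩ := key q' hq' _ _ h.1 h.2
      have hb : q.2 = q'.2 := mul_right_cancel₀ (sub_ne_zero.2 k3) (k2.trans l2.symm)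
      ext
      · rw [k1, l1, hb]
      · exact hb

/-- The case of equal exponents. -/
theorem k_one {φ ψ : ZMod p →*₀ ZMod p} (hφ : Function.Injective φ) (hψ : Function.Injective ψ)
    (hp : 7 ≤ p) (hk : (ratios φ ψ).card = 1) (hid : ∃ x, φ x ≠ x) {A B : ZMod p}
    (hA : A ≠ 0) (hB : B ≠ 0) : 2 * (sols φ ψ A B).card < p - 1 := by
  have hp2 : p ≠ 2 := by omega
  have hr1 : ∀ z ∈ ratios φ ψ, z = 1 := by
    obtain ⟨c, hc⟩ := card_eq_one.1 hk
    intro z hz
    have h1 := one_mem_ratios φ ψ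
    rw [hc, mem_singleton] at hz h1
    rw [hz, h1]
  have hφψ : ∀ x, ψ x = φ x := by
    intro x
    by_cases hx : x = 0
    · rw [hx, map_zero, map_zero]
    · have := hr1 _ (rho_mem φ ψ hx)
      rw [psi_eq φ ψ hx, this, one_mul]
  by_contra hcon
  have hN : p - 1 ≤ 2 * (sols φ ψ A B).card := not_lt.1 hcon
  have hS : sols φ ψ A B ⊆ vv p := sols_sub_vv
  have q02 := ineq02 hS
  have q01 := ineq01 hS
  have q12 := ineq12 hS
  have q0 := ineq0 hS
  have q1 := ineq1 hS
  have q2 := ineq2 hS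
  by_cases hAB1 : A = 1 ∧ B = 1
  · have h := five_bound hφ (by omega) hid
    have e : sols φ ψ A B = sols φ φ 1 1 := by
      ext x
      rw [mem_sols, mem_sols, hAB1.1, hAB1.2, hφψ]
    rw [e] at hN
    omega
  have hR0 : A ≠ 1 → (r0 (sols φ ψ A B)).card ≤ 1 := by
    intro h
    by_cases hAA : A * A = 1
    · have h1 := r0_le_sq hφ hψ hp2 (B := B) hAA
      rw [row_eq_empty φ ψ (fun h2 => h (hr1 _ h2))] at h1
      simpa using h1
    · have h1 := r0_le hφ hψ hp2 (B := B) hAA
      rw [hk] at h1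
      exact h1
  have hR1 : B ≠ 1 → (r1 (sols φ ψ A B)).card ≤ 1 := by
    intro h
    by_cases hBB : B * B = 1
    · have h1 := r1_le_sq hφ hψ hp2 (A := A) hBB
      rw [row_eq_empty φ ψ (fun h2 => h (hr1 _ h2))] at h1
      simpa using h1
    · have h1 := r1_le hφ hψ hp2 (A := A) hBB
      rw [hk] at h1
      exact h1
  have her : ∀ c, ((ratios φ ψ).erase c).card ≤ 1 := fun c => by
    have := card_le_card (erase_subset c (ratios φ ψ))
    rw [hk] at this; exact this
  have hR2 : A ≠ B → (r2 (sols φ ψ A B)).card ≤ 1 := by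
    intro h
    have h1 := r2_le (ψ := ψ) (A := A) hφ hB
    have h2 : cell φ ψ (A / B) (A / B) = ∅ := by
      apply cell_eq_empty
      left
      intro h3
      exact h ((div_eq_one_iff_eq hB).1 (hr1 _ h3))
    rw [h2, card_empty, add_zero] at h1
    have h3 := her (A / B)
    exact h1.trans (by nlinarith)
  by_cases hdeg : A / (B * B) = 1 ∧ 1 / (A * B) = 1
  · -- the exceptional class
    have e1 : A = B * B := (div_eq_one_iff_eq (mul_ne_zero hB hB)).1 hdeg.1
    have e2 : 1 = A * B := (div_eq_one_iff_eq (mul_ne_zero hA hB)).1 hdeg.2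
    have hB1 : B ≠ 1 := by
      intro h
      apply hAB1
      rw [h] at e1
      exact ⟨by rw [e1, one_mul], h⟩
    have hA1 : A ≠ 1 := by
      intro h
      rw [h, one_mul] at e2
      exact hB1 e2.symm
    have hAB : A ≠ B := by
      intro h
      rw [h] at e1
      exact hB1 (mul_left_cancel₀ hB (e1.symm.trans (mul_one B).symm))
    have c0 := hR0 hA1
    have c1 := hR1 hB1
    have c2 := hR2 hAB
    have d1 : 0 < (r1 (sols φ ψ A B)).card := by omega
    have d2 : 0 < (r2 (sols φ ψ A B)).card := by omega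
    rw [card_pos] at d1 d2
    have two : (2 : ZMod p) ∈ sols φ ψ A B := by
      obtain ⟨y, hy⟩ := d1
      have hy' : y / (y - 1) ∈ r1 (sols φ ψ A B) := by
        rw [r1, mem_filter] at hy ⊢
        refine ⟨hy.2, ?_⟩
        rw [t1_t1 (mem_sols.1 hy.1).2.1]
        exact hy.1
      have h3 := card_le_one.1 c1 y hy _ hy'
      rw [r1, mem_filter] at hy
      have h4 := mem_sols.1 hy.1
      have h5 : y - 1 ≠ 0 := sub_ne_zero.2 h4.2.1
      rw [eq_div_iff h5] at h3
      have h6 : y = 2 := by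
        apply mul_left_cancel₀ h4.1
        linear_combination h3
      rw [← h6]; exact hy.1
    have h20 : (2 : ZMod p) ≠ 0 := by
      have := ne_zero_of_small (p := p) (m := 2) (by norm_num) (by omega)
      exact_mod_cast this
    have h30 : (3 : ZMod p) ≠ 0 := by
      have := ne_zero_of_small (p := p) (m := 3) (by norm_num) (by omega)
      exact_mod_cast this
    have half : (2 : ZMod p)⁻¹ ∈ sols φ ψ A B := by
      obtain ⟨y, hy⟩ := d2
      have hy' : 1 - y ∈ r2 (sols φ ψ A B) := by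
        rw [r2, mem_filter] at hy ⊢
        refine ⟨hy.2, ?_⟩
        rw [sub_sub_cancel]
        exact hy.1
      have h3 := card_le_one.1 c2 y hy _ hy'
      rw [r2, mem_filter] at hy
      have h6 : y = 2⁻¹ := by
        rw [eq_comm, inv_eq_iff_eq_inv, eq_comm]
        apply inv_eq_of_mul_eq_one_right
        linear_combination h3
      rw [← h6]; exact hy.1
    have m1 : (2 : ZMod p) ∈ r0 (sols φ ψ A B) := by
      rw [r0, mem_filter]; exact ⟨two, half⟩
    have m2 : (2 : ZMod p)⁻¹ ∈ r0 (sols φ ψ A B) := by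
      rw [r0, mem_filter, inv_inv]; exact ⟨half, two⟩
    have h7 := card_le_one.1 c0 _ m1 _ m2
    apply h30
    have h8 : (2 : ZMod p) * 2 = 2 * 2⁻¹ := by rw [← h7]
    rw [mul_inv_cancel₀ h20] at h8
    linear_combination h8
  · have hRs : (rs (sols φ ψ A B)).card ≤ 1 := by
      have h1 := rs_le hφ hψ hp2 hA hB
      have h2 : cell φ ψ (A / (B * B)) (1 / (A * B)) = ∅ := by
        apply cell_eq_empty
        by_contra h3
        rw [not_or, not_not, not_not] at h3
        exact hdeg ⟨hr1 _ h3.1, hr1 _ h3.2⟩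
      rw [h2, card_empty, add_zero] at h1
      have h3 := her (A / (B * B))
      have h4 := her (1 / (A * B))
      exact h1.trans (by nlinarith)
    by_cases hA1 : A = 1
    · have hB1 : B ≠ 1 := fun h => hAB1 ⟨hA1, h⟩
      have hAB : A ≠ B := fun h => hB1 (h ▸ hA1)
      have := hR1 hB1
      have := hR2 hAB
      omega
    · have := hR0 hA1
      by_cases hB1 : B = 1
      · have := hR2 (fun h => hA1 (h.trans hB1))
        omega
      · have := hR1 hB1
        omega

end Pool.Agent.Helper459_costas
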