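import Mathlib
import Pool.Agent.Helper459_costas.Kone

open Finset

namespace Pool.Agent.Helper459_costas

variable {p : ℕ} [Fact p.Prime]

/-- Decomposition of a set into cells. -/
theorem card_dec (φ ψ : ZMod p →*₀ ZMod p) {T : Finset (ZMod p)} (hT : T ⊆ vv p) : T.card =
    ∑ a ∈ ratios φ ψ, ∑ b ∈ ratios φ ψ,
      (T.filter fun y => rho φ ψ y = a ∧ rho φ ψ (1 - y) = b).card := by
  classical
  have hmap : Set.MapsTo (fun y => (rho φ ψ y, rho φ ψ (1 - y))) (T : Set (ZMod p))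
      (ratios φ ψ ×ˢ ratios φ ψ : Finset (ZMod p × ZMod p)) := by
    intro y hy
    have := mem_vv.1 (hT (mem_coe.1 hy))
    rw [mem_coe, mem_product]
    exact ⟨rho_mem φ ψ this.1, rho_mem φ ψ (sub_ne_zero.2 (Ne.symm this.2))⟩
  rw [card_eq_sum_card_fiberwise hmap, sum_product]
  refine sum_congr rfl fun a _ => sum_congr rfl fun b _ => ?_
  congr 1
  ext y
  rw [mem_filter, mem_filter, Prod.mk.injEq]

theorem card_sols_left (φ ψ : ZMod p →*₀ ZMod p) : (sols φ φ 1 1).card =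
    ∑ a ∈ ratios φ ψ, ∑ b ∈ ratios φ ψ, (lin φ ψ a b 1 1 1).card := by
  rw [card_dec φ ψ sols_sub_vv]
  refine sum_congr rfl fun a _ => sum_congr rfl fun b _ => ?_
  congr 1
  ext y
  rw [mem_filter, mem_sols, mem_lin]
  tauto

theorem card_sols_right (φ ψ : ZMod p →*₀ ZMod p) : (sols ψ ψ 1 1).card =
    ∑ a ∈ ratios φ ψ, ∑ b ∈ ratios φ ψ, (lin φ ψ a b a b 1).card := by
  rw [card_dec φ ψ sols_sub_vv]
  refine sum_congr rfl fun a _ => sum_congr rfl fun b _ => ?_
  congr 1
  ext y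
  rw [mem_filter, mem_sols, mem_lin]
  constructor
  · rintro ⟨⟨h0, h1, h2⟩, h3, h4⟩
    refine ⟨⟨⟨h0, h1⟩, h3, h4⟩, ?_⟩
    rw [psi_eq φ ψ h0, psi_eq φ ψ (sub_ne_zero.2 (Ne.symm h1)), h3, h4] at h2
    linear_combination h2
  · rintro ⟨⟨⟨h0, h1⟩, h3, h4⟩, h2⟩
    refine ⟨⟨h0, h1, ?_⟩, h3, h4⟩
    rw [psi_eq φ ψ h0, psi_eq φ ψ (sub_ne_zero.2 (Ne.symm h1)), h3, h4]
    linear_combination h2

theorem lin_neg (φ ψ : ZMod p →*₀ ZMod p) (a b u v w : ZMod p) :
    (lin φ ψ a b (-u) (-v) (-w)).card = (lin φ ψ a b u v w).card := by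
  congr 1
  ext y
  rw [mem_lin, mem_lin]
  refine and_congr_right fun _ => ⟨fun h => by linear_combination -h, fun h => by
    linear_combination -h⟩

theorem four_ind {P Q R T : Prop} [Decidable P] [Decidable Q] [Decidable R] [Decidable T]
    (h12 : ¬ (P ∧ Q)) (h13 : ¬ (P ∧ R)) (h14 : ¬ (P ∧ T)) (h23 : ¬ (Q ∧ R)) (h24 : ¬ (Q ∧ T))
    (h34 : ¬ (R ∧ T)) :
    (if P then 1 else 0) + (if Q then 1 else 0) + (if R then 1 else 0) + (if T then 1 else 0) ≤
      1 := by
  split_ifs <;> first | omega | (exfalso; tauto)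

/-- Four lines in a cell. -/
theorem four_lines (φ ψ : ZMod p →*₀ ZMod p) (hp : 3 ≤ p) (a b : ZMod p) :
    (lin φ ψ a b 1 1 1).card + (lin φ ψ a b 1 1 (-1)).card + (lin φ ψ a b 1 (-1) 1).card +
      (lin φ ψ a b (-1) 1 1).card ≤ (cell φ ψ a b).card := by
  have h2 : (2 : ZMod p) ≠ 0 := by
    have := ne_zero_of_small (p := p) (m := 2) (by norm_num) (by omega)
    exact_mod_cast this
  simp only [lin, card_filter]
  rw [← sum_add_distrib, ← sum_add_distrib, ← sum_add_distrib, card_eq_sum_ones]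
  refine sum_le_sum fun y hy => ?_
  rw [mem_cell] at hy
  obtain ⟨⟨h0, h1⟩, _⟩ := hy
  have f0 := map_ne (φ := φ) h0
  have f1 := map_ne (φ := φ) (sub_ne_zero.2 (Ne.symm h1))
  have n12 : ¬ (1 * φ y + 1 * φ (1 - y) = 1 ∧ 1 * φ y + 1 * φ (1 - y) = -1) := fun ⟨e1, e2⟩ =>
    h2 (by linear_combination -e1 + e2)
  have n13 : ¬ (1 * φ y + 1 * φ (1 - y) = 1 ∧ 1 * φ y + -1 * φ (1 - y) = 1) := fun ⟨e1, e2⟩ =>
    mul_ne_zero h2 f1 (by linear_combination e1 - e2)
  have n14 : ¬ (1 * φ y + 1 * φ (1 - y) = 1 ∧ -1 * φ y + 1 * φ (1 - y) = 1) := fun ⟨e1, e2⟩ =>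
    mul_ne_zero h2 f0 (by linear_combination e1 - e2)
  have n23 : ¬ (1 * φ y + 1 * φ (1 - y) = -1 ∧ 1 * φ y + -1 * φ (1 - y) = 1) := fun ⟨e1, e2⟩ =>
    mul_ne_zero h2 f0 (by linear_combination e1 + e2)
  have n24 : ¬ (1 * φ y + 1 * φ (1 - y) = -1 ∧ -1 * φ y + 1 * φ (1 - y) = 1) := fun ⟨e1, e2⟩ =>
    mul_ne_zero h2 f1 (by linear_combination e1 + e2)
  have n34 : ¬ (1 * φ y + -1 * φ (1 - y) = 1 ∧ -1 * φ y + 1 * φ (1 - y) = 1) := fun ⟨e1, e2⟩ =>
    h2 (by linear_combination -e1 - e2)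
  exact four_ind n12 n13 n14 n23 n24 n34

/-- The case of two ratios. -/
theorem k_two {φ ψ : ZMod p →*₀ ZMod p} (hφ : Function.Injective φ) (hψ : Function.Injective ψ)
    (hp : 29 ≤ p) (hk : (ratios φ ψ).card = 2) (hid : ∃ x, φ x ≠ x) (hid' : ∃ x, ψ x ≠ x)
    {A B : ZMod p} (hA : A ≠ 0) (hB : B ≠ 0) : 2 * (sols φ ψ A B).card < p - 1 := by
  have hp2 : p ≠ 2 := by omega
  have hd := card_ratios_mul φ ψ
  rw [hk] at hd
  have h20 : (2 : ZMod p) ≠ 0 := by
    have := ne_zero_of_small (p := p) (m := 2) (by norm_num) (by omega)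
    exact_mod_cast this
  have h1m : (1 : ZMod p) ≠ -1 := fun h => h20 (by linear_combination h)
  have hsq : ∀ z ∈ ratios φ ψ, z * z = 1 := by
    intro z hz
    have := pow_card_ratios φ ψ hz
    rw [hk] at this
    rw [← sq]; exact this
  have hμ : ratios φ ψ = {1, -1} := by
    apply eq_of_subset_of_card_le
    · intro z hz
      rw [mem_insert, mem_singleton]
      exact mul_self_eq_one_iff.1 (hsq z hz)
    · rw [hk]; exact card_le_two
  have hm1 : (-1 : ZMod p) ∈ ratios φ ψ := by rw [hμ]; simp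
  have hne0 : (-1 : ZMod p) ≠ 0 := neg_ne_zero.2 one_ne_zero
  have hinv : (-1 : ZMod p)⁻¹ = -1 := inv_eq_of_mul_eq_one_left (by ring)
  have hdiv1 : (1 : ZMod p) / -1 = -1 := by rw [div_eq_mul_inv, hinv, one_mul]
  have hdiv2 : (-1 : ZMod p) / -1 = 1 := div_self hne0
  -- sizes of the cells
  have s1 := cell_swap (φ := φ) (ψ := ψ) 1 (-1)
  have s2 := cell_inv hφ hψ hp2 hne0 1
  rw [hinv, hdiv1] at s2
  have s3 := card_row_one φ ψ
  rw [card_row_eq, hμ, sum_pair h1m] at s3
  have s4 := card_row_of_ne φ ψ hm1 (Ne.symm h1m)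
  rw [card_row_eq, hμ, sum_pair h1m] at s4
  by_contra hcon
  have hN : p - 1 ≤ 2 * (sols φ ψ A B).card := not_lt.1 hcon
  have hS : sols φ ψ A B ⊆ vv p := sols_sub_vv
  have q02 := ineq02 hS
  have q01 := ineq01 hS
  have q12 := ineq12 hS
  have her : ∀ c, ((ratios φ ψ).erase c).card ≤ 2 := fun c => by
    have := card_le_card (erase_subset c (ratios φ ψ))
    rw [hk] at this; exact this
  have her1 : ∀ c, c ∈ ratios φ ψ → ((ratios φ ψ).erase c).card = 1 := fun c hc => by
    rw [card_erase_of_mem hc, hk]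
  have herr : ∀ c c', ((ratios φ ψ).erase c).card * ((ratios φ ψ).erase c').card ≤ 4 :=
    fun c c' => by
      have h1 := her c
      have h2 := her c'
      exact (Nat.mul_le_mul h1 h2).trans (by norm_num)
  have hR2 := r2_le (ψ := ψ) (A := A) hφ hB
  have hRs := rs_le hφ hψ hp2 hA hB
  have hsqAB : A * A = 1 → ¬ B * B = 1 → A / B ∉ ratios φ ψ ∧ 1 / (A * B) ∉ ratios φ ψ := by
    intro h1 h2
    refine ⟨fun h => h2 ?_, fun h => h2 ?_⟩
    · have := hsq _ h
      field_simp at this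
      rw [sq, sq, h1] at this
      exact this.symm
    · have := hsq _ h
      field_simp at this
      rw [sq, sq, h1, one_mul] at this
      exact this.symm
  have hsqBA : ¬ A * A = 1 → B * B = 1 → A / B ∉ ratios φ ψ ∧ 1 / (A * B) ∉ ratios φ ψ := by
    intro h1 h2
    refine ⟨fun h => h1 ?_, fun h => h1 ?_⟩
    · have := hsq _ h
      field_simp at this
      rw [sq, sq, h2] at this
      exact this
    · have := hsq _ h
      field_simp at this
      rw [sq, sq, h2, mul_one] at this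
      exact this.symm
  by_cases hAA : A * A = 1
  · by_cases hBB : B * B = 1
    · -- both are signs
      have l1 : ∀ u v w : ZMod p, (lin φ ψ (-1) 1 u v w).card = (lin φ ψ 1 (-1) v u w).card :=
        fun u v w => lin_swap _ _ _ _ _
      have l2 : ∀ u v w : ZMod p, (lin φ ψ (-1) (-1) u v w).card =
          (lin φ ψ 1 (-1) v w u).card := by
        intro u v w
        rw [lin_inv hφ hψ hp2 hne0, hinv, hdiv2, lin_swap]
      have l3 : ∀ u v w : ZMod p, (lin φ ψ 1 (-1) u v w).card = (lin φ ψ 1 (-1) w v u).card := by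
        intro u v w
        have := lin_inv hφ hψ hp2 (one_ne_zero) (-1) u v w
        rwa [inv_one, div_one] at this
      have l4 : ∀ u v w : ZMod p, (lin φ ψ 1 1 u v w).card = (lin φ ψ 1 1 v u w).card :=
        fun u v w => lin_swap _ _ _ _ _
      have l5 : ∀ u v w : ZMod p, (lin φ ψ 1 1 u v w).card = (lin φ ψ 1 1 w v u).card := by
        intro u v w
        have := lin_inv hφ hψ hp2 (one_ne_zero) 1 u v w
        rwa [inv_one, div_one] at this
      -- base counts
      have f1 := four_lines φ ψ (by omega) 1 1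
      have f2 := four_lines φ ψ (by omega) 1 (-1)
      have g1 := five_bound hφ (by omega) hid
      have g2 := five_bound hψ (by omega) hid'
      rw [card_sols_left φ ψ, hμ, sum_pair h1m, sum_pair h1m, sum_pair h1m, l1, l2] at g1
      rw [card_sols_right φ ψ, hμ, sum_pair h1m, sum_pair h1m, sum_pair h1m, l1, l2] at g2
      have t1 : (lin φ ψ 1 1 1 (-1) 1).card = (lin φ ψ 1 1 1 1 (-1)).card := by
        rw [l4, l5]
      have t2 : (lin φ ψ 1 1 (-1) 1 1).card = (lin φ ψ 1 1 1 1 (-1)).card := by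
        rw [l5]
      have t3 : (lin φ ψ 1 (-1) 1 1 (-1)).card = (lin φ ψ 1 (-1) (-1) 1 1).card := l3 _ _ _
      have t4 : (lin φ ψ 1 (-1) (-1) 1 (-1)).card = (lin φ ψ 1 (-1) 1 (-1) 1).card := by
        have := lin_neg φ ψ 1 (-1) 1 (-1) 1
        rwa [neg_neg] at this
      have t5 : (lin φ ψ 1 (-1) (-1) (-1) 1).card = (lin φ ψ 1 (-1) (-1) 1 1).card := by
        have := lin_neg φ ψ 1 (-1) 1 1 (-1)
        rw [neg_neg] at this
        rw [this, t3]
      have t6 : (lin φ ψ 1 1 (-1) (-1) 1).card = (lin φ ψ 1 1 1 1 (-1)).card := by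
        have := lin_neg φ ψ 1 1 1 1 (-1)
        rwa [neg_neg] at this
      have hsum := card_sols_eq (φ := φ) (ψ := ψ) A B
      rw [hμ, sum_pair h1m, sum_pair h1m, sum_pair h1m, l1, l2, mul_one, mul_neg_one] at hsum
      rcases mul_self_eq_one_iff.1 hAA with rfl | rfl <;>
        rcases mul_self_eq_one_iff.1 hBB with rfl | rfl <;>
        (try simp only [neg_neg] at hsum) <;> omega
    · obtain ⟨n1, n2⟩ := hsqAB hAA hBB
      have c1 := r1_le hφ hψ hp2 (A := A) hBB
      rw [hk] at c1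
      rw [cell_eq_empty (Or.inl n1), card_empty, add_zero] at hR2
      rw [cell_eq_empty (Or.inr n2), card_empty, add_zero] at hRs
      have e1 := herr (A / B) (A / B)
      have e2 := herr (A / (B * B)) (1 / (A * B))
      omega
  · have c0 := r0_le hφ hψ hp2 (B := B) hAA
    rw [hk] at c0
    by_cases hBB : B * B = 1
    · obtain ⟨n1, n2⟩ := hsqBA hAA hBB
      rw [cell_eq_empty (Or.inl n1), card_empty, add_zero] at hR2
      rw [cell_eq_empty (Or.inr n2), card_empty, add_zero] at hRs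
      have e1 := herr (A / B) (A / B)
      have e2 := herr (A / (B * B)) (1 / (A * B))
      omega
    · have c1 := r1_le hφ hψ hp2 (A := A) hBB
      rw [hk] at c1
      by_cases hm : A / (B * B) ∈ ratios φ ψ ∧ 1 / (A * B) ∈ ratios φ ψ
      · rw [her1 _ hm.1, her1 _ hm.2] at hRs
        have hc : (cell φ ψ (A / (B * B)) (1 / (A * B))).card ≤ (cell φ ψ 1 (-1)).card + 1 := by
          have m1 := hm.1
          have m2 := hm.2
          rw [hμ, mem_insert, mem_singleton] at m1 m2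
          rcases m1 with m1 | m1 <;> rcases m2 with m2 | m2 <;> rw [m1, m2] <;> omega
        omega
      · have hc : cell φ ψ (A / (B * B)) (1 / (A * B)) = ∅ := by
          apply cell_eq_empty
          tauto
        rw [hc, card_empty, add_zero] at hRs
        have e2 := herr (A / (B * B)) (1 / (A * B))
        omega

end Pool.Agent.Helper459_costas
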