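import Mathlib
import Pool.Agent.Helper459_costas.Ktwo

open Finset

namespace Pool.Agent.Helper459_costas

theorem inc_numeric (n d I N : ℤ) (hn : 4 ≤ n) (hd : 0 ≤ d) (hC : 16 * n + 4 * d * (n - 2) < (n - 2) ^ 2)
    (h0 : n ≤ 2 * N) (h1 : N * N ≤ I + N) (h2 : I ^ 2 ≤ n * (n ^ 2 + d * I)) : False := by
  set x := 4 * I with hx
  set y := n * (n - 2) with hy
  have e1 : y ≤ x := by
    have : 0 ≤ (2 * N - n) * (2 * N + n - 2) := mul_nonneg (by linarith) (by linarith)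
    nlinarith
  have hy0 : 0 < y := mul_pos (by linarith) (by linarith)
  have e2 : x ^ 2 ≤ 16 * n ^ 3 + 4 * n * d * x := by
    have : x ^ 2 = 16 * I ^ 2 := by rw [hx]; ring
    rw [this]
    calc 16 * I ^ 2 ≤ 16 * (n * (n ^ 2 + d * I)) := by linarith
      _ = 16 * n ^ 3 + 4 * n * d * x := by rw [hx]; ring
  have e3 : 16 * n ^ 3 + 4 * n * d * y < y ^ 2 := by
    have : n ^ 2 * (16 * n + 4 * d * (n - 2)) < n ^ 2 * (n - 2) ^ 2 :=
      mul_lt_mul_of_pos_left hC (by positivity)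
    calc 16 * n ^ 3 + 4 * n * d * y = n ^ 2 * (16 * n + 4 * d * (n - 2)) := by rw [hy]; ring
      _ < n ^ 2 * (n - 2) ^ 2 := this
      _ = y ^ 2 := by rw [hy]; ring
  have e4 : 4 * n * d < y := by
    have h3 : 0 < 16 * n ^ 3 := by positivity
    have h4 : (4 * n * d) * y < y * y := by nlinarith
    exact lt_of_mul_lt_mul_right h4 hy0.le
  have e5 : 0 ≤ (x - y) * (x + y - 4 * n * d) := mul_nonneg (by linarith) (by linarith)
  nlinarith

variable {p : ℕ} [Fact p.Prime]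

/-- The bound from incidences. -/
theorem k_inc {φ ψ : ZMod p →*₀ ZMod p} (hψ : Function.Injective ψ)
    (hp : 5 ≤ p) (d : ℕ) (hd : (eqs φ ψ).card = d)
    (hC : 16 * (p - 1) + 4 * d * (p - 3) < (p - 3) ^ 2)
    {A B : ZMod p} (hB : B ≠ 0) : 2 * (sols φ ψ A B).card < p - 1 := by
  obtain ⟨I, h1, h2⟩ := incidence φ ψ hψ (by omega) A B hB
  by_contra hcon
  have hN : p - 1 ≤ 2 * (sols φ ψ A B).card := not_lt.1 hcon
  rw [hd] at h2
  obtain ⟨n, hn⟩ : ∃ n, p - 1 = n := ⟨_, rfl⟩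
  have hn3 : p - 3 = n - 2 := by omega
  rw [hn3, hn] at hC
  rw [hn] at hN h2
  zify [(by omega : 2 ≤ n)] at hC hN h1 h2
  refine inc_numeric n d I (sols φ ψ A B).card (by exact_mod_cast (by omega : 4 ≤ n)) (by positivity)
    hC hN h1 h2

/-- At least five ratios, large characteristic. -/
theorem k_five {φ ψ : ZMod p →*₀ ZMod p} (hψ : Function.Injective ψ)
    (hp : 93 ≤ p) (hk : 5 ≤ (ratios φ ψ).card)
    {A B : ZMod p} (hB : B ≠ 0) : 2 * (sols φ ψ A B).card < p - 1 := by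
  have h := card_ratios_mul φ ψ
  set d := (eqs φ ψ).card with hd
  have h5 : 5 * d ≤ p - 1 := by
    rw [← h]; exact Nat.mul_le_mul_right _ hk
  refine k_inc hψ (by omega) d hd.symm ?_ hB
  obtain ⟨n, hn⟩ : ∃ n, p = n + 93 := ⟨p - 93, by omega⟩
  have e1 : p - 1 = n + 92 := by omega
  have e3 : p - 3 = n + 90 := by omega
  rw [e1, e3]
  rw [e1] at h5
  nlinarith

end Pool.Agent.Helper459_costas
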