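import Mathlib
import Pool.Agent.Helper459_costas.Kbig

open Finset

namespace Pool.Agent.Helper459_costas

variable {p : ℕ} [Fact p.Prime]

section gen
variable {φ ψ : ZMod p →*₀ ZMod p} (hφ : Function.Injective φ) (hψ : Function.Injective ψ)
  (hp2 : p ≠ 2) {A B : ZMod p} (hA : A ≠ 0) (hB : B ≠ 0)

theorem erase_le (φ ψ : ZMod p →*₀ ZMod p) (c : ZMod p) :
    ((ratios φ ψ).erase c).card ≤ (ratios φ ψ).card :=
  card_le_card (erase_subset _ _)

theorem card_cell_le (φ ψ : ZMod p →*₀ ZMod p) (a b : ZMod p) :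
    (cell φ ψ a b).card ≤ (eqs φ ψ).card :=
  (card_cell_le_left a b).trans (card_row_le φ ψ a)

include hφ hψ hp2 hA hB

theorem case_one (hAA : ¬ A * A = 1) (hBB : ¬ B * B = 1) :
    3 * (sols φ ψ A B).card ≤ (p - 2) + 2 * (ratios φ ψ).card +
      (ratios φ ψ).card * (ratios φ ψ).card ∨
    3 * (sols φ ψ A B).card ≤ (p - 2) + 2 * (ratios φ ψ).card +
      ((ratios φ ψ).card - 1) * ((ratios φ ψ).card - 1) + (eqs φ ψ).card := by
  have q01 := ineq01 (S := sols φ ψ A B) sols_sub_vv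
  have c0 := r0_le hφ hψ hp2 (B := B) hAA
  have c1 := r1_le hφ hψ hp2 (A := A) hBB
  have cs := rs_le hφ hψ hp2 hA hB
  by_cases hm : A / (B * B) ∈ ratios φ ψ ∧ 1 / (A * B) ∈ ratios φ ψ
  · right
    rw [card_erase_of_mem hm.1, card_erase_of_mem hm.2] at cs
    have := card_cell_le φ ψ (A / (B * B)) (1 / (A * B))
    omega
  · left
    have hc : cell φ ψ (A / (B * B)) (1 / (A * B)) = ∅ := by
      apply cell_eq_empty
      tauto
    rw [hc, card_empty, add_zero] at cs
    have := Nat.mul_le_mul (erase_le φ ψ (A / (B * B))) (erase_le φ ψ (1 / (A * B)))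
    omega

theorem case_two (hAA : A * A = 1) (hBB : ¬ B * B = 1) :
    3 * (sols φ ψ A B).card ≤ (p - 2) + (ratios φ ψ).card +
      2 * ((ratios φ ψ).card * (ratios φ ψ).card) ∨
    3 * (sols φ ψ A B).card ≤ (p - 2) + (ratios φ ψ).card +
      ((ratios φ ψ).card - 1) * ((ratios φ ψ).card - 1) +
      (ratios φ ψ).card * ((ratios φ ψ).card - 1) + (eqs φ ψ).card := by
  have q12 := ineq12 (S := sols φ ψ A B) sols_sub_vv
  have c1 := r1_le hφ hψ hp2 (A := A) hBB
  have c2 := r2_le (ψ := ψ) (A := A) hφ hB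
  have cs := rs_le hφ hψ hp2 hA hB
  have e : 1 / (A * B) = A / B := by
    field_simp
    rw [sq]; exact hAA.symm
  rw [e] at cs
  by_cases hm : A / B ∈ ratios φ ψ
  · right
    rw [card_erase_of_mem hm] at c2 cs
    have hne : A / B ≠ A / (B * B) := by
      intro h
      apply hBB
      rw [div_eq_div_iff hB (mul_ne_zero hB hB)] at h
      have h1 : B * B = B := mul_left_cancel₀ hA h
      have h2 : B = 1 := mul_left_cancel₀ hB (h1.trans (mul_one B).symm)
      rw [h2, one_mul]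
    have h1 := two_cells (φ := φ) (ψ := ψ) hne (A / B)
    have h2 := Nat.mul_le_mul_right ((ratios φ ψ).card - 1) (erase_le φ ψ (A / (B * B)))
    omega
  · left
    rw [cell_eq_empty (Or.inl hm), card_empty, add_zero] at c2
    rw [cell_eq_empty (Or.inr hm), card_empty, add_zero] at cs
    have h1 := Nat.mul_le_mul (erase_le φ ψ (A / B)) (erase_le φ ψ (A / B))
    have h2 := Nat.mul_le_mul (erase_le φ ψ (A / (B * B))) (erase_le φ ψ (A / B))
    omega

end gen

theorem three_ind {P Q R : Prop} [Decidable P] [Decidable Q] [Decidable R]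
    (h12 : ¬ (P ∧ Q)) (h13 : ¬ (P ∧ R)) (h23 : ¬ (Q ∧ R)) :
    (if P then 1 else 0) + (if Q then 1 else 0) + (if R then 1 else 0) ≤ 1 := by
  split_ifs <;> first | omega | (exfalso; tauto)

theorem two_ind {P Q : Prop} [Decidable P] [Decidable Q] (h12 : ¬ (P ∧ Q)) :
    (if P then 1 else 0) + (if Q then 1 else 0) ≤ 1 := by
  split_ifs <;> first | omega | (exfalso; tauto)

/-- Three lines in a cell, for a cube root of unity. -/
theorem three_lines (φ ψ : ZMod p →*₀ ZMod p) {w : ZMod p} (hw1 : w ≠ 1)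
    (hw : 1 + w + w * w = 0) (a b : ZMod p) :
    (lin φ ψ a b 1 w 1).card + (lin φ ψ a b 1 1 1).card + (lin φ ψ a b 1 1 (w * w)).card ≤
      (cell φ ψ a b).card := by
  have hw1' : w - 1 ≠ 0 := sub_ne_zero.2 hw1
  simp only [lin, card_filter]
  rw [← sum_add_distrib, ← sum_add_distrib, card_eq_sum_ones]
  refine sum_le_sum fun y hy => ?_
  rw [mem_cell] at hy
  obtain ⟨⟨h0, h1⟩, _⟩ := hy
  have f0 := map_ne (φ := φ) h0
  have f1 := map_ne (φ := φ) (sub_ne_zero.2 (Ne.symm h1))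
  apply three_ind
  · rintro ⟨e1, e2⟩
    exact mul_ne_zero hw1' f1 (by linear_combination e1 - e2)
  · rintro ⟨e1, e2⟩
    apply mul_ne_zero hw1' f0
    linear_combination -e1 + w * e2 + (w - 1) * hw
  · rintro ⟨e1, e2⟩
    apply hw1'
    apply (mul_eq_zero.1 (by linear_combination e1 - e2 + 0 * hw : (w - 1) * (w + 1) = 0)).resolve_right
    intro h3
    have h4 : (1 : ZMod p) = 0 := by linear_combination hw - w * h3
    exact one_ne_zero h4

theorem two_lines (φ ψ : ZMod p →*₀ ZMod p) {w w' : ZMod p} (hw1 : w ≠ w') (a b : ZMod p) :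
    (lin φ ψ a b 1 w 1).card + (lin φ ψ a b 1 w' 1).card ≤ (cell φ ψ a b).card := by
  simp only [lin, card_filter]
  rw [← sum_add_distrib, card_eq_sum_ones]
  refine sum_le_sum fun y hy => ?_
  rw [mem_cell] at hy
  obtain ⟨⟨h0, h1⟩, _⟩ := hy
  have f1 := map_ne (φ := φ) (sub_ne_zero.2 (Ne.symm h1))
  apply two_ind
  rintro ⟨e1, e2⟩
  exact mul_ne_zero (sub_ne_zero.2 hw1) f1 (by linear_combination e1 - e2)

theorem three_num (n0 n1 n2 d : ℤ) (h : n0 + n1 + n2 + 1 = d) (h0 : 0 ≤ n0) (h1 : 0 ≤ n1)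
    (h2 : 0 ≤ n2)
    (sm : n0 ^ 2 + 3 * n1 ^ 2 + 3 * n2 ^ 2 + 2 * (n0 + 1) ^ 2 ≤
      (3 * d - 1) + ((d - 1) * (d - 1) - (d - 1))) : 2 * n0 < d := by
  by_contra hcon
  have hc : d ≤ 2 * n0 := not_lt.1 hcon
  subst h
  nlinarith [sq_nonneg (n1 - n2), mul_nonneg h0 h1, mul_nonneg h0 h2, mul_nonneg h1 h2]

/-- Three ratios, the symmetric equation. -/
theorem k_three_one {φ ψ : ZMod p →*₀ ZMod p} (hφ : Function.Injective φ)
    (hψ : Function.Injective ψ) (hp : 7 ≤ p) (hk : (ratios φ ψ).card = 3) :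
    2 * (sols φ ψ 1 1).card < p - 1 := by
  have hp2 : p ≠ 2 := by omega
  have hd := card_ratios_mul φ ψ
  rw [hk] at hd
  obtain ⟨w, hwm, hw1⟩ : ∃ w ∈ ratios φ ψ, w ≠ 1 := by
    by_contra hcon
    push Not at hcon
    have : ratios φ ψ ⊆ {1} := fun z hz => mem_singleton.2 (hcon z hz)
    have := card_le_card this
    rw [hk, card_singleton] at this
    omega
  have hw3 : w ^ 3 = 1 := by
    have := pow_card_ratios φ ψ hwm
    rwa [hk] at this
  have hw0 : w ≠ 0 := ratios_ne_zero hwm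
  have hw : 1 + w + w * w = 0 := by
    apply mul_left_cancel₀ (sub_ne_zero.2 hw1)
    linear_combination hw3
  have hww1 : w * w ≠ 1 := by
    intro h
    apply hw1
    have : w ^ 3 = w := by rw [pow_succ, sq, h, one_mul]
    rw [← this, hw3]
  have hwww : w * w ≠ w := by
    intro h
    exact hw1 (mul_left_cancel₀ hw0 (h.trans (mul_one w).symm))
  have hμ : ratios φ ψ = {1, w, w * w} := by
    symm
    apply eq_of_subset_of_card_le
    · intro z hz
      rw [mem_insert, mem_insert, mem_singleton] at hz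
      rcases hz with rfl | rfl | rfl
      · exact one_mem_ratios φ ψ
      · exact hwm
      · exact mul_mem_ratios φ ψ hwm hwm
    · rw [hk, card_insert_of_notMem, card_pair (Ne.symm hwww)]
      rw [mem_insert, mem_singleton]
      push Not
      exact ⟨Ne.symm hw1, Ne.symm hww1⟩
  have hs : ∀ f : ZMod p → ℕ, ∑ a ∈ ratios φ ψ, f a = f 1 + (f w + f (w * w)) := by
    intro f
    rw [hμ, sum_insert, sum_pair (Ne.symm hwww)]
    rw [mem_insert, mem_singleton]
    push Not
    exact ⟨Ne.symm hw1, Ne.symm hww1⟩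
  have hi : w⁻¹ = w * w := by
    apply inv_eq_of_mul_eq_one_right
    linear_combination hw3
  have hi2 : (w * w)⁻¹ = w := by
    apply inv_eq_of_mul_eq_one_right
    linear_combination hw3
  have hww0 : w * w ≠ 0 := mul_ne_zero hw0 hw0
  have d1 : w / w = 1 := div_self hw0
  have d2 : w * w / (w * w) = 1 := div_self hww0
  have d3 : w / (w * w) = w * w := by rw [div_eq_mul_inv, hi2]
  have d4 : w * w / w = w := by field_simp
  have hw' : 1 + w * w + (w * w) * (w * w) = 0 := by linear_combination hw + w * hw3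
  have hwwww : (w * w) * (w * w) = w := by linear_combination w * hw3
  -- cells
  have m1 := cell_swap (φ := φ) (ψ := ψ) 1 w
  have m2 := cell_swap (φ := φ) (ψ := ψ) 1 (w * w)
  have m3 := cell_inv hφ hψ hp2 hw0 w
  rw [hi, d1] at m3
  have m4 := cell_inv hφ hψ hp2 hww0 (w * w)
  rw [hi2, d2] at m4
  have m5 := cell_swap (φ := φ) (ψ := ψ) w (w * w)
  have r1 := card_row_one φ ψ
  rw [card_row_eq, hs] at r1
  have r2 := card_row_of_ne φ ψ hwm hw1
  rw [card_row_eq, hs] at r2
  -- lines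
  have t0 := card_le_card (lin_sub_cell (φ := φ) (ψ := ψ) 1 1 1 1 1)
  have t1 := three_lines φ ψ hw1 hw 1 w
  have t2 := three_lines φ ψ hww1 hw' 1 (w * w)
  have t3 := two_lines φ ψ (Ne.symm hwww) w (w * w)
  rw [hwwww] at t2
  have u1 := lin_swap (φ := φ) (ψ := ψ) w 1 1 1 1
  have u2 := lin_swap (φ := φ) (ψ := ψ) (w * w) 1 1 1 1
  have u3 : (lin φ ψ (w * w) (w * w) 1 (w * w) 1).card = (lin φ ψ 1 w 1 1 (w * w)).card := by
    rw [lin_inv hφ hψ hp2 hww0, hi2, d2, lin_swap, lin_inv hφ hψ hp2 one_ne_zero, inv_one, div_one]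
  have u4 : (lin φ ψ w w 1 w 1).card = (lin φ ψ 1 (w * w) 1 1 w).card := by
    rw [lin_inv hφ hψ hp2 hw0, hi, d1, lin_swap, lin_inv hφ hψ hp2 one_ne_zero, inv_one, div_one]
  have u5 : (lin φ ψ (w * w) w 1 w 1).card = (lin φ ψ w (w * w) 1 w 1).card := by
    rw [lin_inv hφ hψ hp2 hww0, hi2, d3]
  have hsum := card_sols_eq (φ := φ) (ψ := ψ) 1 1
  rw [hs, hs, hs, hs, one_mul, one_mul, one_mul] at hsum
  -- second moment
  have sm := second_moment φ ψ
  rw [hs, hs, hs, hs] at sm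
  obtain ⟨d, hdd⟩ : ∃ d, (eqs φ ψ).card = d := ⟨_, rfl⟩
  rw [hdd] at hd r1 r2 sm
  obtain ⟨n0, h0⟩ : ∃ n, (cell φ ψ 1 1).card = n := ⟨_, rfl⟩
  obtain ⟨n1, h1⟩ : ∃ n, (cell φ ψ 1 w).card = n := ⟨_, rfl⟩
  obtain ⟨n2, h2⟩ : ∃ n, (cell φ ψ 1 (w * w)).card = n := ⟨_, rfl⟩
  obtain ⟨n3, h3⟩ : ∃ n, (cell φ ψ w (w * w)).card = n := ⟨_, rfl⟩
  have k1 : (cell φ ψ w 1).card = n1 := by omega
  have k2 : (cell φ ψ (w * w) 1).card = n2 := by omega
  have k3 : (cell φ ψ w w).card = n2 := by omega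
  have k4 : (cell φ ψ (w * w) (w * w)).card = n1 := by omega
  have k5 : (cell φ ψ (w * w) w).card = n3 := by omega
  rw [h0, h1, h2, h3, k1, k2, k3, k4, k5] at sm
  rw [h0, h1, h2] at r1
  rw [h3, k1, k3] at r2
  have hn3 : n3 = n0 + 1 := by omega
  have hd1 : 1 ≤ d := by omega
  have hdm : d - 1 ≤ (d - 1) * (d - 1) := by
    rcases Nat.eq_zero_or_pos (d - 1) with h | h
    · simp [h]
    · exact Nat.le_mul_of_pos_left _ h
  have hlt : 2 * n0 < d := by
    rw [hn3] at sm
    have hp2' : p - 2 = 3 * d - 1 := by omega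
    rw [hp2'] at sm
    zify [hdm, hd1, (by omega : 1 ≤ 3 * d)] at sm r1 ⊢
    exact three_num n0 n1 n2 d (by linarith) (by positivity) (by positivity) (by positivity)
      (by linarith)
  have hN : (sols φ ψ 1 1).card ≤ n0 + n1 + n2 + n3 := by omega
  omega

/-- The bound for maps with `k` ratios when the first coefficient is a sign. -/
def SgnOK (p k : ℕ) [Fact p.Prime] : Prop :=
  ∀ φ ψ : ZMod p →*₀ ZMod p, Function.Injective φ → Function.Injective ψ →
    (∃ x, φ x ≠ x) → (∃ x, ψ x ≠ x) →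
    (ratios φ ψ).card = k → ∀ A B : ZMod p, A * A = 1 → B ≠ 0 → 2 * (sols φ ψ A B).card < p - 1

theorem neg_one_not_mem {φ ψ : ZMod p →*₀ ZMod p} (hp2 : 3 ≤ p) (hk : (ratios φ ψ).card = 3) :
    (-1 : ZMod p) ∉ ratios φ ψ := by
  intro h
  have h1 := pow_card_ratios φ ψ h
  rw [hk] at h1
  have h20 : (2 : ZMod p) ≠ 0 := by
    have := ne_zero_of_small (p := p) (m := 2) (by norm_num) (by omega)
    exact_mod_cast this
  apply h20
  linear_combination -h1

theorem sgn_three (hp : 97 ≤ p) : SgnOK p 3 := by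
  intro φ ψ hφ hψ _ _ hk A B hAA hB
  have hp2 : p ≠ 2 := by omega
  have hA : A ≠ 0 := by rintro rfl; simp at hAA
  have hd := card_ratios_mul φ ψ
  rw [hk] at hd
  by_cases hBB : B * B = 1
  · have hm := neg_one_not_mem (φ := φ) (ψ := ψ) (by omega) hk
    have hrow := row_eq_empty φ ψ hm
    have hinv : (-1 : ZMod p)⁻¹ = -1 := inv_eq_of_mul_eq_one_left (by ring)
    have hdiv1 : (1 : ZMod p) / -1 = -1 := by rw [div_eq_mul_inv, hinv, one_mul]
    have q02 := ineq02 (S := sols φ ψ A B) sols_sub_vv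
    have q01 := ineq01 (S := sols φ ψ A B) sols_sub_vv
    have q12 := ineq12 (S := sols φ ψ A B) sols_sub_vv
    have c0 := r0_le_sq hφ hψ hp2 (B := B) hAA
    have c1 := r1_le_sq hφ hψ hp2 (A := A) hBB
    have c2 := r2_le (ψ := ψ) (A := A) hφ hB
    have cs := rs_le hφ hψ hp2 hA hB
    have her : ∀ c c' : ZMod p, ((ratios φ ψ).erase c).card * ((ratios φ ψ).erase c').card ≤ 9 := by
      intro c c'
      have h1 := erase_le φ ψ c
      have h2 := erase_le φ ψ c'
      rw [hk] at h1 h2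
      exact Nat.mul_le_mul h1 h2
    have e2 := her (A / B) (A / B)
    have es := her (A / (B * B)) (1 / (A * B))
    rcases mul_self_eq_one_iff.1 hAA with rfl | rfl
    · rcases mul_self_eq_one_iff.1 hBB with rfl | rfl
      · exact k_three_one hφ hψ (by omega) hk
      · rw [hdiv1] at c2 e2
        rw [cell_eq_empty (Or.inl hm), card_empty] at c2
        rw [one_mul, hdiv1] at cs es
        rw [cell_eq_empty (Or.inr hm), card_empty] at cs
        rw [hrow, card_empty] at c1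
        omega
    · rcases mul_self_eq_one_iff.1 hBB with rfl | rfl
      · rw [div_one] at c2 e2
        rw [cell_eq_empty (Or.inl hm), card_empty] at c2
        rw [one_mul, div_one] at cs es
        rw [cell_eq_empty (Or.inl hm), card_empty] at cs
        rw [hrow, card_empty] at c0
        omega
      · rw [hAA, div_one] at cs es
        rw [cell_eq_empty (Or.inl hm), card_empty] at cs
        rw [hrow, card_empty] at c0 c1
        omega
  · have h := case_two hφ hψ hp2 hA hB hAA hBB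
    rw [hk] at h
    omega

/-- Three ratios. -/
theorem k_three {φ ψ : ZMod p →*₀ ZMod p} (hφ : Function.Injective φ)
    (hψ : Function.Injective ψ) (hp : 61 ≤ p) (hk : (ratios φ ψ).card = 3) (hs : SgnOK p 3)
    (hid : ∃ x, φ x ≠ x) (hid' : ∃ x, ψ x ≠ x)
    {A B : ZMod p} (hA : A ≠ 0) (hB : B ≠ 0) : 2 * (sols φ ψ A B).card < p - 1 := by
  have hp2 : p ≠ 2 := by omega
  by_cases hAA : A * A = 1
  · exact hs φ ψ hφ hψ hid hid' hk A B hAA hB
  · by_cases hBB : B * B = 1
    · rw [card_sols_swap]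
      exact hs ψ φ hψ hφ hid' hid (by rw [card_ratios_swap, hk]) B A hBB hA
    · have hd := card_ratios_mul φ ψ
      rw [hk] at hd
      have h := case_one hφ hψ hp2 hA hB hAA hBB
      rw [hk] at h
      omega

end Pool.Agent.Helper459_costas
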