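import Mathlib
import Pool.Agent.Helper459_costas.Kthree

open Finset

namespace Pool.Agent.Helper459_costas

theorem four_num (m0 m n1 n2 m4 d : ℤ) (h1 : m0 + n1 + m + n2 + 1 = d) (h2 : 2 * m + 2 * m4 = d)
    (h3 : n1 + n2 + 2 * m4 = d)
    (sm : m0 ^ 2 + 3 * m ^ 2 + 3 * n1 ^ 2 + 3 * n2 ^ 2 + 6 * m4 ^ 2 ≤
      (4 * d - 1) + ((d - 1) * (d - 1) - (d - 1))) :
    (4 * m - d) ^ 2 ≤ 2 * d - 4 * m := by
  have e1 : d = 2 * m + 2 * m4 := by linarith
  have e2 : n1 = 2 * m - n2 := by linarith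
  have e3 : m0 = d - 1 - 3 * m := by linarith
  subst e2 e3 e1
  nlinarith [sq_nonneg (m - n2)]

theorem four_num2 (m d : ℤ) (hd : 48 ≤ d) (hk : (4 * m - d) ^ 2 ≤ 2 * d - 4 * m) :
    d + 14 < 6 * m ∧ 18 + 2 * m < d ∧ 17 < 2 * m := by
  refine ⟨?_, ?_, ?_⟩
  · by_contra hcon
    have hc : 6 * m ≤ d + 14 := not_lt.1 hcon
    have he : d - 4 * m ≤ 7 := by
      by_contra h2
      have h3 : 8 ≤ d - 4 * m := not_le.1 h2
      nlinarith
    omega
  · by_contra hcon
    have hc : d ≤ 18 + 2 * m := not_lt.1 hcon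
    nlinarith
  · by_contra hcon
    have hc : 2 * m ≤ 17 := not_lt.1 hcon
    have : m ≤ 8 := by omega
    nlinarith

variable {p : ℕ} [Fact p.Prime]

/-- Sizes of cells for four ratios. -/
theorem cells_four {φ ψ : ZMod p →*₀ ZMod p} (hφ : Function.Injective φ)
    (hψ : Function.Injective ψ) (hp : 5 ≤ p) (hk : (ratios φ ψ).card = 4) :
    ∃ m0 m d : ℕ, (cell φ ψ 1 1).card = m0 ∧ (cell φ ψ 1 (-1)).card = m ∧
      (cell φ ψ (-1) 1).card = m ∧ (cell φ ψ (-1) (-1)).card = m ∧ (eqs φ ψ).card = d ∧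
      4 * d = p - 1 ∧ m0 + 3 * m + 1 = d ∧
      (4 * (m : ℤ) - d) ^ 2 ≤ 2 * d - 4 * m := by
  have hp2 : p ≠ 2 := by omega
  have hd := card_ratios_mul φ ψ
  rw [hk] at hd
  have h20 : (2 : ZMod p) ≠ 0 := by
    have := ne_zero_of_small (p := p) (m := 2) (by norm_num) (by omega)
    exact_mod_cast this
  have h1m : (1 : ZMod p) ≠ -1 := fun h => h20 (by linear_combination h)
  obtain ⟨w, hwm, hw1, hwn⟩ : ∃ w ∈ ratios φ ψ, w ≠ 1 ∧ w ≠ -1 := by
    by_contra hcon
    push Not at hcon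
    have : ratios φ ψ ⊆ {1, -1} := fun z hz => by
      rw [mem_insert, mem_singleton]
      by_cases h : z = 1
      · exact Or.inl h
      · exact Or.inr (hcon z hz h)
    have := card_le_card this
    rw [hk, card_pair h1m] at this
    omega
  have hw4 : w ^ 4 = 1 := by
    have := pow_card_ratios φ ψ hwm
    rwa [hk] at this
  have hw0 : w ≠ 0 := ratios_ne_zero hwm
  have hww : w * w = -1 := by
    have h1 : (w * w) * (w * w) = 1 := by linear_combination hw4
    rcases mul_self_eq_one_iff.1 h1 with h | h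
    · rcases mul_self_eq_one_iff.1 h with h | h
      · exact absurd h hw1
      · exact absurd h hwn
    · exact h
  have hm1 : (-1 : ZMod p) ∈ ratios φ ψ := hww ▸ mul_mem_ratios φ ψ hwm hwm
  have hmw : -w ∈ ratios φ ψ := by
    have := mul_mem_ratios φ ψ hm1 hwm
    rwa [neg_one_mul] at this
  have hne0 : (-1 : ZMod p) ≠ 0 := neg_ne_zero.2 one_ne_zero
  have hnw0 : -w ≠ 0 := neg_ne_zero.2 hw0
  have hwnw : w ≠ -w := fun h => mul_ne_zero h20 hw0 (by linear_combination h)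
  have hnw1 : -w ≠ 1 := fun h => hwn (by linear_combination -h)
  have hnwn : -w ≠ -1 := fun h => hw1 (by linear_combination -h)
  have n1 : w ∉ ({-1, -w} : Finset (ZMod p)) := by
    rw [mem_insert, mem_singleton]; push Not; exact ⟨hwn, hwnw⟩
  have n2 : (1 : ZMod p) ∉ ({w, -1, -w} : Finset (ZMod p)) := by
    rw [mem_insert, mem_insert, mem_singleton]; push Not
    exact ⟨Ne.symm hw1, h1m, Ne.symm hnw1⟩
  have hμ : ratios φ ψ = {1, w, -1, -w} := by
    symm
    apply eq_of_subset_of_card_le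
    · intro z hz
      rw [mem_insert, mem_insert, mem_insert, mem_singleton] at hz
      rcases hz with rfl | rfl | rfl | rfl
      · exact one_mem_ratios φ ψ
      · exact hwm
      · exact hm1
      · exact hmw
    · rw [hk, card_insert_of_notMem n2, card_insert_of_notMem n1, card_pair (Ne.symm hnwn)]
  have hs : ∀ f : ZMod p → ℕ, ∑ a ∈ ratios φ ψ, f a = f 1 + (f w + (f (-1) + f (-w))) := by
    intro f
    rw [hμ, sum_insert n2, sum_insert n1, sum_pair (Ne.symm hnwn)]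
  have i1 : (-1 : ZMod p)⁻¹ = -1 := inv_eq_of_mul_eq_one_left (by ring)
  have iw : w⁻¹ = -w := inv_eq_of_mul_eq_one_right (by linear_combination -hww)
  have iw' : (-w)⁻¹ = w := inv_eq_of_mul_eq_one_right (by linear_combination -hww)
  have d1 : (1 : ZMod p) / -1 = -1 := by rw [div_eq_mul_inv, i1, one_mul]
  have d2 : (1 : ZMod p) / w = -w := by rw [div_eq_mul_inv, iw, one_mul]
  have d3 : (1 : ZMod p) / -w = w := by rw [div_eq_mul_inv, iw', one_mul]
  have d4 : w / -1 = -w := by rw [div_eq_mul_inv, i1]; ring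
  have d5 : (-1 : ZMod p) / w = w := by rw [div_eq_mul_inv, iw]; ring
  have c1 := cell_swap (φ := φ) (ψ := ψ) 1 (-1)
  have c2 := cell_inv hφ hψ hp2 hne0 1
  rw [i1, d1] at c2
  have c3 := cell_swap (φ := φ) (ψ := ψ) 1 w
  have c4 := cell_inv hφ hψ hp2 hw0 1
  rw [iw, d2] at c4
  have c5 := cell_swap (φ := φ) (ψ := ψ) 1 (-w)
  have c6 := cell_inv hφ hψ hp2 hnw0 1
  rw [iw', d3] at c6
  have c7 := cell_swap (φ := φ) (ψ := ψ) (-1) w
  have c8 := cell_inv hφ hψ hp2 hne0 w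
  rw [i1, d4] at c8
  have c9 := cell_swap (φ := φ) (ψ := ψ) (-1) (-w)
  have c10 := cell_inv hφ hψ hp2 hw0 (-1)
  rw [iw, d5] at c10
  have c11 := cell_swap (φ := φ) (ψ := ψ) (-w) w
  have r1 := card_row_one φ ψ
  rw [card_row_eq, hs] at r1
  have r2 := card_row_of_ne φ ψ hwm hw1
  rw [card_row_eq, hs] at r2
  have r3 := card_row_of_ne φ ψ hm1 (Ne.symm h1m)
  rw [card_row_eq, hs] at r3
  have sm := second_moment φ ψ
  rw [hs, hs, hs, hs, hs] at sm
  obtain ⟨d, hdd⟩ : ∃ d, (eqs φ ψ).card = d := ⟨_, rfl⟩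
  obtain ⟨m0, h0⟩ : ∃ n, (cell φ ψ 1 1).card = n := ⟨_, rfl⟩
  obtain ⟨m, hm⟩ : ∃ n, (cell φ ψ 1 (-1)).card = n := ⟨_, rfl⟩
  obtain ⟨a1, ha1⟩ : ∃ n, (cell φ ψ 1 w).card = n := ⟨_, rfl⟩
  obtain ⟨a2, ha2⟩ : ∃ n, (cell φ ψ 1 (-w)).card = n := ⟨_, rfl⟩
  obtain ⟨m4, hm4⟩ : ∃ n, (cell φ ψ (-1) w).card = n := ⟨_, rfl⟩
  have k1 : (cell φ ψ (-1) 1).card = m := by omega
  have k2 : (cell φ ψ (-1) (-1)).card = m := by omega
  have k3 : (cell φ ψ w 1).card = a1 := by omega
  have k4 : (cell φ ψ (-w) (-w)).card = a1 := by omega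
  have k5 : (cell φ ψ (-w) 1).card = a2 := by omega
  have k6 : (cell φ ψ w w).card = a2 := by omega
  have k7 : (cell φ ψ w (-1)).card = m4 := by omega
  have k8 : (cell φ ψ (-1) (-w)).card = m4 := by omega
  have k9 : (cell φ ψ (-w) (-1)).card = m4 := by omega
  have k10 : (cell φ ψ (-w) w).card = m4 := by omega
  have k11 : (cell φ ψ w (-w)).card = m4 := by omega
  rw [hdd] at hd r1 r2 r3 sm
  rw [h0, hm, ha1, ha2, hm4, k1, k2, k3, k4, k5, k6, k7, k8, k9, k10, k11] at sm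
  rw [h0, hm, ha1, ha2] at r1
  rw [k3, k6, k7, k11] at r2
  rw [k1, hm4, k2, k8] at r3
  refine ⟨m0, m, d, h0, hm, k1, k2, hdd, hd, by omega, ?_⟩
  have hd1 : 1 ≤ d := by omega
  have hdm : d - 1 ≤ (d - 1) * (d - 1) := by
    rcases Nat.eq_zero_or_pos (d - 1) with h | h
    · simp [h]
    · exact Nat.le_mul_of_pos_left _ h
  have hp2' : p - 2 = 4 * d - 1 := by omega
  rw [hp2'] at sm
  zify [hdm, hd1, (by omega : 1 ≤ 4 * d)] at sm r1 r2 r3
  exact four_num m0 m a1 a2 m4 d (by linarith) (by linarith) (by linarith) (by linarith)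

theorem sgn_four (hp : 193 ≤ p) : SgnOK p 4 := by
  intro φ ψ hφ hψ _ _ hk A B hAA hB
  have hp2 : p ≠ 2 := by omega
  have hA : A ≠ 0 := by rintro rfl; simp at hAA
  by_cases hBB : B * B = 1
  · obtain ⟨m0, m, d, h0, h1, h2, h3, h4, h5, h6, h7⟩ := cells_four hφ hψ (by omega) hk
    obtain ⟨g1, g2, g3⟩ := four_num2 m d (by exact_mod_cast (by omega : 48 ≤ d)) h7
    have g1' : d + 14 < 6 * m := by exact_mod_cast g1
    have g2' : 18 + 2 * m < d := by exact_mod_cast g2
    have g3' : 17 < 2 * m := by exact_mod_cast g3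
    have hrow1 := card_row_one φ ψ
    have hrow := card_row_le φ ψ (-1)
    have inv1 : (-1 : ZMod p)⁻¹ = -1 := inv_eq_of_mul_eq_one_left (by ring)
    have hdiv1 : (1 : ZMod p) / -1 = -1 := by rw [div_eq_mul_inv, inv1, one_mul]
    have h20 : (2 : ZMod p) ≠ 0 := by
      have := ne_zero_of_small (p := p) (m := 2) (by norm_num) (by omega)
      exact_mod_cast this
    have q02 := ineq02 (S := sols φ ψ A B) sols_sub_vv
    have c0 := r0_le_sq hφ hψ hp2 (B := B) hAA
    have c2 := r2_le (ψ := ψ) (A := A) hφ hB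
    have cs := rs_le hφ hψ hp2 hA hB
    have hm1 : (-1 : ZMod p) ∈ ratios φ ψ := by
      by_contra h
      have := cell_eq_empty (φ := φ) (ψ := ψ) (a := -1) (b := 1) (Or.inl h)
      rw [this, card_empty] at h2
      omega
    have e1 : ((ratios φ ψ).erase 1).card = 3 := by
      rw [card_erase_of_mem (one_mem_ratios φ ψ), hk]
    have e2 : ((ratios φ ψ).erase (-1)).card = 3 := by
      rw [card_erase_of_mem hm1, hk]
    rcases mul_self_eq_one_iff.1 hAA with rfl | rfl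
    · have c0' := r0_le_one hφ hψ hp2 (B := B)
      rcases mul_self_eq_one_iff.1 hBB with rfl | rfl
      · simp only [div_one, mul_one] at c2 cs
        rw [e1, h0] at c2 cs
        omega
      · rw [hdiv1] at c2
        rw [hBB, div_one, one_mul, hdiv1] at cs
        rw [e2, h3] at c2
        rw [e1, e2, h1] at cs
        omega
    · rcases mul_self_eq_one_iff.1 hBB with rfl | rfl
      · simp only [div_one, mul_one, hdiv1] at c2 cs
        rw [e2, h3] at c2 cs
        omega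
      · rw [div_self (neg_ne_zero.2 one_ne_zero)] at c2
        rw [hBB, div_one, div_one] at cs
        rw [e1, h0] at c2
        rw [e1, e2, h2] at cs
        omega
  · have hd := card_ratios_mul φ ψ
    rw [hk] at hd
    have h := case_two hφ hψ hp2 hA hB hAA hBB
    rw [hk] at h
    omega

/-- Four ratios. -/
theorem k_four {φ ψ : ZMod p →*₀ ZMod p} (hφ : Function.Injective φ)
    (hψ : Function.Injective ψ) (hp : 73 ≤ p) (hk : (ratios φ ψ).card = 4) (hs : SgnOK p 4)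
    (hid : ∃ x, φ x ≠ x) (hid' : ∃ x, ψ x ≠ x)
    {A B : ZMod p} (hA : A ≠ 0) (hB : B ≠ 0) : 2 * (sols φ ψ A B).card < p - 1 := by
  have hp2 : p ≠ 2 := by omega
  by_cases hAA : A * A = 1
  · exact hs φ ψ hφ hψ hid hid' hk A B hAA hB
  · by_cases hBB : B * B = 1
    · rw [card_sols_swap]
      exact hs ψ φ hψ hφ hid' hid (by rw [card_ratios_swap, hk]) B A hBB hA
    · have hd := card_ratios_mul φ ψ
      rw [hk] at hd
      have h := case_one hφ hψ hp2 hA hB hAA hBB
      rw [hk] at h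
      omega

end Pool.Agent.Helper459_costas
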