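import Mathlib
import Pool.Agent.Helper459_costas.Kfour
import Pool.Agent.Helper459_costas.Lower

open Finset

namespace Pool.Agent.Helper459_costas

/-- Reduced value of the second coefficient. -/
def bval (p n r s A x : ℕ) : ℕ :=
  ((1 + (p - A) * (x ^ r % p)) * ((p + 1 - x) ^ (n - s) % p)) % p

/-- Majority candidate. -/
def bm (f : ℕ → ℕ) (k : ℕ) : ℕ → ℕ → ℕ :=
  Nat.rec (motive := fun _ => ℕ → ℕ → ℕ) (fun c _ => c)
    (fun x ih c m => cond (Nat.beq m 0) (ih (f x) 1)
      (cond (Nat.beq (f x) c) (ih c (m + 1)) (ih c (m - 1)))) k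

/-- Number of occurrences. -/
def cnt (f : ℕ → ℕ) (v k : ℕ) : ℕ :=
  Nat.rec (motive := fun _ => ℕ) 0 (fun x ih => cond (Nat.beq (f x) v) (ih + 1) ih) k

/-- Bounded quantifier. -/
def allN (k : ℕ) (P : ℕ → Bool) : Bool :=
  Nat.rec (motive := fun _ => Bool) true (fun x ih => cond (P x) ih false) k

/-- The test for given exponents and given first coefficient. -/
def okA (p r s A : ℕ) : Bool :=
  Nat.ble (2 * cnt (fun x => bval p (p - 1) r s A (x + 2))
    (bm (fun x => bval p (p - 1) r s A (x + 2)) (p - 2) 0 0) (p - 2)) (p - 3)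

/-- The exponents under consideration. -/
def expOK (p D r s : ℕ) : Bool :=
  Nat.beq (Nat.gcd r (p - 1)) 1 && !Nat.beq r 1 && Nat.beq (Nat.gcd s (p - 1)) 1 &&
    !Nat.beq s 1 && Nat.beq (r % D) (s % D)

/-- The test for all first coefficients, exponents `r < s`. -/
def chkAll (p D : ℕ) : Bool :=
  allN (p - 1) fun s => allN s fun r => cond (expOK p D r s)
    (allN (p - 1) fun A => okA p r s (A + 1)) true

/-- The test for the first coefficients `1` and `-1`. -/
def chkSgn (p D : ℕ) : Bool :=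
  allN (p - 1) fun s => allN (p - 1) fun r => cond (expOK p D r s && !Nat.beq r s)
    (okA p r s 1 && okA p r s (p - 1)) true

theorem allN_spec {k : ℕ} {P : ℕ → Bool} (h : allN k P = true) : ∀ i < k, P i = true := by
  induction k with
  | zero => intro i hi; omega
  | succ k ih =>
    have h1 : cond (P k) (allN k P) false = true := h
    have h2 : P k = true ∧ allN k P = true := by
      cases hk : P k with
      | false => rw [hk] at h1; simp at h1
      | true => rw [hk] at h1; exact ⟨rfl, h1⟩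
    intro i hi
    rcases Nat.lt_succ_iff_lt_or_eq.1 hi with h3 | h3
    · exact ih h2.2 i h3
    · rw [h3]; exact h2.1

theorem cnt_succ (f : ℕ → ℕ) (v k : ℕ) :
    cnt f v (k + 1) = cnt f v k + if f k = v then 1 else 0 := by
  have h1 : cnt f v (k + 1) = cond (Nat.beq (f k) v) (cnt f v k + 1) (cnt f v k) := rfl
  rw [h1]
  by_cases h : f k = v
  · rw [if_pos h, h, Nat.beq_refl]; rfl
  · have : Nat.beq (f k) v = false := by
      cases hb : Nat.beq (f k) v with
      | false => rfl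
      | true => exact absurd (Nat.eq_of_beq_eq_true hb) h
    rw [if_neg h, this]; rfl

theorem cnt_eq (f : ℕ → ℕ) (v k : ℕ) : cnt f v k = ((range k).filter fun i => f i = v).card := by
  induction k with
  | zero => rfl
  | succ k ih =>
    rw [cnt_succ, ih, range_add_one, filter_insert]
    split_ifs with h
    · rw [card_insert_of_notMem]
      simp
    · rfl

/-- Balance of a value. -/
def bal (v c m : ℕ) : ℤ := if v = c then m else -m

theorem bm_spec (f : ℕ → ℕ) (v : ℕ) : ∀ (k c m : ℕ), v ≠ bm f k c m →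
    bal v c m + 2 * (cnt f v k : ℤ) - k ≤ 0 := by
  intro k
  induction k with
  | zero =>
    intro c m h
    have h1 : v ≠ c := h
    have h2 : (cnt f v 0 : ℤ) = 0 := rfl
    rw [bal, if_neg h1, h2]
    push_cast
    have : (0 : ℤ) ≤ m := Int.natCast_nonneg m
    linarith
  | succ k ih =>
    intro c m h
    have h1 : bm f (k + 1) c m = cond (Nat.beq m 0) (bm f k (f k) 1)
      (cond (Nat.beq (f k) c) (bm f k c (m + 1)) (bm f k c (m - 1))) := rfl
    rw [h1] at h
    rw [cnt_succ]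
    push_cast
    by_cases hm : m = 0
    · rw [hm] at h ⊢
      have h2 := ih (f k) 1 h
      simp only [bal] at h2 ⊢
      split_ifs at h2 ⊢ <;> first | (push_cast at h2 ⊢; linarith) | (exfalso; omega)
    · have hb : Nat.beq m 0 = false := by
        cases hb : Nat.beq m 0 with
        | false => rfl
        | true => exact absurd (Nat.eq_of_beq_eq_true hb) hm
      rw [hb] at h
      by_cases hc : f k = c
      · have hb2 : Nat.beq (f k) c = true := by rw [hc]; exact Nat.beq_refl c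
        rw [hb2] at h
        have h2 := ih c (m + 1) h
        simp only [bal] at h2 ⊢
        split_ifs at h2 ⊢ <;> first | (push_cast at h2 ⊢; linarith) | (exfalso; omega)
      · have hb2 : Nat.beq (f k) c = false := by
          cases hb : Nat.beq (f k) c with
          | false => rfl
          | true => exact absurd (Nat.eq_of_beq_eq_true hb) hc
        rw [hb2] at h
        have h2 := ih c (m - 1) h
        have hm1 : ((m - 1 : ℕ) : ℤ) = m - 1 := by
          rw [Nat.cast_sub (by omega)]; simp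
        simp only [bal] at h2 ⊢
        rw [hm1] at h2
        split_ifs at h2 ⊢ <;> first | (push_cast at h2 ⊢; linarith) | (exfalso; omega)

theorem okA_spec {p r s A : ℕ} (hodd : p % 2 = 1) (hp : 5 ≤ p) (h : okA p r s A = true) (v : ℕ) :
    2 * cnt (fun x => bval p (p - 1) r s A (x + 2)) v (p - 2) < p - 1 := by
  have h1 := Nat.le_of_ble_eq_true h
  by_cases hv : v = bm (fun x => bval p (p - 1) r s A (x + 2)) (p - 2) 0 0
  · rw [hv]; omega
  · have h2 := bm_spec (fun x => bval p (p - 1) r s A (x + 2)) v (p - 2) 0 0 hv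
    simp only [bal] at h2
    split_ifs at h2 <;> push_cast at h2 <;> omega

variable {p : ℕ} [Fact p.Prime]

/-- Every injective multiplicative map is a power map. -/
theorem exists_exp {φ : ZMod p →*₀ ZMod p} (hφ : Function.Injective φ) (hp : 3 ≤ p) :
    ∃ r, r < p - 1 ∧ Nat.gcd r (p - 1) = 1 ∧ ∀ x, φ x = x ^ r := by
  obtain ⟨α, hα⟩ := exists_prim p
  have hn0 : p - 1 ≠ 0 := by omega
  have : NeZero (p - 1) := ⟨hn0⟩
  have h1 : IsPrimitiveRoot (φ α) (p - 1) := hα.map_of_injective hφ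
  obtain ⟨r, hr, hrc, hrα⟩ := hα.isPrimitiveRoot_iff.1 h1
  have hr0 : r ≠ 0 := by
    rintro rfl
    have := (Nat.coprime_zero_left _).1 hrc
    omega
  refine ⟨r, hr, hrc, fun x => ?_⟩
  by_cases hx : x = 0
  · rw [hx, map_zero, zero_pow hr0]
  · obtain ⟨j, _, hj⟩ := hα.eq_pow_of_pow_eq_one (ZMod.pow_card_sub_one_eq_one hx)
    rw [← hj, map_pow, ← hrα, ← pow_mul, ← pow_mul, mul_comm]

theorem exp_cong {φ ψ : ZMod p →*₀ ZMod p} (hp : 3 ≤ p) {r s D : ℕ} (hr : ∀ x, φ x = x ^ r)
    (hs : ∀ x, ψ x = x ^ s) (hD : D ∣ (eqs φ ψ).card) : r % D = s % D := by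
  obtain ⟨α, hα⟩ := exists_prim p
  have hα0 : α ≠ 0 := prim_ne_zero hp hα
  have h1 := pow_card_ratios φ ψ (rho_mem φ ψ hα0)
  have h2 := card_ratios_mul φ ψ
  set k := (ratios φ ψ).card with hk
  set d := (eqs φ ψ).card with hd
  have hk0 : k ≠ 0 := by
    intro h
    rw [h, zero_mul] at h2
    omega
  rw [rho, hr, hs, ← zpow_natCast α s, ← zpow_natCast α r, ← zpow_sub₀ hα0, ← zpow_natCast,
    ← zpow_mul, hα.zpow_eq_one_iff_dvd, ← h2] at h1
  have h3 : (d : ℤ) ∣ (s : ℤ) - r := by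
    have h4 : (k : ℤ) * d ∣ k * ((s : ℤ) - r) := by
      rw [mul_comm (k : ℤ) ((s : ℤ) - r)]
      exact_mod_cast h1
    exact (mul_dvd_mul_iff_left (by exact_mod_cast hk0)).1 h4
  have h5 : (D : ℤ) ∣ (s : ℤ) - r := dvd_trans (by exact_mod_cast hD) h3
  exact (Nat.modEq_iff_dvd.2 h5)

theorem card_sols_le_cnt {φ ψ : ZMod p →*₀ ZMod p} (hp : 3 ≤ p) {r s : ℕ}
    (hr : ∀ x, φ x = x ^ r) (hs : ∀ x, ψ x = x ^ s) (hsp : s < p - 1) (A B : ZMod p) :
    (sols φ ψ A B).card ≤ cnt (fun x => bval p (p - 1) r s A.val (x + 2)) B.val (p - 2) := by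
  rw [cnt_eq]
  have hge : ∀ x ∈ sols φ ψ A B, 2 ≤ x.val := by
    intro x hx
    rw [mem_sols] at hx
    have h0 : x.val ≠ 0 := fun h => hx.1 ((ZMod.val_eq_zero x).1 h)
    have h1 : x.val ≠ 1 := by
      intro h
      apply hx.2.1
      rw [← ZMod.natCast_zmod_val x, h, Nat.cast_one]
    omega
  refine card_le_card_of_injOn (fun x => x.val - 2) ?_ ?_
  · intro x hx
    rw [mem_coe] at hx
    have h2 := hge x hx
    have hxp := ZMod.val_lt x
    rw [mem_sols] at hx
    obtain ⟨h0, h1, h⟩ := hx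
    rw [mem_coe, mem_filter, mem_range]
    beta_reduce
    refine ⟨by omega, ?_⟩
    rw [Nat.sub_add_cancel h2]
    have h1x : 1 - x ≠ 0 := sub_ne_zero.2 (Ne.symm h1)
    have hlt : bval p (p - 1) r s A.val x.val < p := Nat.mod_lt _ (by omega)
    have hcast : ((bval p (p - 1) r s A.val x.val : ℕ) : ZMod p) = B := by
      have hAle : A.val ≤ p := (ZMod.val_lt A).le
      have hxle : x.val ≤ p + 1 := by omega
      rw [bval, ZMod.natCast_mod, Nat.cast_mul, ZMod.natCast_mod, Nat.cast_add, Nat.cast_mul,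
        ZMod.natCast_mod, Nat.cast_sub hAle, Nat.cast_pow, Nat.cast_pow, Nat.cast_sub hxle,
        Nat.cast_add, ZMod.natCast_self, ZMod.natCast_zmod_val, ZMod.natCast_zmod_val,
        Nat.cast_one, zero_add, zero_sub]
      rw [hr, hs] at h
      have h3 : (1 - x) ^ (p - 1 - s) * (1 - x) ^ s = 1 := by
        rw [← pow_add, Nat.sub_add_cancel (by omega), ZMod.pow_card_sub_one_eq_one h1x]
      have h4 : 1 + -A * x ^ r = B * (1 - x) ^ s := by linear_combination -h
      rw [h4, mul_assoc, mul_comm ((1 - x) ^ s), h3, mul_one]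
    rw [← hcast, ZMod.val_natCast, Nat.mod_eq_of_lt hlt]
  · intro x hx y hy h
    rw [mem_coe] at hx hy
    have h1 := hge x hx
    have h2 := hge y hy
    simp only at h
    exact ZMod.val_injective p (by omega)

theorem fin_all_aux {φ ψ : ZMod p →*₀ ZMod p} (hp : 5 ≤ p) (hodd : p % 2 = 1) {D r s : ℕ}
    (h : chkAll p D = true) (hr : ∀ x, φ x = x ^ r) (hs : ∀ x, ψ x = x ^ s)
    (hrs : r < s) (hsp : s < p - 1) (he : expOK p D r s = true) {A B : ZMod p} (hA : A ≠ 0) :
    2 * (sols φ ψ A B).card < p - 1 := by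
  have h1 := allN_spec (allN_spec h s hsp) r hrs
  rw [he] at h1
  have hA1 : A.val ≠ 0 := fun h => hA ((ZMod.val_eq_zero A).1 h)
  have hAp := ZMod.val_lt A
  have h2 := allN_spec h1 (A.val - 1) (by omega)
  rw [Nat.sub_add_cancel (by omega)] at h2
  have h3 := okA_spec hodd hp h2 B.val
  have h4 := card_sols_le_cnt (by omega) hr hs hsp A B
  omega

theorem beq_true {a b : ℕ} (h : a = b) : Nat.beq a b = true := by rw [h]; exact Nat.beq_refl b

theorem beq_false {a b : ℕ} (h : a ≠ b) : Nat.beq a b = false := by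
  cases hb : Nat.beq a b with
  | false => rfl
  | true => exact absurd (Nat.eq_of_beq_eq_true hb) h

theorem expOK_of {D r s : ℕ} (h1 : Nat.gcd r (p - 1) = 1) (h2 : r ≠ 1)
    (h3 : Nat.gcd s (p - 1) = 1) (h4 : s ≠ 1) (h5 : r % D = s % D) : expOK p D r s = true := by
  rw [expOK, beq_true h1, beq_false h2, beq_true h3, beq_false h4, beq_true h5]
  rfl

theorem exp_ne_one {φ : ZMod p →*₀ ZMod p} {r : ℕ} (hr : ∀ x, φ x = x ^ r)
    (hid : ∃ x, φ x ≠ x) : r ≠ 1 := by
  rintro rfl
  obtain ⟨x, hx⟩ := hid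
  exact hx (by rw [hr, pow_one])

theorem exp_ne {φ ψ : ZMod p →*₀ ZMod p} {r s : ℕ} (hr : ∀ x, φ x = x ^ r)
    (hs : ∀ x, ψ x = x ^ s) (hk : (ratios φ ψ).card ≠ 1) : r ≠ s := by
  rintro rfl
  apply hk
  rw [card_eq_one]
  refine ⟨1, ?_⟩
  ext z
  rw [mem_ratios, mem_singleton]
  constructor
  · rintro ⟨y, hy, h⟩
    rw [← h, rho, hr, hs, div_self (pow_ne_zero _ hy)]
  · rintro rfl
    exact ⟨1, one_ne_zero, rho_one φ ψ⟩

/-- Consequence of the test for all first coefficients. -/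
theorem fin_all {φ ψ : ZMod p →*₀ ZMod p} (hφ : Function.Injective φ)
    (hψ : Function.Injective ψ) (hid : ∃ x, φ x ≠ x) (hid' : ∃ x, ψ x ≠ x)
    (hp : 5 ≤ p) (hodd : p % 2 = 1) {D : ℕ} (h : chkAll p D = true)
    (hk : (ratios φ ψ).card ≠ 1) (hD : D ∣ (eqs φ ψ).card) {A B : ZMod p} (hA : A ≠ 0)
    (hB : B ≠ 0) : 2 * (sols φ ψ A B).card < p - 1 := by
  obtain ⟨r, hrp, hrc, hr⟩ := exists_exp hφ (by omega)
  obtain ⟨s, hsp, hsc, hs⟩ := exists_exp hψ (by omega)
  have hr1 := exp_ne_one hr hid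
  have hs1 := exp_ne_one hs hid'
  have hc := exp_cong (by omega) hr hs hD
  rcases lt_trichotomy r s with hlt | heq | hlt
  · exact fin_all_aux hp hodd h hr hs hlt hsp (expOK_of hrc hr1 hsc hs1 hc) hA
  · exact absurd heq (exp_ne hr hs hk)
  · rw [card_sols_swap]
    exact fin_all_aux hp hodd h hs hr hlt hrp (expOK_of hsc hs1 hrc hr1 hc.symm) hB

/-- Consequence of the test for signs. -/
theorem fin_sgn (hp : 5 ≤ p) (hodd : p % 2 = 1) {k D : ℕ} (hkD : k * D = p - 1) (hk1 : k ≠ 1)
    (h : chkSgn p D = true) : SgnOK p k := by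
  intro φ ψ hφ hψ hid hid' hk A B hAA hB
  have hd := card_ratios_mul φ ψ
  rw [hk, ← hkD] at hd
  have hk0 : 0 < k := by
    rcases Nat.eq_zero_or_pos k with h0 | h0
    · rw [h0, zero_mul] at hkD; omega
    · exact h0
  have hdD : (eqs φ ψ).card = D := Nat.eq_of_mul_eq_mul_left hk0 hd
  obtain ⟨r, hrp, hrc, hr⟩ := exists_exp hφ (by omega)
  obtain ⟨s, hsp, hsc, hs⟩ := exists_exp hψ (by omega)
  have hr1 := exp_ne_one hr hid
  have hs1 := exp_ne_one hs hid'
  have hc := exp_cong (D := D) (by omega) hr hs (by rw [hdD])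
  have hne := exp_ne hr hs (by rw [hk]; exact hk1)
  have h1 := allN_spec (allN_spec h s hsp) r hrp
  rw [expOK_of hrc hr1 hsc hs1 hc, beq_false hne] at h1
  have h2 : (okA p r s 1 && okA p r s (p - 1)) = true := h1
  rw [Bool.and_eq_true] at h2
  have h4 := card_sols_le_cnt (by omega) hr hs hsp A B
  have : Fact (1 < p) := ⟨by omega⟩
  rcases mul_self_eq_one_iff.1 hAA with rfl | rfl
  · rw [ZMod.val_one] at h4
    have h3 := okA_spec hodd hp h2.1 B.val
    omega
  · have e : (-1 : ZMod p).val = p - 1 := by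
      have : (-1 : ZMod p) = ((p - 1 : ℕ) : ZMod p) := by
        rw [Nat.cast_sub (by omega), ZMod.natCast_self]; simp
      rw [this, ZMod.val_natCast, Nat.mod_eq_of_lt (by omega)]
    rw [e] at h4
    have h3 := okA_spec hodd hp h2.2 B.val
    omega

end Pool.Agent.Helper459_costas
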