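import Mathlib
import Pool.Agent.Helper459_costas.Exps

namespace Pool.Agent.Helper459_costas

set_option maxRecDepth 100000

theorem s61 : chkSgn 61 20 = true := by decide +kernel

theorem s73a : chkSgn 73 18 = true := by decide +kernel

theorem s73b : chkSgn 73 24 = true := by decide +kernel

theorem s89 : chkSgn 89 22 = true := by decide +kernel

theorem s97 : chkSgn 97 24 = true := by decide +kernel

end Pool.Agent.Helper459_costas
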