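import Mathlib
import Pool.Agent.Helper459_costas.Exps

namespace Pool.Agent.Helper459_costas

set_option maxRecDepth 100000

theorem s113 : chkSgn 113 28 = true := by decide +kernel

theorem s137 : chkSgn 137 34 = true := by decide +kernel

end Pool.Agent.Helper459_costas
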