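import Mathlib
import Pool.Agent.Helper459_costas.CheckA
import Pool.Agent.Helper459_costas.CheckB
import Pool.Agent.Helper459_costas.CheckC
import Pool.Agent.Helper459_costas.CheckD
import Pool.Agent.Helper459_costas.CheckE

open Finset

namespace Pool.Agent.Helper459_costas

variable {p : ℕ} [Fact p.Prime]

theorem two_dvd_card_eqs {φ ψ : ZMod p →*₀ ZMod p} (hφ : Function.Injective φ)
    (hψ : Function.Injective ψ) (hp : p ≠ 2) : 2 ∣ (eqs φ ψ).card := by
  have h : ∑ x ∈ eqs φ ψ, (1 : ZMod 2) = 0 := by
    refine sum_involution (fun x _ => -x) ?_ ?_ ?_ ?_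
    · intro x _; decide
    · intro x hx _
      rw [eqs, mem_filter, mem_nz] at hx
      exact neg_ne_self' hp hx.1
    · intro x hx
      rw [eqs, mem_filter, mem_nz] at hx ⊢
      exact ⟨neg_ne_zero.2 hx.1, by rw [map_neg' φ hφ hp, map_neg' ψ hψ hp, hx.2]⟩
    · intro x _; simp
  rw [sum_const, nsmul_eq_mul, mul_one] at h
  exact (ZMod.natCast_eq_zero_iff _ 2).1 h

/-- The half bound for all pairs of power maps different from the identity. -/
def Good (p : ℕ) [Fact p.Prime] : Prop :=
  ∀ φ ψ : ZMod p →*₀ ZMod p, Function.Injective φ → Function.Injective ψ →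
    (∃ x, φ x ≠ x) → (∃ x, ψ x ≠ x) → ∀ A B : ZMod p, A ≠ 0 → B ≠ 0 →
    2 * (sols φ ψ A B).card < p - 1

theorem good_of (hp : 13 ≤ p) (hodd : p % 2 = 1)
    (h : ∀ k d : ℕ, k * d = p - 1 → 2 ∣ d → k ≠ 1 →
      (16 * (p - 1) + 4 * d * (p - 3) < (p - 3) ^ 2) ∨ (∃ D, D ∣ d ∧ chkAll p D = true) ∨
      (k = 2 ∧ 29 ≤ p) ∨ (k = 3 ∧ 61 ≤ p ∧ SgnOK p 3) ∨ (k = 4 ∧ 73 ≤ p ∧ SgnOK p 4)) :
    Good p := by
  intro φ ψ hφ hψ hid hid' A B hA hB
  by_cases hk : (ratios φ ψ).card = 1
  · exact k_one hφ hψ (by omega) hk hid hA hB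
  · rcases h _ _ (card_ratios_mul φ ψ) (two_dvd_card_eqs hφ hψ (by omega)) hk with
      h1 | ⟨D, hD, h1⟩ | ⟨h1, h2⟩ | ⟨h1, h2, h3⟩ | ⟨h1, h2, h3⟩
    · exact k_inc hψ (by omega) _ rfl h1 hB
    · exact fin_all hφ hψ hid hid' (by omega) hodd h1 hk hD hA hB
    · exact k_two hφ hψ h2 h1 hid hid' hA hB
    · exact k_three hφ hψ h2 h1 h3 hid hid' hA hB
    · exact k_four hφ hψ h2 h1 h3 hid hid' hA hB

theorem dvd_cases {k d n : ℕ} (hn : n ≠ 0) (h : k * d = n) : d ∈ Nat.divisors n :=
  Nat.mem_divisors.2 ⟨⟨k, by rw [← h, mul_comm]⟩, hn⟩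

theorem good13 [Fact (Nat.Prime 13)] : Good 13 :=
  good_of (by norm_num) (by norm_num) fun _ _ _ _ _ => Or.inr (Or.inl ⟨1, one_dvd _, c13⟩)

theorem good17 [Fact (Nat.Prime 17)] : Good 17 :=
  good_of (by norm_num) (by norm_num) fun _ _ _ _ _ => Or.inr (Or.inl ⟨1, one_dvd _, c17⟩)

theorem good29 [Fact (Nat.Prime 29)] : Good 29 := by
  refine good_of (by norm_num) (by norm_num) fun k d h h2 hk => ?_
  have hd := dvd_cases (by norm_num) h
  have e : Nat.divisors (29 - 1) = {1, 2, 4, 7, 14, 28} := by decide
  rw [e] at hd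
  simp only [mem_insert, mem_singleton] at hd
  rcases hd with rfl | rfl | rfl | rfl | rfl | rfl
  · omega
  · left; norm_num
  · right; left; exact ⟨4, dvd_rfl, c29⟩
  · omega
  · right; right; left; omega
  · omega

theorem good37 [Fact (Nat.Prime 37)] : Good 37 := by
  refine good_of (by norm_num) (by norm_num) fun k d h h2 hk => ?_
  have hd := dvd_cases (by norm_num) h
  have e : Nat.divisors (37 - 1) = {1, 2, 3, 4, 6, 9, 12, 18, 36} := by decide
  rw [e] at hd
  simp only [mem_insert, mem_singleton] at hd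
  rcases hd with rfl | rfl | rfl | rfl | rfl | rfl | rfl | rfl | rfl
  · omega
  · left; norm_num
  · omega
  · left; norm_num
  · right; left; exact ⟨6, dvd_rfl, c37⟩
  · omega
  · right; left; exact ⟨6, by norm_num, c37⟩
  · right; left; exact ⟨6, by norm_num, c37⟩
  · omega

theorem good41 [Fact (Nat.Prime 41)] : Good 41 := by
  refine good_of (by norm_num) (by norm_num) fun k d h h2 hk => ?_
  have hd := dvd_cases (by norm_num) h
  have e : Nat.divisors (41 - 1) = {1, 2, 4, 5, 8, 10, 20, 40} := by decide
  rw [e] at hd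
  simp only [mem_insert, mem_singleton] at hd
  rcases hd with rfl | rfl | rfl | rfl | rfl | rfl | rfl | rfl
  · omega
  · left; norm_num
  · left; norm_num
  · omega
  · right; left; exact ⟨8, dvd_rfl, c41a⟩
  · right; left; exact ⟨10, dvd_rfl, c41b⟩
  · right; left; exact ⟨10, by norm_num, c41b⟩
  · omega

theorem good53 [Fact (Nat.Prime 53)] : Good 53 := by
  refine good_of (by norm_num) (by norm_num) fun k d h h2 hk => ?_
  have hd := dvd_cases (by norm_num) h
  have e : Nat.divisors (53 - 1) = {1, 2, 4, 13, 26, 52} := by decide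
  rw [e] at hd
  simp only [mem_insert, mem_singleton] at hd
  rcases hd with rfl | rfl | rfl | rfl | rfl | rfl
  · omega
  · left; norm_num
  · left; norm_num
  · omega
  · right; right; left; omega
  · omega

theorem good61 [Fact (Nat.Prime 61)] : Good 61 := by
  refine good_of (by norm_num) (by norm_num) fun k d h h2 hk => ?_
  have hd := dvd_cases (by norm_num) h
  have e : Nat.divisors (61 - 1) = {1, 2, 3, 4, 5, 6, 10, 12, 15, 20, 30, 60} := by decide
  rw [e] at hd
  simp only [mem_insert, mem_singleton] at hd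
  rcases hd with rfl | rfl | rfl | rfl | rfl | rfl | rfl | rfl | rfl | rfl | rfl | rfl
  · omega
  · left; norm_num
  · omega
  · left; norm_num
  · omega
  · left; norm_num
  · left; norm_num
  · right; left; exact ⟨12, dvd_rfl, c61⟩
  · omega
  · right; right; right; left
    exact ⟨by omega, le_rfl, fin_sgn (k := 3) (by norm_num) (by norm_num) (by norm_num)
      (by norm_num) s61⟩
  · right; right; left; omega
  · omega

theorem good73 [Fact (Nat.Prime 73)] : Good 73 := by
  refine good_of (by norm_num) (by norm_num) fun k d h h2 hk => ?_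
  have hd := dvd_cases (by norm_num) h
  have e : Nat.divisors (73 - 1) = {1, 2, 3, 4, 6, 8, 9, 12, 18, 24, 36, 72} := by decide
  rw [e] at hd
  simp only [mem_insert, mem_singleton] at hd
  rcases hd with rfl | rfl | rfl | rfl | rfl | rfl | rfl | rfl | rfl | rfl | rfl | rfl
  · omega
  · left; norm_num
  · omega
  · left; norm_num
  · left; norm_num
  · left; norm_num
  · omega
  · left; norm_num
  · right; right; right; right
    exact ⟨by omega, le_rfl, fin_sgn (k := 4) (by norm_num) (by norm_num) (by norm_num)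
      (by norm_num) s73a⟩
  · right; right; right; left
    exact ⟨by omega, by norm_num, fin_sgn (k := 3) (by norm_num) (by norm_num) (by norm_num)
      (by norm_num) s73b⟩
  · right; right; left; omega
  · omega

theorem good89 [Fact (Nat.Prime 89)] : Good 89 := by
  refine good_of (by norm_num) (by norm_num) fun k d h h2 hk => ?_
  have hd := dvd_cases (by norm_num) h
  have e : Nat.divisors (89 - 1) = {1, 2, 4, 8, 11, 22, 44, 88} := by decide
  rw [e] at hd
  simp only [mem_insert, mem_singleton] at hd
  rcases hd with rfl | rfl | rfl | rfl | rfl | rfl | rfl | rfl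
  · omega
  · left; norm_num
  · left; norm_num
  · left; norm_num
  · omega
  · right; right; right; right
    exact ⟨by omega, by norm_num, fin_sgn (k := 4) (by norm_num) (by norm_num) (by norm_num)
      (by norm_num) s89⟩
  · right; right; left; omega
  · omega

theorem sgn_four_all (hp : 97 ≤ p) {d : ℕ} (hd : 4 * d = p - 1) (h2 : 2 ∣ d) : SgnOK p 4 := by
  have hpp : p.Prime := Fact.out
  rcases Nat.lt_or_ge p 193 with h | h
  · have hcases : p = 97 ∨ p = 113 ∨ p = 137 := by
      obtain ⟨e, rfl⟩ := h2
      have he : p = 8 * e + 1 := by omega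
      have he1 : 12 ≤ e := by omega
      have he2 : e < 24 := by omega
      subst he
      interval_cases e <;> first | omega | (exfalso; revert hpp; norm_num)
    rcases hcases with rfl | rfl | rfl
    · exact fin_sgn (D := 24) (by norm_num) (by norm_num) (by norm_num) (by norm_num) s97
    · exact fin_sgn (D := 28) (by norm_num) (by norm_num) (by norm_num) (by norm_num) s113
    · exact fin_sgn (D := 34) (by norm_num) (by norm_num) (by norm_num) (by norm_num) s137
  · exact sgn_four h

theorem good_big (hp : 97 ≤ p) (hodd : p % 2 = 1) : Good p := by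
  refine good_of (by omega) hodd fun k d h h2 hk => ?_
  have hk0 : k ≠ 0 := by rintro rfl; omega
  rcases Nat.lt_or_ge k 5 with hk5 | hk5
  · have : k = 2 ∨ k = 3 ∨ k = 4 := by omega
    rcases this with rfl | rfl | rfl
    · right; right; left; omega
    · right; right; right; left
      exact ⟨rfl, by omega, sgn_three hp⟩
    · right; right; right; right
      exact ⟨rfl, by omega, sgn_four_all hp h h2⟩
  · left
    have h5 : 5 * d ≤ p - 1 := by rw [← h]; exact Nat.mul_le_mul_right _ hk5
    obtain ⟨n, hn⟩ : ∃ n, p = n + 93 := ⟨p - 93, by omega⟩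
    have e1 : p - 1 = n + 92 := by omega
    have e3 : p - 3 = n + 90 := by omega
    rw [e1, e3]
    rw [e1] at h5
    nlinarith

/-- The half bound for all primes congruent to one modulo four. -/
theorem good_all (hp : 13 ≤ p) (h4 : p % 4 = 1) : Good p := by
  have hpp : p.Prime := Fact.out
  rcases Nat.lt_or_ge p 97 with h | h
  · have hcases : p = 13 ∨ p = 17 ∨ p = 29 ∨ p = 37 ∨ p = 41 ∨ p = 53 ∨ p = 61 ∨ p = 73 ∨
        p = 89 := by
      obtain ⟨e, he⟩ : ∃ e, p = 4 * e + 1 := ⟨p / 4, by omega⟩
      have he1 : 3 ≤ e := by omega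
      have he2 : e < 24 := by omega
      subst he
      interval_cases e <;> first | omega | (exfalso; revert hpp; norm_num)
    rcases hcases with rfl | rfl | rfl | rfl | rfl | rfl | rfl | rfl | rfl
    · exact good13
    · exact good17
    · exact good29
    · exact good37
    · exact good41
    · exact good53
    · exact good61
    · exact good73
    · exact good89
  · exact good_big h (by omega)

end Pool.Agent.Helper459_costas
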